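import Pool.Agent.H11.T4.Coc

/-!
# The Euler characteristic
-/

open Finset

namespace Pool.T4

open C45

attribute [local irreducible] Tr.get FC FM T2 T3 TW FT msort posL negL eqL incL Tr.keysA

/-- a finite set described by a duplicate free list of codes -/
theorem card_of_codes {α : Type} [DecidableEq α] (S : Finset α) (L : List ℕ) (dec : ℕ → α) (enc : α → ℕ)
    (hL : L.Nodup) (h1 : ∀ s ∈ S, enc s ∈ L ∧ dec (enc s) = s) (h2 : ∀ c ∈ L, dec c ∈ S ∧ enc (dec c) = c) :
    S.card = L.length := by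
  have h3 : (L.map dec).Nodup := by
    refine List.Nodup.map_on ?_ hL
    intro x hx y hy hxy
    rw [← (h2 x hx).2, ← (h2 y hy).2, hxy]
  have h4 : S = (L.map dec).toFinset := by
    ext s
    rw [List.mem_toFinset, List.mem_map]
    constructor
    · intro hs
      exact ⟨enc s, (h1 s hs).1, (h1 s hs).2⟩
    · rintro ⟨c, hc, rfl⟩
      exact (h2 c hc).1
  rw [h4, List.toFinset_card_of_nodup h3, List.length_map]

theorem card_simp0 : (simp KK 0).card = 45 := by
  have : simp KK 0 = Finset.univ := by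
    rw [Finset.eq_univ_iff_forall]
    intro s
    rw [mem_simp]
    refine ⟨fun a b hab => absurd hab (by rw [Fin.lt_def]; omega), ?_⟩
    have h1 : univ.image s = {s 0} := by
      ext v
      rw [Finset.mem_image, Finset.mem_singleton]
      constructor
      · rintro ⟨i, -, rfl⟩
        have : i = 0 := Fin.ext (by omega)
        rw [this]
      · rintro rfl
        exact ⟨0, Finset.mem_univ _, rfl⟩
    rw [h1]
    exact KK.singleton_mem (s 0)
  rw [this, Finset.card_univ, Fintype.card_fun, Fintype.card_fin, Fintype.card_fin]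
  rfl

theorem vec2_mono {u v : Fin 45} (h : u < v) : StrictMono ![u, v] := by
  rw [Fin.strictMono_iff_lt_succ]
  intro i
  fin_cases i
  exact h

theorem vec3_mono {a b c : Fin 45} (h : a < b) (h' : b < c) : StrictMono ![a, b, c] := by
  rw [Fin.strictMono_iff_lt_succ]
  intro i
  fin_cases i
  · exact h
  · exact h'

theorem vec4_mono {a b c d : Fin 45} (h : a < b) (h' : b < c) (h'' : c < d) : StrictMono ![a, b, c, d] := by
  rw [Fin.strictMono_iff_lt_succ]
  intro i
  fin_cases i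
  · exact h
  · exact h'
  · exact h''

theorem img2 (u v : Fin 45) : univ.image ![u, v] = ({u, v} : Finset (Fin 45)) := by
  ext w
  simp [Fin.exists_fin_two, eq_comm]

theorem img3 (a b c : Fin 45) : univ.image ![a, b, c] = ({a, b, c} : Finset (Fin 45)) := by
  ext w
  rw [Finset.mem_image]
  simp only [Finset.mem_univ, true_and, Finset.mem_insert, Finset.mem_singleton]
  constructor
  · rintro ⟨i, rfl⟩
    fin_cases i
    · exact Or.inl rfl
    · exact Or.inr (Or.inl rfl)
    · exact Or.inr (Or.inr rfl)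
  · rintro (rfl | rfl | rfl)
    · exact ⟨0, rfl⟩
    · exact ⟨1, rfl⟩
    · exact ⟨2, rfl⟩

theorem img4 (a b c d : Fin 45) : univ.image ![a, b, c, d] = ({a, b, c, d} : Finset (Fin 45)) := by
  ext w
  rw [Finset.mem_image]
  simp only [Finset.mem_univ, true_and, Finset.mem_insert, Finset.mem_singleton]
  constructor
  · rintro ⟨i, rfl⟩
    fin_cases i
    · exact Or.inl rfl
    · exact Or.inr (Or.inl rfl)
    · exact Or.inr (Or.inr (Or.inl rfl))
    · exact Or.inr (Or.inr (Or.inr rfl))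
  · rintro (rfl | rfl | rfl | rfl)
    · exact ⟨0, rfl⟩
    · exact ⟨1, rfl⟩
    · exact ⟨2, rfl⟩
    · exact ⟨3, rfl⟩

theorem eta2 (s : Fin 2 → Fin 45) : s = ![s 0, s 1] := by funext k; fin_cases k <;> rfl
theorem eta3 (s : Fin 3 → Fin 45) : s = ![s 0, s 1, s 2] := by funext k; fin_cases k <;> rfl
theorem eta4 (s : Fin 4 → Fin 45) : s = ![s 0, s 1, s 2, s 3] := by funext k; fin_cases k <;> rfl

theorem mem_simp1_iff {u v : Fin 45} : ![u, v] ∈ simp KK 1 ↔ T2.get (c2 u v) ≠ 0 := by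
  refine ⟨nz2_of, fun h => ?_⟩
  obtain ⟨h1, h2⟩ := edge_of_T2 h
  rw [mem_simp, img2]
  exact ⟨vec2_mono h1, h2⟩

theorem mem_simp2_iff {a b c : Fin 45} : ![a, b, c] ∈ simp KK 2 ↔ T3.get (c3 a b c) ≠ 0 := by
  refine ⟨nz3_of, fun h => ?_⟩
  obtain ⟨h1, h2, h3⟩ := tri_of_T3 h
  rw [mem_simp, img3]
  exact ⟨vec3_mono h1 h2, h3⟩

theorem key2_info {k : ℕ} (hk : k ∈ T2.keysA []) :
    k / 64 < k % 64 ∧ k % 64 < 45 ∧ ({vt (k / 64), vt (k % 64)} : Finset (Fin 45)) ∈ KK.faces := by
  obtain ⟨p, hp⟩ := T2.keys_all k2 hk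
  simp only [chk2, chk2', andB_eq, blt_iff] at hp
  obtain ⟨h1, h2, h3, -⟩ := hp
  have h1 : k / 64 < k % 64 := h1
  have h2 : k % 64 < 45 := h2
  refine ⟨h1, h2, face_of_FT (Finset.insert_nonempty _ _) h3.ne' ?_⟩
  intro w hw
  rw [Finset.mem_insert, Finset.mem_singleton] at hw
  rcases hw with rfl | rfl
  · left; exact val_vt (by omega)
  · right; left; exact val_vt h2

theorem key3_info {k : ℕ} (hk : k ∈ T3.keysA []) :
    k / 4096 < k / 64 % 64 ∧ k / 64 % 64 < k % 64 ∧ k % 64 < 45 ∧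
    ({vt (k / 4096), vt (k / 64 % 64), vt (k % 64)} : Finset (Fin 45)) ∈ KK.faces := by
  obtain ⟨p, hp⟩ := T3.keys_all k3 hk
  simp only [chk3, chk3', andB_eq, blt_iff] at hp
  obtain ⟨h1, h2, h3, h4, -⟩ := hp
  have h1 : k / 4096 < k / 64 % 64 := h1
  have h2 : k / 64 % 64 < k % 64 := h2
  have h3 : k % 64 < 45 := h3
  refine ⟨h1, h2, h3, face_of_FT (Finset.insert_nonempty _ _) h4.ne' ?_⟩
  intro w hw
  rw [Finset.mem_insert, Finset.mem_insert, Finset.mem_singleton] at hw
  rcases hw with rfl | rfl | rfl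
  · left; exact val_vt (by omega)
  · right; left; exact val_vt (by omega)
  · right; right; left; exact val_vt h3

theorem card_simp1 : (simp KK 1).card = 820 := by
  rw [← kLen2]
  refine card_of_codes _ _ (fun k => ![vt (k / 64), vt (k % 64)]) (fun s => c2 (s 0) (s 1))
    (incL_nodup kT2) ?_ ?_
  · intro s hs
    have hm := T2.get_mem_keys _ (simp1_nz hs)
    refine ⟨hm, ?_⟩
    have h1 : c2 (s 0) (s 1) / 64 = s 0 := c2_div (by omega)
    have h2 : c2 (s 0) (s 1) % 64 = s 1 := c2_mod (by omega)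
    simp only [h1, h2, vt_val]
    exact (eta2 s).symm
  · intro k hk
    obtain ⟨h1, h2, h3⟩ := key2_info hk
    have e1 : (vt (k / 64)).val = k / 64 := val_vt (by omega)
    have e2 : (vt (k % 64)).val = k % 64 := val_vt h2
    have hm : ![vt (k / 64), vt (k % 64)] ∈ simp KK 1 := by
      rw [mem_simp, img2]
      exact ⟨vec2_mono (by rw [Fin.lt_def, e1, e2]; exact h1), h3⟩
    refine ⟨hm, ?_⟩
    show c2 (vt (k / 64)).val (vt (k % 64)).val = k
    rw [e1, e2]
    show k / 64 * 64 + k % 64 = k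
    omega

theorem card_simp2 : (simp KK 2).card = 2910 := by
  rw [← kLen3]
  refine card_of_codes _ _ (fun k => ![vt (k / 4096), vt (k / 64 % 64), vt (k % 64)])
    (fun s => c3 (s 0) (s 1) (s 2)) (incL_nodup kT3) ?_ ?_
  · intro s hs
    refine ⟨T3.get_mem_keys _ (simp2_nz hs), ?_⟩
    have h1 : c3 (s 0) (s 1) (s 2) / 4096 = s 0 := c3_a (by omega) (by omega)
    have h2 : c3 (s 0) (s 1) (s 2) / 64 % 64 = s 1 := c3_b (by omega) (by omega)
    have h3 : c3 (s 0) (s 1) (s 2) % 64 = s 2 := c3_c (by omega)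
    simp only [h1, h2, h3, vt_val]
    exact (eta3 s).symm
  · intro k hk
    obtain ⟨h1, h2, h3, h4⟩ := key3_info hk
    have e1 : (vt (k / 4096)).val = k / 4096 := val_vt (by omega)
    have e2 : (vt (k / 64 % 64)).val = k / 64 % 64 := val_vt (by omega)
    have e3 : (vt (k % 64)).val = k % 64 := val_vt h3
    have hm : ![vt (k / 4096), vt (k / 64 % 64), vt (k % 64)] ∈ simp KK 2 := by
      rw [mem_simp, img3]
      exact ⟨vec3_mono (by rw [Fin.lt_def, e1, e2]; exact h1) (by rw [Fin.lt_def, e2, e3]; exact h2), h4⟩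
    refine ⟨hm, ?_⟩
    show c3 (vt (k / 4096)).val (vt (k / 64 % 64)).val (vt (k % 64)).val = k
    rw [e1, e2, e3]
    show (k / 4096 * 64 + k / 64 % 64) * 64 + k % 64 = k
    omega

/-! ridges -/

theorem mem_posR {c x : ℕ} {l : List ℕ} : x ∈ posR c l ↔ (x ∈ l ∨
    (if sgF c = 1 then x = c4 (fb c) (fc c) (fd c) (fe c) ∨ x = c4 (fa c) (fb c) (fd c) (fe c) ∨
      x = c4 (fa c) (fb c) (fc c) (fd c)
    else x = c4 (fa c) (fc c) (fd c) (fe c) ∨ x = c4 (fa c) (fb c) (fc c) (fe c))) := by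
  show x ∈ @Bool.rec (fun _ => List ℕ)
    (c4 (fa c) (fc c) (fd c) (fe c) :: c4 (fa c) (fb c) (fc c) (fe c) :: l)
    (c4 (fb c) (fc c) (fd c) (fe c) :: c4 (fa c) (fb c) (fd c) (fe c) :: c4 (fa c) (fb c) (fc c) (fd c) :: l)
    (Nat.beq (sgF c) 1) ↔ _
  cases h : Nat.beq (sgF c) 1 with
  | true =>
    rw [if_pos (Nat.eq_of_beq_eq_true h)]
    simp only [List.mem_cons]
    tauto
  | false =>
    rw [if_neg (fun h' => by rw [h'] at h; exact absurd h (by decide))]
    simp only [List.mem_cons]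
    tauto

theorem mem_negR {c x : ℕ} {l : List ℕ} : x ∈ negR c l ↔ (x ∈ l ∨
    (if sgF c = 1 then x = c4 (fa c) (fc c) (fd c) (fe c) ∨ x = c4 (fa c) (fb c) (fc c) (fe c)
    else x = c4 (fb c) (fc c) (fd c) (fe c) ∨ x = c4 (fa c) (fb c) (fd c) (fe c) ∨
      x = c4 (fa c) (fb c) (fc c) (fd c))) := by
  show x ∈ @Bool.rec (fun _ => List ℕ)
    (c4 (fb c) (fc c) (fd c) (fe c) :: c4 (fa c) (fb c) (fd c) (fe c) :: c4 (fa c) (fb c) (fc c) (fd c) :: l)
    (c4 (fa c) (fc c) (fd c) (fe c) :: c4 (fa c) (fb c) (fc c) (fe c) :: l)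
    (Nat.beq (sgF c) 1) ↔ _
  cases h : Nat.beq (sgF c) 1 with
  | true =>
    rw [if_pos (Nat.eq_of_beq_eq_true h)]
    simp only [List.mem_cons]
    tauto
  | false =>
    rw [if_neg (fun h' => by rw [h'] at h; exact absurd h (by decide))]
    simp only [List.mem_cons]
    tauto

/-- the five ridge codes of a facet -/
def ridges (c : ℕ) : Fin 5 → ℕ := ![c4 (fb c) (fc c) (fd c) (fe c), c4 (fa c) (fc c) (fd c) (fe c),
  c4 (fa c) (fb c) (fd c) (fe c), c4 (fa c) (fb c) (fc c) (fe c), c4 (fa c) (fb c) (fc c) (fd c)]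

end Pool.T4

namespace Pool.T4

open C45

theorem posL_cons (c : ℕ) (l : List ℕ) : posL (c :: l) = posR c (posL l) := rfl
theorem negL_cons (c : ℕ) (l : List ℕ) : negL (c :: l) = negR c (negL l) := rfl
theorem posL_nil : posL [] = [] := rfl
theorem negL_nil : negL [] = [] := rfl

theorem posL_sub : ∀ (l : List ℕ) (x : ℕ), x ∈ posL l → ∃ c ∈ l, ∃ i, x = ridges c i := by
  intro l
  induction l with
  | nil => intro x hx; rw [posL_nil] at hx; exact absurd hx (by simp)
  | cons c l ih =>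
    intro x hx
    rw [posL_cons, mem_posR] at hx
    rcases hx with hx | hx
    · obtain ⟨c', hc', h⟩ := ih x hx
      exact ⟨c', List.mem_cons_of_mem _ hc', h⟩
    · refine ⟨c, List.mem_cons_self, ?_⟩
      split_ifs at hx
      · rcases hx with rfl | rfl | rfl
        · exact ⟨0, rfl⟩
        · exact ⟨2, rfl⟩
        · exact ⟨4, rfl⟩
      · rcases hx with rfl | rfl
        · exact ⟨1, rfl⟩
        · exact ⟨3, rfl⟩

theorem posneg_sup : ∀ (l : List ℕ) (c : ℕ), c ∈ l → ∀ i, ridges c i ∈ posL l ∨ ridges c i ∈ negL l := by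
  intro l
  induction l with
  | nil => intro c hc; exact absurd hc (by simp)
  | cons c l ih =>
    intro c' hc' i
    rw [posL_cons, negL_cons, mem_posR, mem_negR]
    rcases List.mem_cons.1 hc' with rfl | hc'
    · by_cases h : sgF c' = 1
      · rw [if_pos h, if_pos h]
        fin_cases i
        · exact Or.inl (Or.inr (Or.inl rfl))
        · exact Or.inr (Or.inr (Or.inl rfl))
        · exact Or.inl (Or.inr (Or.inr (Or.inl rfl)))
        · exact Or.inr (Or.inr (Or.inr rfl))
        · exact Or.inl (Or.inr (Or.inr (Or.inr rfl)))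
      · rw [if_neg h, if_neg h]
        fin_cases i
        · exact Or.inr (Or.inr (Or.inl rfl))
        · exact Or.inl (Or.inr (Or.inl rfl))
        · exact Or.inr (Or.inr (Or.inr (Or.inl rfl)))
        · exact Or.inl (Or.inr (Or.inr rfl))
        · exact Or.inr (Or.inr (Or.inr (Or.inr rfl)))
    · rcases ih c' hc' i with h | h
      · exact Or.inl (Or.inl h)
      · exact Or.inr (Or.inl h)

attribute [local irreducible] Tr.get FC FM T2 T3 TW FT msort posL negL eqL incL Tr.keysA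

theorem T4c_ridge {c : ℕ} (hc : c ∈ FC) (i : Fin 5) : T4c (ridges c i) = T5 c ∘ i.succAbove := by
  obtain ⟨h0, h1, h2, h3, h4⟩ := facet_lt hc
  fin_cases i
  · show T4c (c4 (fb c) (fc c) (fd c) (fe c)) = _
    rw [T4c_c4 h2 h3 h4]; funext k; fin_cases k <;> rfl
  · show T4c (c4 (fa c) (fc c) (fd c) (fe c)) = _
    rw [T4c_c4 h2 h3 h4]; funext k; fin_cases k <;> rfl
  · show T4c (c4 (fa c) (fb c) (fd c) (fe c)) = _
    rw [T4c_c4 h1 h3 h4]; funext k; fin_cases k <;> rfl
  · show T4c (c4 (fa c) (fb c) (fc c) (fe c)) = _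
    rw [T4c_c4 h1 h2 h4]; funext k; fin_cases k <;> rfl
  · show T4c (c4 (fa c) (fb c) (fc c) (fd c)) = _
    rw [T4c_c4 h1 h2 h3]; funext k; fin_cases k <;> rfl

theorem enc_T5 {c : ℕ} (hc : c ∈ FC) (i : Fin 5) :
    c4 ((T5 c ∘ i.succAbove) 0) ((T5 c ∘ i.succAbove) 1) ((T5 c ∘ i.succAbove) 2) ((T5 c ∘ i.succAbove) 3) =
      ridges c i := by
  show c4 (T5 c (i.succAbove 0)) (T5 c (i.succAbove 1)) (T5 c (i.succAbove 2)) (T5 c (i.succAbove 3)) = _
  rw [val_T5 hc, val_T5 hc, val_T5 hc, val_T5 hc]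
  fin_cases i <;> rfl

theorem strictMono4_succAbove (j : Fin 4 → Fin 5) (hj : StrictMono j) : ∃ i : Fin 5, j = i.succAbove := by
  obtain ⟨i, hi⟩ : ∃ i : Fin 5, ∀ k, j k ≠ i := by
    by_contra hc
    push Not at hc
    have : Function.Surjective j := fun i => hc i
    have := Fintype.card_le_of_surjective j this
    simp at this
  refine ⟨i, ?_⟩
  have h1 : Set.range j = Set.range i.succAbove := by
    have h2 : Set.range j ⊆ Set.range i.succAbove := by
      rintro _ ⟨k, rfl⟩
      rw [Fin.range_succAbove]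
      exact hi k
    have h3 : (Finset.univ.image j) ⊆ Finset.univ.image i.succAbove := by
      intro x hx
      obtain ⟨k, -, rfl⟩ := Finset.mem_image.1 hx
      obtain ⟨k', hk'⟩ := h2 ⟨k, rfl⟩
      exact Finset.mem_image.2 ⟨k', Finset.mem_univ _, hk'⟩
    have h4 : (Finset.univ.image j) = Finset.univ.image i.succAbove := by
      apply Finset.eq_of_subset_of_card_le h3
      rw [Finset.card_image_of_injective _ hj.injective,
        Finset.card_image_of_injective _ i.strictMono_succAbove.injective]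
    ext x
    have := Finset.ext_iff.1 h4 x
    simpa using this
  exact StrictMono.range_inj hj i.strictMono_succAbove |>.1 h1

theorem card_simp3 : (simp KK 3).card = 3545 := by
  rw [← kPl]
  refine card_of_codes _ _ T4c (fun s => c4 (s 0) (s 1) (s 2) (s 3)) (incL_nodup kPi) ?_ ?_
  · intro s hs
    obtain ⟨c, hc, j, hj, rfl⟩ := mem_simpKK.1 hs
    obtain ⟨i, rfl⟩ := strictMono4_succAbove j hj
    have he := enc_T5 hc i
    refine ⟨?_, ?_⟩
    · show c4 ((T5 c ∘ i.succAbove) 0) ((T5 c ∘ i.succAbove) 1) ((T5 c ∘ i.succAbove) 2)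
        ((T5 c ∘ i.succAbove) 3) ∈ _
      rw [he, (msort_perm 12 (posL FC)).mem_iff]
      rcases posneg_sup FC c hc i with h | h
      · exact h
      · exact pos_perm_neg.mem_iff.2 h
    · show T4c (c4 ((T5 c ∘ i.succAbove) 0) ((T5 c ∘ i.succAbove) 1) ((T5 c ∘ i.succAbove) 2)
        ((T5 c ∘ i.succAbove) 3)) = _
      rw [he, T4c_ridge hc]
  · intro x hx
    rw [(msort_perm 12 (posL FC)).mem_iff] at hx
    obtain ⟨c, hc, i, rfl⟩ := posL_sub FC x hx
    have hm : T5 c ∘ i.succAbove ∈ simp KK 3 := by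
      rw [mem_simpKK]
      exact ⟨c, hc, i.succAbove, i.strictMono_succAbove, rfl⟩
    rw [T4c_ridge hc]
    exact ⟨hm, enc_T5 hc i⟩

theorem euler : eulerChar KK = 8 := by
  unfold eulerChar
  have h1 : (Finset.range 45) = Finset.range (5 + 40) := rfl
  rw [h1, Finset.sum_range_add]
  have h2 : ∑ x ∈ Finset.range 40, (-1 : ℤ) ^ (5 + x) * ((simp KK (5 + x)).card : ℤ) = 0 := by
    apply Finset.sum_eq_zero
    intro x _
    rw [simp_empty (by omega)]
    simp
  rw [h2, add_zero]
  simp only [Finset.sum_range_succ, Finset.sum_range_zero]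
  rw [card_simp0, card_simp1, card_simp2, card_simp3, card_simp4]
  norm_num

end Pool.T4
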