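import Pool.Agent.H11.T4.Tre

/-! Certificate data for project T4 (generated). -/

set_option maxRecDepth 100000

namespace Pool.T4

/-- root vertex -/
def root : ℕ := 23

/-- tree paths from the root to every vertex -/
def PT : List (List ℕ) := [
  [23, 0], [23, 1], [23, 2], [23, 3], [23, 4], [23, 5], [23, 37, 6], [23, 39, 7],
  [23, 8], [23, 9], [23, 10], [23, 39, 11], [23, 12], [23, 13], [23, 14], [23, 15],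
  [23, 16], [23, 39, 17], [23, 39, 18], [23, 19], [23, 20], [23, 21], [23, 22], [23],
  [23, 31, 24], [23, 39, 25], [23, 26], [23, 27], [23, 39, 28], [23, 29], [23, 30], [23, 31],
  [23, 32], [23, 33], [23, 31, 34], [23, 35], [23, 36], [23, 37], [23, 38], [23, 39],
  [23, 40], [23, 41], [23, 42], [23, 43], [23, 44]]

/-- generator edges -/
def GN : List ℕ := [
  1192, 614, 675, 470]

/-- loops at the root -/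
def LP : List (List ℕ) := [
  [23, 39, 18, 40, 23], [23, 9, 38, 23], [23, 10, 35, 23], [23, 39, 7, 22, 23]]

/-- triangles whose relators are commutators: `[u, v, w, e, f, l₁, l₂, l₃, l₄]` -/
def CM : List (List ℕ) := [
  [0, 2, 6, 12, 27, 2, 1, 6, 5], [0, 5, 15, 8, 36, 3, 1, 7, 5], [12, 0, 34, 2, 8, 8, 1, 4, 5], [7, 2, 9, 4, 24, 2, 7, 6, 3],
  [0, 2, 19, 6, 27, 2, 4, 6, 8], [44, 1, 13, 5, 34, 3, 4, 7, 8]]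

/-- critical triangles -/
def TTl : List ℕ := [
  29590, 87449, 16870, 4650, 58912, 14438, 50005, 6115, 29662, 92011,
  29455, 34028, 30502, 34214]

/-- Gram matrix of the 14 cocycles -/
def GG : List (List ℤ) := [
  [0, -1, 1, 0, 1, 0, 0, 1, 1, 2, 1, 0, 0, 1],
  [-1, 0, -2, 1, -2, -1, 0, 0, 0, -1, 2, -1, -1, -2],
  [1, -2, 0, -2, 0, 1, 0, 2, 2, 1, 0, 0, 0, 3],
  [0, 1, -2, 0, -1, 0, 0, -1, 1, -2, 0, -1, -1, -3],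
  [1, -2, 0, -1, 0, 1, 0, 3, 1, 1, 1, 1, 0, 2],
  [0, -1, 1, 0, 1, 0, 0, 1, 1, 2, 0, 1, 0, 2],
  [0, 0, 0, 0, 0, 0, 0, 1, 0, 0, 1, 0, 0, -1],
  [1, 0, 2, -1, 3, 1, 1, 2, -1, 2, -1, 2, 1, 3],
  [1, 0, 2, 1, 1, 1, 0, -1, -3, 1, -2, 2, 2, 3],
  [2, -1, 1, -2, 1, 2, 0, 2, 1, 0, -2, 1, 1, 2],
  [1, 2, 0, 0, 1, 0, 1, -1, -2, -2, -2, 0, 1, -2],
  [0, -1, 0, -1, 1, 1, 0, 2, 2, 1, 0, 0, -1, 1],
  [0, -1, 0, -1, 0, 0, 0, 1, 2, 1, 1, -1, -1, 1],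
  [1, -2, 3, -3, 2, 2, -1, 3, 3, 2, -2, 1, 1, 3]]

/-- coefficients of the positive vectors -/
def PP : List (List ℤ) := [
  [0, -1, 0, 0, 0, 0, 0, 0, 0, 0, 0, 0, 1, 0],
  [0, 0, 0, 0, 0, 0, 0, 0, 0, 0, 0, -1, 1, 0],
  [0, 1, 0, 0, 0, 0, 0, 1, 0, 0, 0, -1, 1, 0],
  [2, 0, 0, 1, 0, 0, 0, 0, 0, 0, 0, 0, -1, 0],
  [-1, 2, -1, 0, -2, 1, 1, 1, 1, 2, -1, -1, 3, 0]]

/-- coefficients of the negative vectors -/
def MM : List (List ℤ) := [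
  [0, 0, 0, 0, 0, 0, 0, 0, 0, 0, 0, 0, 1, 0],
  [-1, -1, 0, 0, 0, 0, 0, 0, 0, 0, 0, 0, 1, 0],
  [0, -1, 0, 0, 0, 0, 1, -1, 0, 0, 0, 1, -1, 0],
  [1, 0, 0, 0, 0, -1, -1, 0, 0, 0, 0, 1, -1, 0],
  [-1, 1, -1, -1, 0, 0, -1, 0, 0, 1, 0, 0, 1, 0],
  [1, 0, 0, 0, 1, -1, -2, 0, -1, 0, 0, 0, -2, 0],
  [0, -1, 1, 0, 0, 1, 1, -1, 0, -1, 1, 1, -1, 0],
  [2, 1, -2, 0, 0, -1, -3, 1, -1, 2, -1, -1, 0, 0],
  [1, 2, -1, 2, 2, -1, -3, 1, 1, -2, 1, -1, 1, 2]]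


end Pool.T4
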