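import Pool.Agent.H11.T4.D1
import Pool.Agent.H11.T4.D2
import Pool.Agent.H11.T4.D3
import Pool.Agent.H11.T4.D4

/-!
# The checks that the kernel evaluates
-/

namespace Pool.T4

/-- number of vertices -/
abbrev NN : ℕ := 45

def fa (c : ℕ) : ℕ := Nat.div c 16777216
def fb (c : ℕ) : ℕ := Nat.mod (Nat.div c 262144) 64
def fc (c : ℕ) : ℕ := Nat.mod (Nat.div c 4096) 64
def fd (c : ℕ) : ℕ := Nat.mod (Nat.div c 64) 64
def fe (c : ℕ) : ℕ := Nat.mod c 64

/-- mask of five vertices -/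
def mask5 (a b c d e : ℕ) : ℕ :=
  Nat.lor (2 ^ a) (Nat.lor (2 ^ b) (Nat.lor (2 ^ c) (Nat.lor (2 ^ d) (2 ^ e))))

def c2 (a b : ℕ) : ℕ := Nat.add (Nat.mul a 64) b
def c3 (a b c : ℕ) : ℕ := Nat.add (Nat.mul (c2 a b) 64) c
def c4 (a b c d : ℕ) : ℕ := Nat.add (Nat.mul (c3 a b c) 64) d

/-- sequential conjunction -/
def andB (a b : Bool) : Bool := @Bool.rec (fun _ => Bool) false b a

theorem andB_eq (a b : Bool) : andB a b = true ↔ a = true ∧ b = true := by
  cases a <;> cases b <;> simp [andB]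

/-- packed values of the 1-cocycles on an edge -/
noncomputable def XV (u v : ℕ) : ℕ := Nat.div (T2.get (c2 u v)) 1099511627776
/-- packed values of the 2-cocycles on a triangle -/
noncomputable def YV (a b c : ℕ) : ℕ := Nat.div (T3.get (c3 a b c)) 1099511627776

/-- `16 (1 + 64 + 64² + 64³)` -/
def OFF4 : ℕ := 4260880
/-- `16 (1 + 64 + … + 64¹³)` -/
def OFF14 : ℕ := 4912460473354683630552080

noncomputable def nz2 (a b : ℕ) : Bool := Nat.blt 0 (T2.get (c2 a b))
noncomputable def nz3 (a b c : ℕ) : Bool := Nat.blt 0 (T3.get (c3 a b c))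

/-- cocycle relation of the 1-cocycles on a triangle -/
noncomputable def rel1 (a b c : ℕ) : Bool :=
  Nat.beq (Nat.add (XV b c) (XV a b)) (Nat.add (XV a c) OFF4)
/-- cocycle relation of the 2-cocycles on a tetrahedron -/
noncomputable def rel2 (a b c d : ℕ) : Bool :=
  Nat.beq (Nat.add (YV b c d) (YV a b d)) (Nat.add (YV a c d) (YV a b c))

/-- the facet codes are increasing, and the facet is in the tree `FT` -/
noncomputable def chkA (m : ℕ) : Bool :=
  andB (Nat.blt (fa m) (fb m)) (andB (Nat.blt (fb m) (fc m)) (andB (Nat.blt (fc m) (fd m))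
    (andB (Nat.blt (fd m) (fe m)) (andB (Nat.blt (fe m) NN)
      (Nat.blt 0 (FT.get (mask5 (fa m) (fb m) (fc m) (fd m) (fe m))))))))

noncomputable def chkB' (a b c d e : ℕ) : Bool :=
  andB (nz2 a b) (andB (nz2 a c) (andB (nz2 a d) (andB (nz2 a e) (andB (nz2 b c)
    (andB (nz2 b d) (andB (nz2 b e) (andB (nz2 c d) (andB (nz2 c e) (nz2 d e)))))))))

noncomputable def chkC' (a b c d e : ℕ) : Bool :=
  andB (nz3 a b c) (andB (nz3 a b d) (andB (nz3 a b e) (andB (nz3 a c d) (andB (nz3 a c e)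
    (andB (nz3 a d e) (andB (nz3 b c d) (andB (nz3 b c e) (andB (nz3 b d e) (nz3 c d e)))))))))

noncomputable def chkD' (a b c d e : ℕ) : Bool :=
  andB (rel1 a b c) (andB (rel1 a b d) (andB (rel1 a b e) (andB (rel1 a c d) (andB (rel1 a c e)
    (andB (rel1 a d e) (andB (rel1 b c d) (andB (rel1 b c e) (andB (rel1 b d e) (rel1 c d e)))))))))

noncomputable def chkE' (a b c d e : ℕ) : Bool :=
  andB (rel2 a b c d) (andB (rel2 a b c e) (andB (rel2 a b d e) (andB (rel2 a c d e) (rel2 b c d e))))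

noncomputable def onF (f : ℕ → ℕ → ℕ → ℕ → ℕ → Bool) (m : ℕ) : Bool :=
  f (fa m) (fb m) (fc m) (fd m) (fe m)

/-! ### entries of the edge tree `T2` -/

/-- auxiliary part of a payload -/
def aux (p : ℕ) : ℕ := Nat.mod p 1099511627776
def rkOf (p : ℕ) : ℕ := Nat.mod (aux p) 4096
def thOf (p : ℕ) : ℕ := Nat.mod (Nat.div (aux p) 4096) 64
def w2Of (p : ℕ) : ℕ := Nat.mod (Nat.div (aux p) 262144) 64
def w3Of (p : ℕ) : ℕ := Nat.div (aux p) 16777216

noncomputable def rk2 (u v : ℕ) : ℕ := rkOf (T2.get (c2 u v))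

/-- checks for an edge `u v` matched with the triangle `u v w` (sorted) -/
noncomputable def mat2 (u v w r : ℕ) : Bool :=
  @Bool.rec (fun _ => Bool)
    (@Bool.rec (fun _ => Bool)
      -- v ≤ w
      (andB (Nat.blt v w) (andB (Nat.beq (YV u v w) OFF14) (andB (Nat.blt (rk2 v w) r) (Nat.blt (rk2 u w) r))))
      -- u ≤ w < v
      (andB (Nat.blt u w) (andB (Nat.beq (YV u w v) OFF14) (andB (Nat.blt (rk2 w v) r) (Nat.blt (rk2 u w) r))))
      (Nat.blt w v))
    -- w < u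
    (andB (Nat.beq (YV w u v) OFF14) (andB (Nat.blt (rk2 w v) r) (Nat.blt (rk2 w u) r)))
    (Nat.blt w u)

noncomputable def chk2' (u v p : ℕ) : Bool :=
  andB (Nat.blt u v) (andB (Nat.blt v NN)
    (andB (Nat.blt 0 (FT.get (mask5 u v (thOf p) (w2Of p) (w3Of p))))
    (andB (digOK 4 (Nat.div p 1099511627776))
    (andB (Nat.blt 0 (TW.get (c2 u v)))
      (@Bool.rec (fun _ => Bool) (mat2 u v (thOf p) (rkOf p)) true (Nat.beq (rkOf p) 0))))))

noncomputable def chk2 (k p : ℕ) : Bool := chk2' (Nat.div k 64) (Nat.mod k 64) p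

/-! ### entries of the triangle tree `T3` -/

def kdOf (p : ℕ) : ℕ := Nat.mod (aux p) 4
def ixOf (p : ℕ) : ℕ := Nat.mod (Nat.div (aux p) 4) 16
def wOf (p : ℕ) : ℕ := Nat.mod (Nat.div (aux p) 64) 64
def uOf (p : ℕ) : ℕ := Nat.mod (Nat.div (aux p) 4096) 64
def rtOf (p : ℕ) : ℕ := Nat.div (aux p) 262144

noncomputable def rk3 (a b c : ℕ) : ℕ := rtOf (T3.get (c3 a b c))

/-- `n`-th element of a list of naturals, default `0` -/
noncomputable def nthL (l : List ℕ) : ℕ → ℕ :=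
  @List.rec ℕ (fun _ => ℕ → ℕ) (fun _ => 0)
    (fun a _ ih i => @Nat.rec (fun _ => ℕ) a (fun j _ => ih j) i) l

/-- partner edge check: edge `(u, v)` is matched with the third vertex `w` -/
noncomputable def par2 (u v w : ℕ) : Bool :=
  andB (Nat.blt 0 (rk2 u v)) (Nat.beq (thOf (T2.get (c2 u v))) w)

/-- the other three faces of the tetrahedron `a b c w` have smaller rank -/
noncomputable def low3 (a b c w r : ℕ) : Bool :=
  @Bool.rec (fun _ => Bool)
    (@Bool.rec (fun _ => Bool)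
      (@Bool.rec (fun _ => Bool)
        -- c ≤ w
        (andB (Nat.blt c w) (andB (Nat.blt (rk3 b c w) r) (andB (Nat.blt (rk3 a c w) r) (Nat.blt (rk3 a b w) r))))
        -- b ≤ w < c
        (andB (Nat.blt b w) (andB (Nat.blt (rk3 b w c) r) (andB (Nat.blt (rk3 a w c) r) (Nat.blt (rk3 a b w) r))))
        (Nat.blt w c))
      -- a ≤ w < b
      (andB (Nat.blt a w) (andB (Nat.blt (rk3 w b c) r) (andB (Nat.blt (rk3 a w c) r) (Nat.blt (rk3 a w b) r))))
      (Nat.blt w b))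
    -- w < a
    (andB (Nat.blt (rk3 w b c) r) (andB (Nat.blt (rk3 w a c) r) (Nat.blt (rk3 w a b) r)))
    (Nat.blt w a)

noncomputable def kind3 (a b c p : ℕ) : Bool :=
  @Bool.rec (fun _ => Bool)
    (@Bool.rec (fun _ => Bool)
      (andB (Nat.beq (kdOf p) 2) (low3 a b c (wOf p) (rtOf p)))
      (@Bool.rec (fun _ => Bool)
        (@Bool.rec (fun _ => Bool) (andB (Nat.beq (ixOf p) 2) (par2 a b c)) (par2 a c b) (Nat.beq (ixOf p) 1))
        (par2 b c a) (Nat.beq (ixOf p) 0))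
      (Nat.beq (kdOf p) 1))
    (andB (Nat.blt (ixOf p) 14) (Nat.beq (nthL TTl (ixOf p)) (c3 a b c)))
    (Nat.beq (kdOf p) 0)

noncomputable def chk3' (a b c p : ℕ) : Bool :=
  andB (Nat.blt a b) (andB (Nat.blt b c) (andB (Nat.blt c NN)
    (andB (Nat.blt 0 (FT.get (mask5 a b c (wOf p) (uOf p))))
    (andB (digOK 14 (Nat.div p 1099511627776)) (kind3 a b c p)))))

noncomputable def chk3 (k p : ℕ) : Bool :=
  chk3' (Nat.div k 4096) (Nat.mod (Nat.div k 64) 64) (Nat.mod k 64) p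

/-- values of the cocycles on the critical triangles -/
noncomputable def chkT (m : ℕ) : Bool :=
  @Nat.rec (fun _ => Bool) true (fun j ih =>
    andB (Nat.beq (Nat.div (T3.get (nthL TTl j)) 1099511627776) (Nat.add OFF14 (Nat.pow 64 j))) ih) m

/-! ### words -/

def kwOf (p : ℕ) : ℕ := Nat.mod (Nat.div p 2) 4
def twOf (p : ℕ) : ℕ := Nat.mod (Nat.div p 8) 64
def ewOf (p : ℕ) : ℕ := Nat.mod (Nat.div p 512) 64
def fwOf (p : ℕ) : ℕ := Nat.mod (Nat.div p 32768) 64
def rwOf (p : ℕ) : ℕ := Nat.mod (Nat.div p 2097152) 1024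
def cwOf (p : ℕ) : ℕ := Nat.div p 2147483648

/-- decode a word (digits in base 9, at most 8 letters) -/
noncomputable def decW (m : ℕ) : ℕ → List ℕ :=
  @Nat.rec (fun _ => ℕ → List ℕ) (fun _ => [])
    (fun _ ih c => @Bool.rec (fun _ => List ℕ) (Nat.mod c 9 :: ih (Nat.div c 9)) [] (Nat.beq c 0)) m

/-- inverse letter -/
def invl (l : ℕ) : ℕ := @Bool.rec (fun _ => ℕ) (Nat.sub l 4) (Nat.add l 4) (Nat.ble l 4)

/-- inverse word -/
noncomputable def invW (w : List ℕ) : List ℕ :=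
  @List.rec ℕ (fun _ => List ℕ → List ℕ) (fun acc => acc) (fun l _ ih acc => ih (invl l :: acc)) w []

/-- word of an ordered pair -/
noncomputable def wd (u v : ℕ) : List ℕ :=
  @Bool.rec (fun _ => List ℕ) (invW (decW 8 (cwOf (TW.get (c2 v u))))) (decW 8 (cwOf (TW.get (c2 u v)))) (Nat.blt u v)

/-- rank of an unordered pair -/
noncomputable def rkw (u v : ℕ) : ℕ :=
  @Bool.rec (fun _ => ℕ) (rwOf (TW.get (c2 v u))) (rwOf (TW.get (c2 u v))) (Nat.blt u v)

/-- append a letter in front and reduce -/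
def pushW (l : ℕ) (w : List ℕ) : List ℕ :=
  @List.rec ℕ (fun _ => List ℕ) [l] (fun m w' _ => @Bool.rec (fun _ => List ℕ) (l :: m :: w') w' (Nat.beq (invl l) m)) w

/-- reduced product -/
noncomputable def mulW (w : List ℕ) (v : List ℕ) : List ℕ :=
  @List.rec ℕ (fun _ => List ℕ) v (fun l _ ih => pushW l ih) w

/-- path from the root -/
noncomputable def pth (v : ℕ) : List ℕ :=
  @List.rec (List ℕ) (fun _ => ℕ → List ℕ) (fun _ => [])
    (fun a _ ih i => @Nat.rec (fun _ => List ℕ) a (fun j _ => ih j) i) PT v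

noncomputable def snocL (l : List ℕ) (v : ℕ) : List ℕ :=
  @List.rec ℕ (fun _ => List ℕ) [v] (fun a _ ih => a :: ih) l

noncomputable def kindW (u v p : ℕ) : Bool :=
  @Bool.rec (fun _ => Bool)
    (@Bool.rec (fun _ => Bool)
      (andB (Nat.blt 0 (FT.get (mask5 u v (twOf p) (ewOf p) (fwOf p))))
        (andB (Nat.blt (rkw u (twOf p)) (rwOf p)) (andB (Nat.blt (rkw (twOf p) v) (rwOf p))
          (eqL (wd u v) (mulW (wd u (twOf p)) (wd (twOf p) v))))))
      (andB (Nat.beq (nthL GN (Nat.sub (cwOf p) 1)) (c2 u v)) (andB (Nat.blt 0 (cwOf p)) (Nat.blt (cwOf p) 5)))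
      (Nat.beq (kwOf p) 1))
    (andB (Nat.beq (cwOf p) 0) (@Bool.rec (fun _ => Bool) (eqL (pth u) (snocL (pth v) u)) true (eqL (pth v) (snocL (pth u) v))))
    (Nat.beq (kwOf p) 0)

/-- number of occurrences of the letter `l` -/
noncomputable def cntL (l : ℕ) (w : List ℕ) : ℕ :=
  @List.rec ℕ (fun _ => ℕ) 0 (fun m _ ih => @Bool.rec (fun _ => ℕ) ih (Nat.succ ih) (Nat.beq l m)) w

noncomputable def xw (u v i : ℕ) : Bool :=
  Nat.beq (Nat.add (Nat.mod (Nat.div (XV u v) (Nat.pow 64 i)) 64) (cntL (Nat.add i 5) (wd u v)))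
    (Nat.add 16 (cntL (Nat.add i 1) (wd u v)))

noncomputable def chkW' (u v p : ℕ) : Bool :=
  andB (Nat.blt u v) (andB (Nat.blt v NN) (andB (kindW u v p)
    (andB (xw u v 0) (andB (xw u v 1) (andB (xw u v 2) (xw u v 3))))))

noncomputable def chkW (k p : ℕ) : Bool := chkW' (Nat.div k 64) (Nat.mod k 64) p

/-- commutator relators -/
noncomputable def chkCM (l : List ℕ) : Bool :=
  match l with
  | [u, v, w, e, f, a, b, c, d] =>
    andB (Nat.blt 0 (FT.get (mask5 u v w e f)))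
      (andB (eqL (mulW (wd u v) (mulW (wd v w) (wd w u))) [a, b, c, d])
        (andB (Nat.beq (invl a) c) (Nat.beq (invl b) d)))
  | _ => false

end Pool.T4
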