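import Pool.Agent.H11.T4.Chk

/-!
# More checks: fundamental cycle, Gram matrix, degree
-/

namespace Pool.T4

/-! ### merge sort -/

/-- merge two lists (with fuel) -/
noncomputable def mrg (m : ℕ) : List ℕ → List ℕ → List ℕ :=
  @Nat.rec (fun _ => List ℕ → List ℕ → List ℕ) (fun a b => List.append a b)
    (fun _ ih a b =>
      @List.rec ℕ (fun _ => List ℕ) b
        (fun x a' _ => @List.rec ℕ (fun _ => List ℕ) (x :: a')
          (fun y b' _ => @Bool.rec (fun _ => List ℕ) (x :: ih a' (y :: b')) (y :: ih (x :: a') b') (Nat.blt y x)) b) a) m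

/-- split a list in two by alternating elements -/
noncomputable def splitL (l : List ℕ) : List ℕ → List ℕ → (List ℕ → List ℕ → List ℕ) → List ℕ :=
  @List.rec ℕ (fun _ => List ℕ → List ℕ → (List ℕ → List ℕ → List ℕ) → List ℕ)
    (fun a b k => k a b) (fun x _ ih a b k => ih b (x :: a) k) l

/-- merge sort (with fuel for the depth) -/
noncomputable def msort (m : ℕ) : List ℕ → List ℕ :=
  @Nat.rec (fun _ => List ℕ → List ℕ) (fun l => l)
    (fun _ ih l => splitL l [] [] (fun a b => mrg 10000 (ih a) (ih b))) m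

/-- sign of a facet (`1` or `2`) -/
noncomputable def sgF (m : ℕ) : ℕ := FT.get (mask5 (fa m) (fb m) (fc m) (fd m) (fe m))

/-- codes of the ridges of a facet with positive, resp. negative coefficient in the boundary -/
noncomputable def posR (m : ℕ) (acc : List ℕ) : List ℕ :=
  @Bool.rec (fun _ => List ℕ)
    (c4 (fa m) (fc m) (fd m) (fe m) :: c4 (fa m) (fb m) (fc m) (fe m) :: acc)
    (c4 (fb m) (fc m) (fd m) (fe m) :: c4 (fa m) (fb m) (fd m) (fe m) :: c4 (fa m) (fb m) (fc m) (fd m) :: acc)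
    (Nat.beq (sgF m) 1)
noncomputable def negR (m : ℕ) (acc : List ℕ) : List ℕ :=
  @Bool.rec (fun _ => List ℕ)
    (c4 (fb m) (fc m) (fd m) (fe m) :: c4 (fa m) (fb m) (fd m) (fe m) :: c4 (fa m) (fb m) (fc m) (fd m) :: acc)
    (c4 (fa m) (fc m) (fd m) (fe m) :: c4 (fa m) (fb m) (fc m) (fe m) :: acc)
    (Nat.beq (sgF m) 1)

noncomputable def posL (l : List ℕ) : List ℕ := @List.rec ℕ (fun _ => List ℕ) [] (fun m _ ih => posR m ih) l
noncomputable def negL (l : List ℕ) : List ℕ := @List.rec ℕ (fun _ => List ℕ) [] (fun m _ ih => negR m ih) l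

/-- the masks of the facets -/
noncomputable def maskL (l : List ℕ) : List ℕ :=
  @List.rec ℕ (fun _ => List ℕ) [] (fun m _ ih => mask5 (fa m) (fb m) (fc m) (fd m) (fe m) :: ih) l

noncomputable def lenL (l : List ℕ) : ℕ := @List.rec ℕ (fun _ => ℕ) 0 (fun _ _ ih => Nat.succ ih) l

end Pool.T4

namespace Pool.T4

/-! ### sums over the facets -/

/-- integer sum over a list -/
noncomputable def sumZ (f : ℕ → ℤ) (l : List ℕ) : ℤ :=
  @List.rec ℕ (fun _ => ℤ) 0 (fun m _ ih => Int.add (f m) ih) l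

/-- value of a digit -/
def dgI (i Y : ℕ) : ℤ := Int.sub (Int.ofNat (Nat.mod (Nat.div Y (Nat.pow 64 i)) 64)) 16

/-- sign of a facet as an integer -/
noncomputable def sgI (m : ℕ) : ℤ := @Bool.rec (fun _ => ℤ) (-1) 1 (Nat.beq (sgF m) 1)

noncomputable def degT (m : ℕ) : ℤ :=
  Int.mul (sgI m) (Int.mul (Int.mul (Int.mul (dgI 0 (XV (fa m) (fb m))) (dgI 1 (XV (fb m) (fc m))))
    (dgI 2 (XV (fc m) (fd m)))) (dgI 3 (XV (fd m) (fe m))))

/-- change of base of the digits (first `m` digits) -/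
noncomputable def repk (m B : ℕ) : ℕ → ℕ :=
  @Nat.rec (fun _ => ℕ → ℕ) (fun _ => 0)
    (fun _ ih Y => Nat.add (Nat.mod Y 64) (Nat.mul B (ih (Nat.div Y 64)))) m

/-- `2³²` -/
def C1 : ℕ := 4294967296
/-- `2⁴⁴⁸` -/
def C2 : ℕ := Nat.pow 2 448

noncomputable def grT (m : ℕ) : ℤ :=
  Int.mul (sgI m) (Int.mul
    (Int.sub (Int.ofNat (repk 14 C1 (YV (fa m) (fb m) (fc m)))) (Int.ofNat (repk 14 C1 OFF14)))
    (Int.sub (Int.ofNat (repk 14 C2 (YV (fc m) (fd m) (fe m)))) (Int.ofNat (repk 14 C2 OFF14))))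

/-- Horner value of a list of integers -/
noncomputable def hornZ (B : ℤ) (l : List ℤ) : ℤ :=
  @List.rec ℤ (fun _ => ℤ) 0 (fun a _ ih => Int.add a (Int.mul B ih)) l

/-- `∑ i j, G j i * C1^i * C2^j` (columns of the Gram matrix) -/
noncomputable def hornG (l : List (List ℤ)) : ℤ :=
  @List.rec (List ℤ) (fun _ => ℤ) 0 (fun a _ ih => Int.add (hornZ (Int.ofNat C1) a) (Int.mul (Int.ofNat C2) ih)) l

end Pool.T4

namespace Pool.T4

/-- all letters are positive -/
noncomputable def chkPos (_k p : ℕ) : Bool := allL (fun l => Nat.blt 0 l) (decW 8 (cwOf p))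

/-- consecutive vertices are joined by an edge -/
noncomputable def edgeB (u v : ℕ) : Bool :=
  andB (Nat.blt u NN) (andB (Nat.blt v NN)
    (@Bool.rec (fun _ => Bool) (@Bool.rec (fun _ => Bool) false (nz2 v u) (Nat.blt v u)) (nz2 u v) (Nat.blt u v)))

/-- the list is an edge path ending in `v` -/
noncomputable def chainB (v : ℕ) (l : List ℕ) : ℕ → Bool :=
  @List.rec ℕ (fun _ => ℕ → Bool) (fun u => Nat.beq u v) (fun w _ ih u => andB (edgeB u w) (ih w)) l

/-- the tree path of `v` -/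
noncomputable def pathOK (v : ℕ) : Bool :=
  @List.rec ℕ (fun _ => Bool) false (fun r l _ => andB (Nat.beq r root) (chainB v l r)) (pth v)

/-- signed value of the `i`-th cocycle on an ordered pair -/
noncomputable def xeI (i u v : ℕ) : ℤ :=
  @Bool.rec (fun _ => ℤ) (Int.neg (dgI i (XV v u))) (dgI i (XV u v)) (Nat.blt u v)

/-- sum along a list -/
noncomputable def sumE (i : ℕ) (l : List ℕ) : ℕ → ℤ :=
  @List.rec ℕ (fun _ => ℕ → ℤ) (fun _ => 0) (fun w _ ih u => Int.add (xeI i u w) (ih w)) l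

/-- `i`-th loop -/
noncomputable def lpth (v : ℕ) : List ℕ :=
  @List.rec (List ℕ) (fun _ => ℕ → List ℕ) (fun _ => [])
    (fun a _ ih i => @Nat.rec (fun _ => List ℕ) a (fun j _ => ih j) i) LP v

noncomputable def tailL (l : List ℕ) : List ℕ := @List.rec ℕ (fun _ => List ℕ) [] (fun _ l _ => l) l

end Pool.T4
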