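import Pool.Agent.H11.T4.Chk2

/-!
# Kernel evaluations of the checks, second part
-/

set_option maxRecDepth 100000

namespace Pool.T4

theorem kP : eqL (msort 12 (posL FC)) (msort 12 (negL FC)) = true := by decide +kernel
theorem kPi : incL (msort 12 (posL FC)) 0 = true := by decide +kernel
theorem kPl : (msort 12 (posL FC)).length = 3545 := by decide +kernel
theorem kdeg : sumZ degT FC = 2 := by decide +kernel
theorem kgr : sumZ grT FC = hornG GG := by decide +kernel
theorem kW : TW.all chkW = true := by decide +kernel
theorem kCM : allL chkCM CM = true := by decide +kernel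

end Pool.T4

namespace Pool.T4

theorem kPos : TW.all chkPos = true := by decide +kernel
theorem kPath : ∀ v : Fin 45, pathOK v = true := by decide +kernel
theorem kLoop : ∀ i : Fin 4, chainB root (tailL (lpth i)) root = true := by decide +kernel
theorem kLoopSum : ∀ i j : Fin 4, sumE j (tailL (lpth i)) root = if i = j then 1 else 0 := by
  decide +kernel
theorem kC1 : chkCM [0, 2, 6, 12, 27, 2, 1, 6, 5] = true := by decide +kernel
theorem kC2 : chkCM [0, 5, 15, 8, 36, 3, 1, 7, 5] = true := by decide +kernel
theorem kC3 : chkCM [12, 0, 34, 2, 8, 8, 1, 4, 5] = true := by decide +kernel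
theorem kC4 : chkCM [7, 2, 9, 4, 24, 2, 7, 6, 3] = true := by decide +kernel
theorem kC5 : chkCM [0, 2, 19, 6, 27, 2, 4, 6, 8] = true := by decide +kernel
theorem kC6 : chkCM [44, 1, 13, 5, 34, 3, 4, 7, 8] = true := by decide +kernel

end Pool.T4
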