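import Pool.Agent.H11.T4.Cpx
import Pool.Agent.H11.T4.Ker2

/-!
# The cocycles, the orientation and the fundamental cycle
-/

open Finset

namespace Pool.T4

open C45

attribute [local irreducible] Tr.get FC FM T2 T3 TW FT

/-- the four integral 1-cocycles -/
noncomputable def xx (i : Fin 4) (s : Fin 2 → Fin 45) : ℤ := (dg i (XV (s 0) (s 1)) : ℤ) - 16

/-- the fourteen integral 2-cocycles -/
noncomputable def yz (i : Fin 14) (s : Fin 3 → Fin 45) : ℤ := (dg i (YV (s 0) (s 1) (s 2)) : ℤ) - 16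

/-- the fourteen real 2-cocycles -/
noncomputable def yy (i : Fin 14) (s : Fin 3 → Fin 45) : ℝ := (yz i s : ℝ)

/-- the orientation -/
noncomputable def oo (s : Fin 5 → Fin 45) : ℤ :=
  if FT.get (mask5 (s 0) (s 1) (s 2) (s 3) (s 4)) = 1 then 1 else -1

theorem simp_face {k : ℕ} {s : Fin (k + 2) → Fin 45} (hs : s ∈ simp KK (k + 1)) (i : Fin (k + 2)) :
    s ∘ i.succAbove ∈ simp KK k := by
  obtain ⟨c, hc, j, hj, rfl⟩ := mem_simpKK.1 hs
  exact mem_simpKK.2 ⟨c, hc, j ∘ i.succAbove, hj.comp i.strictMono_succAbove, rfl⟩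

theorem f3_0 {n : ℕ} (s : Fin 3 → Fin n) : s ∘ (0 : Fin 3).succAbove = ![s 1, s 2] := by
  funext k; fin_cases k <;> rfl
theorem f3_1 {n : ℕ} (s : Fin 3 → Fin n) : s ∘ (1 : Fin 3).succAbove = ![s 0, s 2] := by
  funext k; fin_cases k <;> rfl
theorem f3_2 {n : ℕ} (s : Fin 3 → Fin n) : s ∘ (2 : Fin 3).succAbove = ![s 0, s 1] := by
  funext k; fin_cases k <;> rfl
theorem f4_0 {n : ℕ} (s : Fin 4 → Fin n) : s ∘ (0 : Fin 4).succAbove = ![s 1, s 2, s 3] := by
  funext k; fin_cases k <;> rfl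
theorem f4_1 {n : ℕ} (s : Fin 4 → Fin n) : s ∘ (1 : Fin 4).succAbove = ![s 0, s 2, s 3] := by
  funext k; fin_cases k <;> rfl
theorem f4_2 {n : ℕ} (s : Fin 4 → Fin n) : s ∘ (2 : Fin 4).succAbove = ![s 0, s 1, s 3] := by
  funext k; fin_cases k <;> rfl
theorem f4_3 {n : ℕ} (s : Fin 4 → Fin n) : s ∘ (3 : Fin 4).succAbove = ![s 0, s 1, s 2] := by
  funext k; fin_cases k <;> rfl

theorem nz2_of {u v : Fin 45} (h : ![u, v] ∈ simp KK 1) : T2.get (c2 u v) ≠ 0 := by
  have h1 := simp1_nz h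
  rw [Matrix.cons_val_zero, Matrix.cons_val_one, Matrix.cons_val_zero] at h1
  exact h1

theorem nz3_of {a b c : Fin 45} (h : ![a, b, c] ∈ simp KK 2) : T3.get (c3 a b c) ≠ 0 := by
  have h1 := simp2_nz h
  have e2 : (![a, b, c] : Fin 3 → Fin 45) 2 = c := rfl
  rw [Matrix.cons_val_zero, Matrix.cons_val_one, Matrix.cons_val_zero, e2] at h1
  exact h1

theorem dg_OFF4 (i : Fin 4) : dg i OFF4 = 16 := by
  fin_cases i <;> decide

theorem dg_OFF4' (i : ℕ) (hi : i < 4) : dg i OFF4 = 16 := dg_OFF4 ⟨i, hi⟩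

theorem xx_rel {s : Fin 3 → Fin 45} (hs : s ∈ simp KK 2) (i : Fin 4) :
    xx i ![s 1, s 2] + xx i ![s 0, s 1] = xx i ![s 0, s 2] := by
  have h12 : T2.get (c2 (s 1) (s 2)) ≠ 0 := nz2_of (by rw [← f3_0]; exact simp_face hs 0)
  have h01 : T2.get (c2 (s 0) (s 1)) ≠ 0 := nz2_of (by rw [← f3_2]; exact simp_face hs 2)
  have h02 : T2.get (c2 (s 0) (s 2)) ≠ 0 := nz2_of (by rw [← f3_1]; exact simp_face hs 1)
  have e12 := XV_digits (by omega) h12
  have e01 := XV_digits (by omega) h01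
  have e02 := XV_digits (by omega) h02
  have hi := i.2
  have hrel := simp2_rel hs
  have h1 := dg_add i _ _ (fun j hj => e12 j (by omega)) (fun j hj => e01 j (by omega))
  have h2 := dg_add i _ OFF4 (fun j hj => e02 j (by omega))
    (fun j hj => by rw [dg_OFF4' j (by omega)]; norm_num)
  rw [hrel, h2, dg_OFF4] at h1
  show ((dg i (XV (s 1) (s 2)) : ℤ) - 16) + ((dg i (XV (s 0) (s 1)) : ℤ) - 16) =
    (dg i (XV (s 0) (s 2)) : ℤ) - 16
  omega

theorem xx_cocycle (i : Fin 4) : IsCocycle (k := 1) KK (xx i) := by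
  intro s hs
  have h := xx_rel hs i
  have h1 : cobd (k := 1) (xx i) s = ∑ j : Fin 3, (-1 : ℤ) ^ (j : ℕ) * xx i (s ∘ j.succAbove) := rfl
  rw [h1, Fin.sum_univ_three]
  rw [f3_0, f3_1, f3_2]
  simp only [Fin.val_zero, pow_zero, one_mul, Fin.val_one, pow_one, Fin.val_two, neg_mul, neg_one_sq]
  linarith

theorem yz_rel {s : Fin 4 → Fin 45} (hs : s ∈ simp KK 3) (i : Fin 14) :
    yz i ![s 1, s 2, s 3] + yz i ![s 0, s 1, s 3] = yz i ![s 0, s 2, s 3] + yz i ![s 0, s 1, s 2] := by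
  have h0 : T3.get (c3 (s 1) (s 2) (s 3)) ≠ 0 := nz3_of (by rw [← f4_0]; exact simp_face hs 0)
  have h1 : T3.get (c3 (s 0) (s 2) (s 3)) ≠ 0 := nz3_of (by rw [← f4_1]; exact simp_face hs 1)
  have h2 : T3.get (c3 (s 0) (s 1) (s 3)) ≠ 0 := nz3_of (by rw [← f4_2]; exact simp_face hs 2)
  have h3 : T3.get (c3 (s 0) (s 1) (s 2)) ≠ 0 := nz3_of (by rw [← f4_3]; exact simp_face hs 3)
  have e0 := YV_digits (by omega) (by omega) h0
  have e1 := YV_digits (by omega) (by omega) h1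
  have e2 := YV_digits (by omega) (by omega) h2
  have e3 := YV_digits (by omega) (by omega) h3
  have hi := i.2
  have hrel := simp3_rel hs
  have f1 := dg_add i _ _ (fun j hj => e0 j (by omega)) (fun j hj => e2 j (by omega))
  have f2 := dg_add i _ _ (fun j hj => e1 j (by omega)) (fun j hj => e3 j (by omega))
  rw [hrel, f2] at f1
  show ((dg i (YV (s 1) (s 2) (s 3)) : ℤ) - 16) + ((dg i (YV (s 0) (s 1) (s 3)) : ℤ) - 16) =
    ((dg i (YV (s 0) (s 2) (s 3)) : ℤ) - 16) + ((dg i (YV (s 0) (s 1) (s 2)) : ℤ) - 16)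
  omega

theorem yy_cocycle (i : Fin 14) : IsCocycle (k := 2) KK (yy i) := by
  intro s hs
  have h := yz_rel hs i
  have h1 : cobd (k := 2) (yy i) s = ∑ j : Fin 4, (-1 : ℝ) ^ (j : ℕ) * yy i (s ∘ j.succAbove) := rfl
  rw [h1, Fin.sum_univ_four]
  rw [f4_0, f4_1, f4_2, f4_3]
  have h' : yy i ![s 1, s 2, s 3] + yy i ![s 0, s 1, s 3] = yy i ![s 0, s 2, s 3] + yy i ![s 0, s 1, s 2] := by
    unfold yy
    exact_mod_cast h
  have e3 : ((3 : Fin 4) : ℕ) = 3 := rfl
  have e2 : ((2 : Fin 4) : ℕ) = 2 := rfl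
  have e1 : ((1 : Fin 4) : ℕ) = 1 := rfl
  have e0 : ((0 : Fin 4) : ℕ) = 0 := rfl
  rw [e0, e1, e2, e3]
  linarith

/-! ### sums over the facets -/

theorem mask_T5 {c : ℕ} (hc : c ∈ FC) :
    mask5 (T5 c 0) (T5 c 1) (T5 c 2) (T5 c 3) (T5 c 4) = mask5 (fa c) (fb c) (fc c) (fd c) (fe c) := by
  rw [val_T5 hc, val_T5 hc, val_T5 hc, val_T5 hc, val_T5 hc]
  rfl

theorem FC_T5_nodup : (FC.map T5).Nodup := by
  have h1 : FM.Nodup := incL_nodup kFM
  rw [maskL_eq] at h1
  have h2 : FC.map (fun m => mask5 (fa m) (fb m) (fc m) (fd m) (fe m)) =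
      (FC.map T5).map (fun s => mask5 (s 0) (s 1) (s 2) (s 3) (s 4)) := by
    rw [List.map_map]
    apply List.map_congr_left
    intro c hc
    exact (mask_T5 hc).symm
  rw [h2] at h1
  exact h1.of_map _

theorem simp4_eq : simp KK 4 = (FC.map T5).toFinset := by
  ext s
  rw [List.mem_toFinset, List.mem_map, mem_simp4]
  constructor
  · rintro ⟨c, hc, rfl⟩; exact ⟨c, hc, rfl⟩
  · rintro ⟨c, hc, rfl⟩; exact ⟨c, hc, rfl⟩

theorem sum_simp4 {M : Type*} [AddCommMonoid M] (F : (Fin 5 → Fin 45) → M) :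
    ∑ s ∈ simp KK 4, F s = (FC.map (fun c => F (T5 c))).sum := by
  rw [simp4_eq, List.sum_toFinset F FC_T5_nodup, List.map_map]
  rfl

theorem card_simp4 : (simp KK 4).card = 1418 := by
  rw [simp4_eq, List.toFinset_card_of_nodup FC_T5_nodup, List.length_map, kLen]

theorem sgF_T5 {c : ℕ} (hc : c ∈ FC) : oo (T5 c) = sgI c := by
  unfold oo sgI
  rw [mask_T5 hc]
  show (if sgF c = 1 then (1 : ℤ) else -1) = @Bool.rec (fun _ => ℤ) (-1) 1 (Nat.beq (sgF c) 1)
  cases h : Nat.beq (sgF c) 1 with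
  | true => rw [if_pos (Nat.eq_of_beq_eq_true h)]
  | false =>
    rw [if_neg (fun h' => by rw [h'] at h; exact absurd h (by decide))]

theorem oo_pm (s : Fin 5 → Fin 45) : oo s = 1 ∨ oo s = -1 := by
  unfold oo
  split_ifs
  · exact Or.inl rfl
  · exact Or.inr rfl

/-! ### merge sort -/

theorem mrg_perm : ∀ (m : ℕ) (a b : List ℕ), (mrg m a b).Perm (a ++ b) := by
  intro m
  induction m with
  | zero => intro a b; exact List.Perm.refl _
  | succ m ih =>
    intro a b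
    cases a with
    | nil => exact List.Perm.refl _
    | cons x a =>
      cases b with
      | nil =>
        show (x :: a).Perm (x :: a ++ [])
        rw [List.append_nil]
      | cons y b =>
        show (@Bool.rec (fun _ => List ℕ) (x :: mrg m a (y :: b)) (y :: mrg m (x :: a) b) (Nat.blt y x)).Perm _
        cases Nat.blt y x with
        | false => exact (ih a (y :: b)).cons x
        | true =>
          have h1 : (y :: mrg m (x :: a) b).Perm (y :: (x :: a ++ b)) := (ih (x :: a) b).cons y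
          exact h1.trans List.perm_middle.symm

theorem splitL_perm (k : List ℕ → List ℕ → List ℕ) : ∀ (l a b : List ℕ),
    (∀ a' b', (k a' b').Perm (a' ++ b')) → (splitL l a b k).Perm (l ++ (a ++ b)) := by
  intro l
  induction l with
  | nil => intro a b hk; exact hk a b
  | cons x l ih =>
    intro a b hk
    show (splitL l b (x :: a) k).Perm _
    refine (ih b (x :: a) hk).trans ?_
    have h1 : (l ++ (b ++ x :: a)).Perm (l ++ (x :: a ++ b)) := List.Perm.append_left l List.perm_append_comm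
    exact h1.trans (by
      show (l ++ (x :: (a ++ b))).Perm (x :: (l ++ (a ++ b)))
      exact List.perm_middle)

theorem msort_perm : ∀ (m : ℕ) (l : List ℕ), (msort m l).Perm l := by
  intro m
  induction m with
  | zero => intro l; exact List.Perm.refl _
  | succ m ih =>
    intro l
    show (splitL l [] [] (fun a b => mrg 10000 (msort m a) (msort m b))).Perm l
    have := splitL_perm (fun a b => mrg 10000 (msort m a) (msort m b)) l [] []
      (fun a b => (mrg_perm _ _ _).trans ((ih a).append (ih b)))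
    simpa using this

/-! ### the fundamental cycle -/

/-- the 3-simplex of a code -/
def T4c (m : ℕ) : Fin 4 → Fin 45 :=
  ![vt (m / 262144), vt (m / 4096 % 64), vt (m / 64 % 64), vt (m % 64)]

theorem T4c_c4 {a b c d : ℕ} (hb : b < 64) (hc : c < 64) (hd : d < 64) :
    T4c (c4 a b c d) = ![vt a, vt b, vt c, vt d] := by
  have e : c4 a b c d = ((a * 64 + b) * 64 + c) * 64 + d := rfl
  unfold T4c
  rw [e]
  have h1 : (((a * 64 + b) * 64 + c) * 64 + d) / 262144 = a := by omega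
  have h2 : (((a * 64 + b) * 64 + c) * 64 + d) / 4096 % 64 = b := by omega
  have h3 : (((a * 64 + b) * 64 + c) * 64 + d) / 64 % 64 = c := by omega
  have h4 : (((a * 64 + b) * 64 + c) * 64 + d) % 64 = d := by omega
  rw [h1, h2, h3, h4]

theorem facet_lt {c : ℕ} (hc : c ∈ FC) : fa c < 64 ∧ fb c < 64 ∧ fc c < 64 ∧ fd c < 64 ∧ fe c < 64 := by
  have h := (v5_lt hc).2
  have h0 : fa c < 45 := h 0
  have h1 : fb c < 45 := h 1
  have h2 : fc c < 45 := h 2
  have h3 : fd c < 45 := h 3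
  have h4 : fe c < 45 := h 4
  omega

theorem cobd_T5 (f : (Fin 4 → Fin 45) → ℤ) {c : ℕ} (hc : c ∈ FC) :
    cobd (k := 3) f (T5 c) =
      f (T4c (c4 (fb c) (fc c) (fd c) (fe c))) - f (T4c (c4 (fa c) (fc c) (fd c) (fe c))) +
      f (T4c (c4 (fa c) (fb c) (fd c) (fe c))) - f (T4c (c4 (fa c) (fb c) (fc c) (fe c))) +
      f (T4c (c4 (fa c) (fb c) (fc c) (fd c))) := by
  obtain ⟨h0, h1, h2, h3, h4⟩ := facet_lt hc
  rw [T4c_c4 h2 h3 h4, T4c_c4 h2 h3 h4, T4c_c4 h1 h3 h4, T4c_c4 h1 h2 h4, T4c_c4 h1 h2 h3]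
  have h : cobd (k := 3) f (T5 c) = ∑ j : Fin 5, (-1 : ℤ) ^ (j : ℕ) * f (T5 c ∘ j.succAbove) := rfl
  rw [h, Fin.sum_univ_five]
  have a0 : T5 c ∘ (0 : Fin 5).succAbove = ![vt (fb c), vt (fc c), vt (fd c), vt (fe c)] := by
    funext k; fin_cases k <;> rfl
  have a1 : T5 c ∘ (1 : Fin 5).succAbove = ![vt (fa c), vt (fc c), vt (fd c), vt (fe c)] := by
    funext k; fin_cases k <;> rfl
  have a2 : T5 c ∘ (2 : Fin 5).succAbove = ![vt (fa c), vt (fb c), vt (fd c), vt (fe c)] := by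
    funext k; fin_cases k <;> rfl
  have a3 : T5 c ∘ (3 : Fin 5).succAbove = ![vt (fa c), vt (fb c), vt (fc c), vt (fe c)] := by
    funext k; fin_cases k <;> rfl
  have a4 : T5 c ∘ (4 : Fin 5).succAbove = ![vt (fa c), vt (fb c), vt (fc c), vt (fd c)] := by
    funext k; fin_cases k <;> rfl
  rw [a0, a1, a2, a3, a4]
  have e4 : ((4 : Fin 5) : ℕ) = 4 := rfl
  have e3 : ((3 : Fin 5) : ℕ) = 3 := rfl
  have e2 : ((2 : Fin 5) : ℕ) = 2 := rfl
  have e1 : ((1 : Fin 5) : ℕ) = 1 := rfl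
  have e0 : ((0 : Fin 5) : ℕ) = 0 := rfl
  rw [e0, e1, e2, e3, e4]
  ring

theorem sum_posneg (f : ℕ → ℤ) : ∀ l : List ℕ,
    ((posL l).map f).sum - ((negL l).map f).sum =
    (l.map (fun c => sgI c * (f (c4 (fb c) (fc c) (fd c) (fe c)) - f (c4 (fa c) (fc c) (fd c) (fe c)) +
      f (c4 (fa c) (fb c) (fd c) (fe c)) - f (c4 (fa c) (fb c) (fc c) (fe c)) +
      f (c4 (fa c) (fb c) (fc c) (fd c))))).sum := by
  intro l
  induction l with
  | nil => rfl
  | cons c l ih =>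
    have hp : posL (c :: l) = posR c (posL l) := rfl
    have hn : negL (c :: l) = negR c (negL l) := rfl
    rw [hp, hn, List.map_cons, List.sum_cons, ← ih]
    have h1 : posR c (posL l) = @Bool.rec (fun _ => List ℕ)
      (c4 (fa c) (fc c) (fd c) (fe c) :: c4 (fa c) (fb c) (fc c) (fe c) :: posL l)
      (c4 (fb c) (fc c) (fd c) (fe c) :: c4 (fa c) (fb c) (fd c) (fe c) :: c4 (fa c) (fb c) (fc c) (fd c) :: posL l)
      (Nat.beq (sgF c) 1) := rfl
    have h2 : negR c (negL l) = @Bool.rec (fun _ => List ℕ)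
      (c4 (fb c) (fc c) (fd c) (fe c) :: c4 (fa c) (fb c) (fd c) (fe c) :: c4 (fa c) (fb c) (fc c) (fd c) :: negL l)
      (c4 (fa c) (fc c) (fd c) (fe c) :: c4 (fa c) (fb c) (fc c) (fe c) :: negL l)
      (Nat.beq (sgF c) 1) := rfl
    have h3 : sgI c = @Bool.rec (fun _ => ℤ) (-1) 1 (Nat.beq (sgF c) 1) := rfl
    rw [h1, h2, h3]
    cases Nat.beq (sgF c) 1 with
    | false =>
      simp only [List.map_cons, List.sum_cons]
      ring
    | true =>
      simp only [List.map_cons, List.sum_cons]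
      ring

attribute [local irreducible] msort posL negL eqL

theorem pos_perm_neg : (posL FC).Perm (negL FC) :=
  (msort_perm 12 _).symm.trans ((eqL_spec _ _ kP) ▸ msort_perm 12 (negL FC))

theorem fundCycle : IsFundCycle KK oo := by
  refine ⟨fun s _ => oo_pm s, fun f => ?_⟩
  rw [sum_simp4]
  obtain ⟨g, hg⟩ : ∃ g : ℕ → ℤ, ∀ m, g m = f (T4c m) := ⟨fun m => f (T4c m), fun _ => rfl⟩
  have h1 : (FC.map (fun c => oo (T5 c) * cobd (k := 3) f (T5 c))) =
      FC.map (fun c => sgI c * (g (c4 (fb c) (fc c) (fd c) (fe c)) - g (c4 (fa c) (fc c) (fd c) (fe c)) +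
      g (c4 (fa c) (fb c) (fd c) (fe c)) - g (c4 (fa c) (fb c) (fc c) (fe c)) +
      g (c4 (fa c) (fb c) (fc c) (fd c)))) := by
    apply List.map_congr_left
    intro c hc
    rw [sgF_T5 hc, cobd_T5 f hc, hg, hg, hg, hg, hg]
  rw [h1, ← sum_posneg]
  have h2 := (pos_perm_neg.map g).sum_eq
  rw [h2, sub_self]

end Pool.T4
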