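import Mathlib

/-!
# Kernel-friendly search trees and digit lemmas
-/

namespace Pool.T4

/-- binary trees with keys and payloads -/
inductive Tr
  | nil
  | node (l : Tr) (k p : ℕ) (r : Tr)

/-- look up a key (`0` if not found) -/
noncomputable def Tr.get (t : Tr) (x : ℕ) : ℕ :=
  @Tr.rec (fun _ => ℕ) 0 (fun _ k p _ gl gr =>
    @Bool.rec (fun _ => ℕ) (@Bool.rec (fun _ => ℕ) gr p (Nat.beq x k)) gl (Nat.blt x k)) t

/-- all entries satisfy `f` -/
noncomputable def Tr.all (f : ℕ → ℕ → Bool) (t : Tr) : Bool :=
  @Tr.rec (fun _ => Bool) true (fun _ k p _ gl gr =>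
    @Bool.rec (fun _ => Bool) false (@Bool.rec (fun _ => Bool) false gr (f k p)) gl) t

/-- all entries, in order -/
def Tr.toList : Tr → List (ℕ × ℕ)
  | .nil => []
  | .node l k p r => l.toList ++ (k, p) :: r.toList

/-- keys in order, with accumulator -/
noncomputable def Tr.keysA (t : Tr) : List ℕ → List ℕ :=
  @Tr.rec (fun _ => List ℕ → List ℕ) (fun acc => acc) (fun _ k _ _ gl gr acc => gl (k :: gr acc)) t

theorem Tr.get_node (l : Tr) (k p : ℕ) (r : Tr) (x : ℕ) :
    (Tr.node l k p r).get x = if Nat.blt x k then l.get x else if Nat.beq x k then p else r.get x := by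
  show @Bool.rec (fun _ => ℕ) (@Bool.rec (fun _ => ℕ) (r.get x) p (Nat.beq x k)) (l.get x) (Nat.blt x k) = _
  cases Nat.blt x k <;> cases Nat.beq x k <;> rfl

theorem Tr.get_mem (t : Tr) (x : ℕ) (h : t.get x ≠ 0) : (x, t.get x) ∈ t.toList := by
  induction t with
  | nil => exact absurd rfl h
  | node l k p r ihl ihr =>
    rw [Tr.get_node] at h ⊢
    rw [Tr.toList]
    split_ifs at h ⊢ with h1 h2
    · exact List.mem_append_left _ (ihl h)
    · have : x = k := Nat.eq_of_beq_eq_true h2
      subst this
      exact List.mem_append_right _ List.mem_cons_self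
    · exact List.mem_append_right _ (List.mem_cons_of_mem _ (ihr h))

theorem Tr.all_node (f : ℕ → ℕ → Bool) (l : Tr) (k p : ℕ) (r : Tr) :
    (Tr.node l k p r).all f = (l.all f && (f k p && r.all f)) := by
  show @Bool.rec (fun _ => Bool) false (@Bool.rec (fun _ => Bool) false (r.all f) (f k p)) (l.all f) = _
  cases l.all f <;> cases f k p <;> rfl

theorem Tr.all_spec (f : ℕ → ℕ → Bool) (t : Tr) (h : t.all f = true) :
    ∀ a ∈ t.toList, f a.1 a.2 = true := by
  induction t with
  | nil => simp [Tr.toList]
  | node l k p r ihl ihr =>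
    rw [Tr.all_node, Bool.and_eq_true, Bool.and_eq_true] at h
    intro a ha
    rw [Tr.toList, List.mem_append, List.mem_cons] at ha
    rcases ha with ha | rfl | ha
    · exact ihl h.1 a ha
    · exact h.2.1
    · exact ihr h.2.2 a ha

theorem Tr.get_all {f : ℕ → ℕ → Bool} {t : Tr} (h : t.all f = true) {x : ℕ} (hx : t.get x ≠ 0) :
    f x (t.get x) = true := t.all_spec f h _ (t.get_mem x hx)

theorem Tr.keysA_eq (t : Tr) (acc : List ℕ) : t.keysA acc = t.toList.map Prod.fst ++ acc := by
  induction t generalizing acc with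
  | nil => rfl
  | node l k p r ihl ihr =>
    show l.keysA (k :: r.keysA acc) = _
    rw [ihr, ihl, Tr.toList]
    simp

theorem Tr.get_mem_keys (t : Tr) (x : ℕ) (h : t.get x ≠ 0) : x ∈ t.keysA [] := by
  rw [Tr.keysA_eq, List.append_nil]
  exact List.mem_map.2 ⟨_, t.get_mem x h, rfl⟩

/-- entries with key in `keysA []` satisfy `all`-properties -/
theorem Tr.keys_all {f : ℕ → ℕ → Bool} {t : Tr} (h : t.all f = true) {x : ℕ} (hx : x ∈ t.keysA []) :
    ∃ p, f x p = true := by
  rw [Tr.keysA_eq, List.append_nil] at hx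
  obtain ⟨a, ha, rfl⟩ := List.mem_map.1 hx
  exact ⟨a.2, t.all_spec f h a ha⟩

/-- boolean equality of lists of naturals -/
noncomputable def eqL (l : List ℕ) : List ℕ → Bool :=
  @List.rec ℕ (fun _ => List ℕ → Bool)
    (fun m => @List.rec ℕ (fun _ => Bool) true (fun _ _ _ => false) m)
    (fun a _ ih m => @List.rec ℕ (fun _ => Bool) false
      (fun b m' _ => @Bool.rec (fun _ => Bool) false (ih m') (Nat.beq a b)) m) l

theorem eqL_spec : ∀ (l m : List ℕ), eqL l m = true → l = m := by
  intro l
  induction l with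
  | nil =>
    intro m h
    cases m with
    | nil => rfl
    | cons b m => exact absurd h (by show ¬ (false = true); simp)
  | cons a l ih =>
    intro m h
    cases m with
    | nil => exact absurd h (by show ¬ (false = true); simp)
    | cons b m =>
      have h' : @Bool.rec (fun _ => Bool) false (eqL l m) (Nat.beq a b) = true := h
      cases hb : Nat.beq a b with
      | false => rw [hb] at h'; exact absurd h' (by simp)
      | true =>
        rw [hb] at h'
        rw [Nat.eq_of_beq_eq_true hb, ih m h']

/-- strictly increasing -/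
noncomputable def incL (l : List ℕ) : ℕ → Bool :=
  @List.rec ℕ (fun _ => ℕ → Bool) (fun _ => true)
    (fun a _ ih x => @Bool.rec (fun _ => Bool) false (ih (a + 1)) (Nat.ble x a)) l

theorem incL_spec : ∀ (l : List ℕ) (x : ℕ), incL l x = true → l.Pairwise (· < ·) ∧ ∀ a ∈ l, x ≤ a := by
  intro l
  induction l with
  | nil => intro x _; simp
  | cons a l ih =>
    intro x h
    have h' : @Bool.rec (fun _ => Bool) false (incL l (a + 1)) (Nat.ble x a) = true := h
    cases hb : Nat.ble x a with
    | false => rw [hb] at h'; exact absurd h' (by simp)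
    | true =>
      rw [hb] at h'
      obtain ⟨h1, h2⟩ := ih _ h'
      have hxa := Nat.le_of_ble_eq_true hb
      refine ⟨List.pairwise_cons.2 ⟨fun b hb => h2 b hb, h1⟩, fun b hb => ?_⟩
      rcases List.mem_cons.1 hb with rfl | hb
      · exact hxa
      · exact hxa.trans ((Nat.le_succ a).trans (h2 b hb))

theorem incL_nodup {l : List ℕ} {x : ℕ} (h : incL l x = true) : l.Nodup :=
  (incL_spec l x h).1.imp (fun h => ne_of_lt h)

/-- `∀` over a list -/
noncomputable def allL {α : Type} (f : α → Bool) (l : List α) : Bool :=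
  @List.rec α (fun _ => Bool) true (fun a _ ih => @Bool.rec (fun _ => Bool) false ih (f a)) l

theorem allL_spec {α : Type} {f : α → Bool} {l : List α} (h : allL f l = true) : ∀ a ∈ l, f a = true := by
  induction l with
  | nil => simp
  | cons a l ih =>
    have h' : @Bool.rec (fun _ => Bool) false (allL f l) (f a) = true := h
    cases hb : f a with
    | false => rw [hb] at h'; exact absurd h' (by simp)
    | true =>
      rw [hb] at h'
      intro b hb'
      rcases List.mem_cons.1 hb' with rfl | hb'
      · exact hb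
      · exact ih h' b hb'

/-! ### digits in base 64 -/

/-- the `i`-th digit in base 64 -/
def dg (i Y : ℕ) : ℕ := Y / 64 ^ i % 64

theorem dg_zero (Y : ℕ) : dg 0 Y = Y % 64 := by simp [dg]

theorem dg_succ (i Y : ℕ) : dg (i + 1) Y = dg i (Y / 64) := by
  unfold dg
  rw [pow_succ', Nat.div_div_eq_div_mul]

/-- digits without carry -/
theorem dg_add (i a b : ℕ) (ha : ∀ j ≤ i, dg j a < 32) (hb : ∀ j ≤ i, dg j b < 32) :
    dg i (a + b) = dg i a + dg i b := by
  induction i generalizing a b with
  | zero =>
    have h1 := ha 0 le_rfl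
    have h2 := hb 0 le_rfl
    rw [dg_zero] at *
    rw [dg_zero, dg_zero]
    omega
  | succ i ih =>
    have h1 := ha 0 (Nat.zero_le _)
    have h2 := hb 0 (Nat.zero_le _)
    rw [dg_zero] at h1 h2
    rw [dg_succ, dg_succ, dg_succ]
    have h3 : (a + b) / 64 = a / 64 + b / 64 := by omega
    rw [h3]
    exact ih _ _ (fun j hj => by rw [← dg_succ]; exact ha _ (by omega))
      (fun j hj => by rw [← dg_succ]; exact hb _ (by omega))

/-- all of the first `m` digits are `< 32` -/
noncomputable def digOK (m : ℕ) : ℕ → Bool :=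
  @Nat.rec (fun _ => ℕ → Bool) (fun _ => true)
    (fun _ ih Y => @Bool.rec (fun _ => Bool) false (ih (Nat.div Y 64)) (Nat.blt (Nat.mod Y 64) 32)) m

theorem digOK_spec : ∀ (m Y : ℕ), digOK m Y = true → ∀ i < m, dg i Y < 32 := by
  intro m
  induction m with
  | zero => intro Y _ i hi; exact absurd hi (Nat.not_lt_zero i)
  | succ m ih =>
    intro Y h i hi
    have h' : @Bool.rec (fun _ => Bool) false (digOK m (Nat.div Y 64)) (Nat.blt (Nat.mod Y 64) 32) = true := h
    cases hb : Nat.blt (Nat.mod Y 64) 32 with
    | false => rw [hb] at h'; exact absurd h' (by simp)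
    | true =>
      rw [hb] at h'
      have h32 : Y % 64 < 32 := by
        have : Nat.mod Y 64 < 32 := by simpa using hb
        exact this
      cases i with
      | zero => rw [dg_zero]; exact h32
      | succ i => rw [dg_succ]; exact ih _ h' i (by omega)

end Pool.T4
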