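import Pool.Agent.H11.T4.Red
import Pool.Agent.H11.T4.Tre

/-!
# Links of vertices as lists of masks
-/

namespace Pool.T4

/-- masks of the link of the vertex with mask `p = 2^v` -/
noncomputable def linkM (p : ℕ) (l : List ℕ) : List ℕ :=
  @List.rec ℕ (fun _ => List ℕ) []
    (fun m _ ih => @Bool.rec (fun _ => List ℕ) ih (Nat.xor m p :: ih) (Nat.beq (Nat.land p m) p)) l

theorem reduces_of_data {n S p : ℕ} {FM L0 : List ℕ} {F : List (ℕ × ℕ × List ℕ)}
    (h1 : eqL (linkM p FM) L0 = true) (h2 : run n S F L0 = true) (h3 : Nat.blt S (2 ^ n) = true)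
    (h4 : (bitsF n S).card = 5) : Reduces (fam n (linkM p FM)) := by
  rw [eqL_spec _ _ h1]
  exact reduces_of_run (by simpa using h3) h4 F L0 h2

theorem linkM_cons (p m : ℕ) (l : List ℕ) :
    linkM p (m :: l) = if Nat.beq (Nat.land p m) p then Nat.xor m p :: linkM p l else linkM p l := by
  show @Bool.rec (fun _ => List ℕ) (linkM p l) (Nat.xor m p :: linkM p l) (Nat.beq (Nat.land p m) p) = _
  cases Nat.beq (Nat.land p m) p <;> rfl

theorem mem_linkM {p : ℕ} {l : List ℕ} {x : ℕ} :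
    x ∈ linkM p l ↔ ∃ m ∈ l, Nat.land p m = p ∧ x = Nat.xor m p := by
  induction l with
  | nil => simp [linkM]
  | cons m l ih =>
    rw [linkM_cons]
    split_ifs with h
    · have h' := Nat.eq_of_beq_eq_true h
      rw [List.mem_cons, ih]
      constructor
      · rintro (rfl | ⟨m', hm', h2⟩)
        · exact ⟨m, List.mem_cons_self, h', rfl⟩
        · exact ⟨m', List.mem_cons_of_mem _ hm', h2⟩
      · rintro ⟨m', hm', h2, h3⟩
        rcases List.mem_cons.1 hm' with rfl | hm'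
        · exact Or.inl h3
        · exact Or.inr ⟨m', hm', h2, h3⟩
    · rw [ih]
      constructor
      · rintro ⟨m', hm', h2⟩
        exact ⟨m', List.mem_cons_of_mem _ hm', h2⟩
      · rintro ⟨m', hm', h2, h3⟩
        rcases List.mem_cons.1 hm' with rfl | hm'
        · rw [h2] at h; exact absurd (Nat.beq_refl p) h
        · exact ⟨m', hm', h2, h3⟩

/-- the complex generated by a list of masks that covers all vertices -/
def ofMasks (n : ℕ) (FM : List ℕ) (h : ∀ v : Fin n, ∃ m ∈ FM, m.testBit v = true) : Cx n where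
  faces := {s | s.Nonempty ∧ ∃ m ∈ FM, s ⊆ bitsF n m}
  isRelLowerSet_faces := by
    rintro s ⟨hs, m, hm, hsm⟩
    exact ⟨hs, fun t hts ht => ⟨ht, m, hm, hts.trans hsm⟩⟩
  singleton_mem := by
    intro v
    obtain ⟨m, hm, hv⟩ := h v
    exact ⟨Finset.singleton_nonempty v, m, hm, by rw [Finset.singleton_subset_iff]; exact mem_bitsF.2 hv⟩

theorem mem_ofMasks {n : ℕ} {FM : List ℕ} {h : ∀ v : Fin n, ∃ m ∈ FM, m.testBit v = true}
    {s : Finset (Fin n)} : s ∈ (ofMasks n FM h).faces ↔ s.Nonempty ∧ ∃ m ∈ FM, s ⊆ bitsF n m := Iff.rfl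

theorem land_two_pow {v m : ℕ} : Nat.land (2 ^ v) m = 2 ^ v ↔ m.testBit v = true := by
  show 2 ^ v &&& m = 2 ^ v ↔ _
  constructor
  · intro h
    have h1 : (2 ^ v &&& m).testBit v = (2 ^ v).testBit v := by rw [h]
    rw [Nat.testBit_and, Nat.testBit_two_pow] at h1
    simpa using h1
  · intro h
    apply Nat.eq_of_testBit_eq
    intro i
    rw [Nat.testBit_and, Nat.testBit_two_pow]
    by_cases hi : v = i
    · subst hi; simp [h]
    · simp [hi]

theorem link_ofMasks {n : ℕ} {FM : List ℕ} (h : ∀ v : Fin n, ∃ m ∈ FM, m.testBit v = true) (v : Fin n) :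
    link (ofMasks n FM h) v = fam n (linkM (2 ^ (v : ℕ)) FM) := by
  ext s
  constructor
  · rintro ⟨hv, -, m, hm, hsm⟩
    have hvm : m.testBit v = true := mem_bitsF.1 (hsm (Finset.mem_insert_self v s))
    refine ⟨Nat.xor m (2 ^ (v : ℕ)), mem_linkM.2 ⟨m, hm, land_two_pow.2 hvm, rfl⟩, fun w hw => ?_⟩
    rw [mem_bitsF]
    show (m ^^^ 2 ^ (v : ℕ)).testBit w = true
    rw [Nat.testBit_xor, Nat.testBit_two_pow, mem_bitsF.1 (hsm (Finset.mem_insert_of_mem hw))]
    have : (v : ℕ) ≠ w := fun h => hv (by rw [Fin.ext h]; exact hw)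
    simp [this]
  · rintro ⟨m', hm', hs⟩
    obtain ⟨m, hm, hvm, rfl⟩ := mem_linkM.1 hm'
    rw [land_two_pow] at hvm
    have hb : ∀ w : Fin n, (Nat.xor m (2 ^ (v : ℕ))).testBit w = true → m.testBit w = true ∧ v ≠ w := by
      intro w hw
      have hw' : (m ^^^ 2 ^ (v : ℕ)).testBit w = true := hw
      rw [Nat.testBit_xor, Nat.testBit_two_pow] at hw'
      by_cases hvw : (v : ℕ) = w
      · rw [← hvw, hvm] at hw'
        simp at hw'
      · rw [decide_eq_false hvw] at hw'
        exact ⟨by simpa using hw', fun h => hvw (congrArg Fin.val h)⟩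
    refine ⟨fun hv => (hb v (mem_bitsF.1 (hs hv))).2 rfl, Finset.insert_nonempty v s, m, hm, fun w hw => ?_⟩
    rcases Finset.mem_insert.1 hw with rfl | hw
    · exact mem_bitsF.2 hvm
    · exact mem_bitsF.2 (hb w (mem_bitsF.1 (hs hw))).1

end Pool.T4
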