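import Pool.Agent.H11.T4.Ker
import Pool.Agent.H11.T4.Lnk
import Pool.Agent.H45.T4.Cob

/-!
# The complex and its simplices
-/

open Finset

namespace Pool.T4

open C45

/-- the 45-vertex complex -/
def KK : Cx 45 := ofMasks 45 FM kCov

theorem testBit_mask5 (a b c d e i : ℕ) :
    (mask5 a b c d e).testBit i = true ↔ i = a ∨ i = b ∨ i = c ∨ i = d ∨ i = e := by
  show ((2 ^ a) ||| ((2 ^ b) ||| ((2 ^ c) ||| ((2 ^ d) ||| (2 ^ e)))) : ℕ).testBit i = true ↔ _
  simp only [Nat.testBit_or, Nat.testBit_two_pow, Bool.or_eq_true, decide_eq_true_eq]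
  constructor
  · rintro (h | h | h | h | h) <;> simp [h]
  · rintro (h | h | h | h | h) <;> simp [h]

theorem maskL_eq : FM = FC.map (fun m => mask5 (fa m) (fb m) (fc m) (fd m) (fe m)) := by
  rw [← eqL_spec _ _ kM]
  have : ∀ l : List ℕ, maskL l = l.map (fun m => mask5 (fa m) (fb m) (fc m) (fd m) (fe m)) := by
    intro l
    induction l with
    | nil => rfl
    | cons m l ih => rw [List.map_cons, ← ih]; rfl
  exact this FC

theorem FT_mem {m : ℕ} (h : FT.get m ≠ 0) : m ∈ FM := by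
  rw [← eqL_spec _ _ kF]
  exact FT.get_mem_keys m h

/-- vertex of a number -/
def vt (a : ℕ) : Fin 45 := Fin.ofNat 45 a

theorem val_vt {a : ℕ} (h : a < 45) : (vt a).val = a := Nat.mod_eq_of_lt h

theorem vt_val (v : Fin 45) : vt v.val = v := Fin.ext (Nat.mod_eq_of_lt v.2)

/-- the vertices of a facet code -/
def v5 (c : ℕ) : Fin 5 → ℕ := ![fa c, fb c, fc c, fd c, fe c]

/-- the simplex of a facet code -/
def T5 (c : ℕ) : Fin 5 → Fin 45 := fun i => vt (v5 c i)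

theorem v5_lt {c : ℕ} (hc : c ∈ FC) : StrictMono (v5 c) ∧ ∀ i, v5 c i < 45 := by
  have h := allL_spec kA c hc
  simp only [chkA, andB_eq] at h
  obtain ⟨h1, h2, h3, h4, h5, -⟩ := h
  have h1 : fa c < fb c := by simpa using h1
  have h2 : fb c < fc c := by simpa using h2
  have h3 : fc c < fd c := by simpa using h3
  have h4 : fd c < fe c := by simpa using h4
  have h5 : fe c < 45 := by simpa [NN] using h5
  constructor
  · rw [Fin.strictMono_iff_lt_succ]
    intro i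
    fin_cases i
    · exact h1
    · exact h2
    · exact h3
    · exact h4
  · intro i
    fin_cases i
    · show fa c < 45; omega
    · show fb c < 45; omega
    · show fc c < 45; omega
    · show fd c < 45; omega
    · show fe c < 45; omega

theorem val_T5 {c : ℕ} (hc : c ∈ FC) (i : Fin 5) : (T5 c i).val = v5 c i := val_vt ((v5_lt hc).2 i)

theorem T5_mono {c : ℕ} (hc : c ∈ FC) : StrictMono (T5 c) := by
  intro i j hij
  rw [Fin.lt_def, val_T5 hc, val_T5 hc]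
  exact (v5_lt hc).1 hij

theorem mask_bits {c : ℕ} (i : ℕ) :
    (mask5 (fa c) (fb c) (fc c) (fd c) (fe c)).testBit i = true ↔ ∃ j, v5 c j = i := by
  rw [testBit_mask5]
  constructor
  · rintro (h | h | h | h | h)
    · exact ⟨0, h.symm⟩
    · exact ⟨1, h.symm⟩
    · exact ⟨2, h.symm⟩
    · exact ⟨3, h.symm⟩
    · exact ⟨4, h.symm⟩
  · rintro ⟨j, rfl⟩
    fin_cases j
    · exact Or.inl rfl
    · exact Or.inr (Or.inl rfl)
    · exact Or.inr (Or.inr (Or.inl rfl))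
    · exact Or.inr (Or.inr (Or.inr (Or.inl rfl)))
    · exact Or.inr (Or.inr (Or.inr (Or.inr rfl)))

theorem mem_KK {s : Finset (Fin 45)} : s ∈ KK.faces ↔ s.Nonempty ∧ ∃ c ∈ FC, ∀ v ∈ s, ∃ j, T5 c j = v := by
  show (s.Nonempty ∧ ∃ m ∈ FM, s ⊆ bitsF 45 m) ↔ _
  constructor
  · rintro ⟨hs, m, hm, hsm⟩
    rw [maskL_eq] at hm
    obtain ⟨c, hc, rfl⟩ := List.mem_map.1 hm
    refine ⟨hs, c, hc, fun v hv => ?_⟩
    obtain ⟨j, hj⟩ := (mask_bits _).1 (mem_bitsF.1 (hsm hv))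
    exact ⟨j, Fin.ext (by rw [val_T5 hc, hj])⟩
  · rintro ⟨hs, c, hc, h⟩
    refine ⟨hs, _, by rw [maskL_eq]; exact List.mem_map.2 ⟨c, hc, rfl⟩, fun v hv => ?_⟩
    obtain ⟨j, rfl⟩ := h v hv
    rw [mem_bitsF, mask_bits]
    exact ⟨j, (val_T5 hc j).symm⟩

/-- a set of vertices inside a 5-mask of the facet tree is a face -/
theorem face_of_FT {s : Finset (Fin 45)} (hs : s.Nonempty) {a b c d e : ℕ}
    (h : FT.get (mask5 a b c d e) ≠ 0)
    (h' : ∀ v ∈ s, v.val = a ∨ v.val = b ∨ v.val = c ∨ v.val = d ∨ v.val = e) : s ∈ KK.faces :=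
  ⟨hs, _, FT_mem h, fun v hv => mem_bitsF.2 ((testBit_mask5 _ _ _ _ _ _).2 (h' v hv))⟩

theorem mem_simpKK {k : ℕ} {s : Fin (k + 1) → Fin 45} :
    s ∈ simp KK k ↔ ∃ c ∈ FC, ∃ j : Fin (k + 1) → Fin 5, StrictMono j ∧ s = T5 c ∘ j := by
  rw [mem_simp]
  constructor
  · rintro ⟨hs, h⟩
    obtain ⟨-, c, hc, h⟩ := mem_KK.1 h
    choose j hj using fun i => h (s i) (Finset.mem_image_of_mem s (Finset.mem_univ i))
    refine ⟨c, hc, j, fun a b hab => ?_, funext fun i => (hj i).symm⟩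
    have := hs hab
    rw [← hj a, ← hj b] at this
    exact (T5_mono hc).lt_iff_lt.1 this
  · rintro ⟨c, hc, j, hj, rfl⟩
    refine ⟨(T5_mono hc).comp hj, mem_KK.2 ⟨⟨_, Finset.mem_image_of_mem _ (Finset.mem_univ 0)⟩, c, hc, ?_⟩⟩
    intro v hv
    obtain ⟨i, -, rfl⟩ := Finset.mem_image.1 hv
    exact ⟨j i, rfl⟩

theorem mem_simp4 {s : Fin 5 → Fin 45} : s ∈ simp KK 4 ↔ ∃ c ∈ FC, s = T5 c := by
  rw [mem_simpKK]
  constructor
  · rintro ⟨c, hc, j, hj, rfl⟩
    refine ⟨c, hc, ?_⟩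
    have : j = id := by
      have h1 : ∀ i : Fin 5, j i = i := by
        intro i
        have h0 : j 0 < j 1 := hj (by decide)
        have h1 : j 1 < j 2 := hj (by decide)
        have h2 : j 2 < j 3 := hj (by decide)
        have h3 : j 3 < j 4 := hj (by decide)
        have h4 := (j 4).2
        rw [Fin.lt_def] at h0 h1 h2 h3
        apply Fin.ext
        fin_cases i
        · show (j 0).val = 0; omega
        · show (j 1).val = 1; omega
        · show (j 2).val = 2; omega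
        · show (j 3).val = 3; omega
        · show (j 4).val = 4; omega
      exact funext h1
    rw [this]; rfl
  · rintro ⟨c, hc, rfl⟩
    exact ⟨c, hc, id, strictMono_id, rfl⟩

theorem simp_empty {k : ℕ} (hk : 5 ≤ k) : simp KK k = ∅ := by
  rw [Finset.eq_empty_iff_forall_notMem]
  intro s hs
  obtain ⟨c, -, j, hj, -⟩ := mem_simpKK.1 hs
  have := Fintype.card_le_of_injective j hj.injective
  simp at this
  omega

theorem pairs5 {P : Fin 5 → Fin 5 → Prop} (h : P 0 1 ∧ P 0 2 ∧ P 0 3 ∧ P 0 4 ∧ P 1 2 ∧ P 1 3 ∧ P 1 4 ∧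
    P 2 3 ∧ P 2 4 ∧ P 3 4) : ∀ i j, i < j → P i j := by
  obtain ⟨h1, h2, h3, h4, h5, h6, h7, h8, h9, h10⟩ := h
  intro i j hij
  fin_cases i <;> fin_cases j <;> first | assumption | exact absurd hij (by decide)

theorem triples5 {P : Fin 5 → Fin 5 → Fin 5 → Prop} (h : P 0 1 2 ∧ P 0 1 3 ∧ P 0 1 4 ∧ P 0 2 3 ∧ P 0 2 4 ∧
    P 0 3 4 ∧ P 1 2 3 ∧ P 1 2 4 ∧ P 1 3 4 ∧ P 2 3 4) : ∀ i j k, i < j → j < k → P i j k := by
  obtain ⟨h1, h2, h3, h4, h5, h6, h7, h8, h9, h10⟩ := h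
  intro i j k hij hjk
  fin_cases i <;> fin_cases j <;> first | exact absurd hij (by decide) | (fin_cases k <;> first | assumption | exact absurd hjk (by decide))

theorem quads5 {P : Fin 5 → Fin 5 → Fin 5 → Fin 5 → Prop} (h : P 0 1 2 3 ∧ P 0 1 2 4 ∧ P 0 1 3 4 ∧
    P 0 2 3 4 ∧ P 1 2 3 4) : ∀ i j k l, i < j → j < k → k < l → P i j k l := by
  obtain ⟨h1, h2, h3, h4, h5⟩ := h
  intro i j k l hij hjk hkl
  fin_cases i <;> fin_cases j <;> first | exact absurd hij (by decide) | (fin_cases k <;> first | exact absurd hjk (by decide) | (fin_cases l <;> first | assumption | exact absurd hkl (by decide)))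

theorem ne_of_nz2 {a b : ℕ} (h : nz2 a b = true) : T2.get (c2 a b) ≠ 0 := by
  have : 0 < T2.get (c2 a b) := by simpa [nz2] using h
  exact this.ne'

theorem ne_of_nz3 {a b c : ℕ} (h : nz3 a b c = true) : T3.get (c3 a b c) ≠ 0 := by
  have : 0 < T3.get (c3 a b c) := by simpa [nz3] using h
  exact this.ne'

theorem simp1_nz {s : Fin 2 → Fin 45} (hs : s ∈ simp KK 1) : T2.get (c2 (s 0) (s 1)) ≠ 0 := by
  obtain ⟨c, hc, j, hj, rfl⟩ := mem_simpKK.1 hs
  have h := allL_spec kB c hc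
  simp only [onF, chkB', andB_eq] at h
  have h2 := pairs5 (P := fun i j => nz2 (v5 c i) (v5 c j) = true) h (j 0) (j 1) (hj (by decide))
  show T2.get (c2 (T5 c (j 0)) (T5 c (j 1))) ≠ 0
  rw [val_T5 hc, val_T5 hc]
  exact ne_of_nz2 h2

theorem simp2_nz {s : Fin 3 → Fin 45} (hs : s ∈ simp KK 2) : T3.get (c3 (s 0) (s 1) (s 2)) ≠ 0 := by
  obtain ⟨c, hc, j, hj, rfl⟩ := mem_simpKK.1 hs
  have h := allL_spec kC c hc
  simp only [onF, chkC', andB_eq] at h
  have h2 := triples5 (P := fun i j k => nz3 (v5 c i) (v5 c j) (v5 c k) = true) h (j 0) (j 1) (j 2)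
    (hj (by decide)) (hj (by decide))
  show T3.get (c3 (T5 c (j 0)) (T5 c (j 1)) (T5 c (j 2))) ≠ 0
  rw [val_T5 hc, val_T5 hc, val_T5 hc]
  exact ne_of_nz3 h2

theorem simp2_rel {s : Fin 3 → Fin 45} (hs : s ∈ simp KK 2) :
    XV (s 1) (s 2) + XV (s 0) (s 1) = XV (s 0) (s 2) + OFF4 := by
  obtain ⟨c, hc, j, hj, rfl⟩ := mem_simpKK.1 hs
  have h := allL_spec kD c hc
  simp only [onF, chkD', andB_eq] at h
  have h2 := triples5 (P := fun i j k => rel1 (v5 c i) (v5 c j) (v5 c k) = true) h (j 0) (j 1) (j 2)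
    (hj (by decide)) (hj (by decide))
  show XV (T5 c (j 1)) (T5 c (j 2)) + XV (T5 c (j 0)) (T5 c (j 1)) = XV (T5 c (j 0)) (T5 c (j 2)) + OFF4
  rw [val_T5 hc, val_T5 hc, val_T5 hc]
  exact Nat.eq_of_beq_eq_true h2

theorem simp3_rel {s : Fin 4 → Fin 45} (hs : s ∈ simp KK 3) :
    YV (s 1) (s 2) (s 3) + YV (s 0) (s 1) (s 3) = YV (s 0) (s 2) (s 3) + YV (s 0) (s 1) (s 2) := by
  obtain ⟨c, hc, j, hj, rfl⟩ := mem_simpKK.1 hs
  have h := allL_spec kE c hc
  simp only [onF, chkE', andB_eq] at h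
  have h2 := quads5 (P := fun i j k l => rel2 (v5 c i) (v5 c j) (v5 c k) (v5 c l) = true) h
    (j 0) (j 1) (j 2) (j 3) (hj (by decide)) (hj (by decide)) (hj (by decide))
  show YV (T5 c (j 1)) (T5 c (j 2)) (T5 c (j 3)) + YV (T5 c (j 0)) (T5 c (j 1)) (T5 c (j 3)) =
    YV (T5 c (j 0)) (T5 c (j 2)) (T5 c (j 3)) + YV (T5 c (j 0)) (T5 c (j 1)) (T5 c (j 2))
  rw [val_T5 hc, val_T5 hc, val_T5 hc, val_T5 hc]
  exact Nat.eq_of_beq_eq_true h2

/-! ### codes -/

theorem c2_div {a b : ℕ} (hb : b < 64) : Nat.div (c2 a b) 64 = a := by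
  show (a * 64 + b) / 64 = a
  omega

theorem c2_mod {a b : ℕ} (hb : b < 64) : Nat.mod (c2 a b) 64 = b := by
  show (a * 64 + b) % 64 = b
  omega

theorem c3_a {a b c : ℕ} (hb : b < 64) (hc : c < 64) : Nat.div (c3 a b c) 4096 = a := by
  show ((a * 64 + b) * 64 + c) / 4096 = a
  omega

theorem c3_b {a b c : ℕ} (hb : b < 64) (hc : c < 64) : Nat.mod (Nat.div (c3 a b c) 64) 64 = b := by
  show ((a * 64 + b) * 64 + c) / 64 % 64 = b
  omega

theorem c3_c {a b c : ℕ} (hc : c < 64) : Nat.mod (c3 a b c) 64 = c := by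
  show ((a * 64 + b) * 64 + c) % 64 = c
  omega

/-- all information on an edge entry -/
theorem T2_info {u v : ℕ} (hv : v < 64) (h : T2.get (c2 u v) ≠ 0) :
    chk2' u v (T2.get (c2 u v)) = true := by
  have := T2.get_all k2 h
  unfold chk2 at this
  rwa [c2_div hv, c2_mod hv] at this

theorem T3_info {a b c : ℕ} (hb : b < 64) (hc : c < 64) (h : T3.get (c3 a b c) ≠ 0) :
    chk3' a b c (T3.get (c3 a b c)) = true := by
  have := T3.get_all k3 h
  unfold chk3 at this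
  rwa [c3_a hb hc, c3_b hb hc, c3_c hc] at this

theorem blt_iff {a b : ℕ} : Nat.blt a b = true ↔ a < b := by simp

theorem edge_of_T2 {u v : Fin 45} (h : T2.get (c2 u v) ≠ 0) :
    u < v ∧ ({u, v} : Finset (Fin 45)) ∈ KK.faces := by
  have := T2_info (by omega) h
  simp only [chk2', andB_eq, blt_iff] at this
  obtain ⟨h1, -, h3, -⟩ := this
  refine ⟨h1, face_of_FT (Finset.insert_nonempty _ _) h3.ne' ?_⟩
  intro w hw
  rw [Finset.mem_insert, Finset.mem_singleton] at hw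
  rcases hw with rfl | rfl
  · exact Or.inl rfl
  · exact Or.inr (Or.inl rfl)

theorem tri_of_T3 {a b c : Fin 45} (h : T3.get (c3 a b c) ≠ 0) :
    a < b ∧ b < c ∧ ({a, b, c} : Finset (Fin 45)) ∈ KK.faces := by
  have := T3_info (by omega) (by omega) h
  simp only [chk3', andB_eq, blt_iff] at this
  obtain ⟨h1, h2, -, h3, -⟩ := this
  refine ⟨h1, h2, face_of_FT (Finset.insert_nonempty _ _) h3.ne' ?_⟩
  intro w hw
  rw [Finset.mem_insert, Finset.mem_insert, Finset.mem_singleton] at hw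
  rcases hw with rfl | rfl | rfl
  · exact Or.inl rfl
  · exact Or.inr (Or.inl rfl)
  · exact Or.inr (Or.inr (Or.inl rfl))

theorem XV_digits {u v : ℕ} (hv : v < 64) (h : T2.get (c2 u v) ≠ 0) : ∀ i < 4, dg i (XV u v) < 32 := by
  have := T2_info hv h
  simp only [chk2', andB_eq] at this
  exact digOK_spec 4 _ this.2.2.2.1

theorem YV_digits {a b c : ℕ} (hb : b < 64) (hc : c < 64) (h : T3.get (c3 a b c) ≠ 0) :
    ∀ i < 14, dg i (YV a b c) < 32 := by
  have := T3_info hb hc h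
  simp only [chk3', andB_eq] at this
  exact digOK_spec 14 _ this.2.2.2.2.1

end Pool.T4
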