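import Mathlib

/-!
# Triangulated closed 4-manifolds with a map to the 4-torus

All notions used in the statement of `MP_a3e91b_gt`: geometric realisation of a finite abstract
simplicial complex, ordered simplices, simplicial cochains, coboundary, cup product
(Alexander-Whitney), fundamental cycle, Euler characteristic, intersection form and its
numbers `b₊`, `b₋`, the map to `T⁴` given by four integral 1-cocycles, and its degree.
-/

open Finset

namespace Pool.T4

variable {n : ℕ}

/-- The geometric realisation of a finite abstract simplicial complex `K` with vertices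
`0, …, n-1`: the points of `ℝⁿ` with nonnegative coordinates with sum `1` (barycentric
coordinates) whose support is a face of `K`; with the topology induced from `ℝⁿ`. -/
def Geom (K : AbstractSimplicialComplex (Fin n)) : Set (Fin n → ℝ) :=
  {p | (∀ i, 0 ≤ p i) ∧ ∑ i, p i = 1 ∧ (univ.filter fun i => p i ≠ 0) ∈ K.faces}

open Classical in
/-- The ordered `k`-simplices of `K`: increasing sequences `s 0 < … < s k` of vertices that span
a face of `K`. -/
noncomputable def simp (K : AbstractSimplicialComplex (Fin n)) (k : ℕ) :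
    Finset (Fin (k + 1) → Fin n) :=
  univ.filter fun s => StrictMono s ∧ univ.image s ∈ K.faces

/-- The coboundary of a `k`-cochain. -/
def cobd {R : Type} [Ring R] {k : ℕ} (c : (Fin (k + 1) → Fin n) → R) :
    (Fin (k + 2) → Fin n) → R :=
  fun s => ∑ i : Fin (k + 2), (-1 : R) ^ (i : ℕ) * c (s ∘ i.succAbove)

/-- `c` is a `k`-cocycle of `K`. -/
def IsCocycle {R : Type} [Ring R] {k : ℕ} (K : AbstractSimplicialComplex (Fin n))
    (c : (Fin (k + 1) → Fin n) → R) : Prop :=
  ∀ s ∈ simp K (k + 1), cobd c s = 0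

/-- The cup product of a `k`-cochain and an `l`-cochain:
`(c ∪ d)(v₀, …, v_{k+l}) = c(v₀, …, v_k) d(v_k, …, v_{k+l})`. -/
def cup {R : Type} [Ring R] {k l : ℕ} (c : (Fin (k + 1) → Fin n) → R)
    (d : (Fin (l + 1) → Fin n) → R) : (Fin (k + l + 1) → Fin n) → R :=
  fun s => c (fun i => s ⟨i, by omega⟩) * d (fun j => s ⟨k + j, by omega⟩)

/-- `o` is a fundamental cycle of the 4-dimensional complex `K`: a chain with coefficients `±1`
on all 4-simplices which is a cycle, that is, it vanishes on all coboundaries. -/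
def IsFundCycle (K : AbstractSimplicialComplex (Fin n)) (o : (Fin 5 → Fin n) → ℤ) : Prop :=
  (∀ s ∈ simp K 4, o s = 1 ∨ o s = -1) ∧
    ∀ c : (Fin 4 → Fin n) → ℤ, ∑ s ∈ simp K 4, o s * cobd c s = 0

/-- Evaluation of a 4-cochain on the fundamental cycle. -/
noncomputable def evalOn {R : Type} [Ring R] (K : AbstractSimplicialComplex (Fin n))
    (o : (Fin 5 → Fin n) → ℤ) (c : (Fin 5 → Fin n) → R) : R :=
  ∑ s ∈ simp K 4, (o s : R) * c s

/-- Euler characteristic. -/
noncomputable def eulerChar (K : AbstractSimplicialComplex (Fin n)) : ℤ :=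
  ∑ k ∈ range n, (-1 : ℤ) ^ k * (simp K k).card

/-- `z ∪ z [M]` for a real 2-cochain `z`. -/
noncomputable def qform (K : AbstractSimplicialComplex (Fin n)) (o : (Fin 5 → Fin n) → ℤ)
    (z : (Fin 3 → Fin n) → ℝ) : ℝ :=
  evalOn K o (cup (k := 2) (l := 2) z z)

/-- `b₊` is the maximal dimension of a space of (real) 2-cocycles on which the intersection form
`z ↦ ⟨z ∪ z, [M]⟩` is positive definite. (Coboundaries are in the radical of the form, so this is
the number `b₊` of the intersection form on `H²(K; ℝ)`.) -/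
def IsBplus (K : AbstractSimplicialComplex (Fin n)) (o : (Fin 5 → Fin n) → ℤ) (b : ℕ) : Prop :=
  IsGreatest {d | ∃ W : Submodule ℝ ((Fin 3 → Fin n) → ℝ), Module.finrank ℝ W = d ∧
    (∀ z ∈ W, IsCocycle (k := 2) K z) ∧ ∀ z ∈ W, z ≠ 0 → 0 < qform K o z} b

/-- `b₋`, likewise. -/
def IsBminus (K : AbstractSimplicialComplex (Fin n)) (o : (Fin 5 → Fin n) → ℤ) (b : ℕ) : Prop :=
  IsGreatest {d | ∃ W : Submodule ℝ ((Fin 3 → Fin n) → ℝ), Module.finrank ℝ W = d ∧
    (∀ z ∈ W, IsCocycle (k := 2) K z) ∧ ∀ z ∈ W, z ≠ 0 → qform K o z < 0} b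

/-- The alternating extension of a 1-cochain to all pairs of vertices. -/
def alt (x : (Fin 2 → Fin n) → ℤ) (v w : Fin n) : ℤ :=
  if v < w then x ![v, w] else if w < v then -x ![w, v] else 0

/-- The 4-torus `(ℝ/ℤ)⁴`. -/
abbrev Torus4 : Type := Fin 4 → AddCircle (1 : ℝ)

/-- `f : |K| → T⁴` is the map given by the four integral 1-cocycles `x i`: it sends all vertices to
`0`, it is affine on every simplex, and the `i`-th coordinate winds `x i (v, w)` times along the
edge from `v` to `w`. In particular `f^*` of the standard generators of `H¹(T⁴; ℤ)` are the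
classes of the `x i`. -/
def IsMapOf (K : AbstractSimplicialComplex (Fin n)) (x : Fin 4 → (Fin 2 → Fin n) → ℤ)
    (f : C(Geom K, Torus4)) : Prop :=
  (∀ i, IsCocycle (k := 1) K (x i)) ∧
    ∀ (p : Geom K) (v : Fin n), p.1 v ≠ 0 → ∀ i,
      f p i = ((∑ w, p.1 w * (alt (x i) v w : ℝ) : ℝ) : AddCircle (1 : ℝ))

/-- The degree of the map given by the cocycles `x i`:
`⟨f^*(θ₀ ∪ θ₁ ∪ θ₂ ∪ θ₃), [M]⟩`, where the `θ i` are the standard generators of `H¹(T⁴; ℤ)`. -/
noncomputable def degreeOf (K : AbstractSimplicialComplex (Fin n)) (o : (Fin 5 → Fin n) → ℤ)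
    (x : Fin 4 → (Fin 2 → Fin n) → ℤ) : ℤ :=
  evalOn K o (cup (k := 3) (l := 1) (cup (k := 2) (l := 1) (cup (k := 1) (l := 1) (x 0) (x 1)) (x 2)) (x 3))

end Pool.T4
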