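import Pool.Agent.H11.T4.D1
import Pool.Agent.H11.T4.L0
import Pool.Agent.H11.T4.Lnk

/-! Links of the vertices 0 to 4 are 3-spheres (kernel computation, generated). -/

set_option maxRecDepth 100000

namespace Pool.T4

theorem red_0 : Reduces (fam 45 (linkM (2 ^ 0) FM)) :=
  reduces_of_data (L0 := L0_0) (S := S_0) (F := F_0) (by decide +kernel) (by decide +kernel)
    (by decide +kernel) (by decide +kernel)

theorem red_1 : Reduces (fam 45 (linkM (2 ^ 1) FM)) :=
  reduces_of_data (L0 := L0_1) (S := S_1) (F := F_1) (by decide +kernel) (by decide +kernel)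
    (by decide +kernel) (by decide +kernel)

theorem red_2 : Reduces (fam 45 (linkM (2 ^ 2) FM)) :=
  reduces_of_data (L0 := L0_2) (S := S_2) (F := F_2) (by decide +kernel) (by decide +kernel)
    (by decide +kernel) (by decide +kernel)

theorem red_3 : Reduces (fam 45 (linkM (2 ^ 3) FM)) :=
  reduces_of_data (L0 := L0_3) (S := S_3) (F := F_3) (by decide +kernel) (by decide +kernel)
    (by decide +kernel) (by decide +kernel)

theorem red_4 : Reduces (fam 45 (linkM (2 ^ 4) FM)) :=
  reduces_of_data (L0 := L0_4) (S := S_4) (F := F_4) (by decide +kernel) (by decide +kernel)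
    (by decide +kernel) (by decide +kernel)

end Pool.T4
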