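import Pool.Agent.H11.T4.D1
import Pool.Agent.H11.T4.L1
import Pool.Agent.H11.T4.Lnk

/-! Links of the vertices 5 to 9 are 3-spheres (kernel computation, generated). -/

set_option maxRecDepth 100000

namespace Pool.T4

theorem red_5 : Reduces (fam 45 (linkM (2 ^ 5) FM)) :=
  reduces_of_data (L0 := L0_5) (S := S_5) (F := F_5) (by decide +kernel) (by decide +kernel)
    (by decide +kernel) (by decide +kernel)

theorem red_6 : Reduces (fam 45 (linkM (2 ^ 6) FM)) :=
  reduces_of_data (L0 := L0_6) (S := S_6) (F := F_6) (by decide +kernel) (by decide +kernel)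
    (by decide +kernel) (by decide +kernel)

theorem red_7 : Reduces (fam 45 (linkM (2 ^ 7) FM)) :=
  reduces_of_data (L0 := L0_7) (S := S_7) (F := F_7) (by decide +kernel) (by decide +kernel)
    (by decide +kernel) (by decide +kernel)

theorem red_8 : Reduces (fam 45 (linkM (2 ^ 8) FM)) :=
  reduces_of_data (L0 := L0_8) (S := S_8) (F := F_8) (by decide +kernel) (by decide +kernel)
    (by decide +kernel) (by decide +kernel)

theorem red_9 : Reduces (fam 45 (linkM (2 ^ 9) FM)) :=
  reduces_of_data (L0 := L0_9) (S := S_9) (F := F_9) (by decide +kernel) (by decide +kernel)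
    (by decide +kernel) (by decide +kernel)

end Pool.T4
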