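import Pool.Agent.H11.T4.D1
import Pool.Agent.H11.T4.L2
import Pool.Agent.H11.T4.Lnk

/-! Links of the vertices 10 to 14 are 3-spheres (kernel computation, generated). -/

set_option maxRecDepth 100000

namespace Pool.T4

theorem red_10 : Reduces (fam 45 (linkM (2 ^ 10) FM)) :=
  reduces_of_data (L0 := L0_10) (S := S_10) (F := F_10) (by decide +kernel) (by decide +kernel)
    (by decide +kernel) (by decide +kernel)

theorem red_11 : Reduces (fam 45 (linkM (2 ^ 11) FM)) :=
  reduces_of_data (L0 := L0_11) (S := S_11) (F := F_11) (by decide +kernel) (by decide +kernel)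
    (by decide +kernel) (by decide +kernel)

theorem red_12 : Reduces (fam 45 (linkM (2 ^ 12) FM)) :=
  reduces_of_data (L0 := L0_12) (S := S_12) (F := F_12) (by decide +kernel) (by decide +kernel)
    (by decide +kernel) (by decide +kernel)

theorem red_13 : Reduces (fam 45 (linkM (2 ^ 13) FM)) :=
  reduces_of_data (L0 := L0_13) (S := S_13) (F := F_13) (by decide +kernel) (by decide +kernel)
    (by decide +kernel) (by decide +kernel)

theorem red_14 : Reduces (fam 45 (linkM (2 ^ 14) FM)) :=
  reduces_of_data (L0 := L0_14) (S := S_14) (F := F_14) (by decide +kernel) (by decide +kernel)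
    (by decide +kernel) (by decide +kernel)

end Pool.T4
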