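import Pool.Agent.H11.T4.D1
import Pool.Agent.H11.T4.L3
import Pool.Agent.H11.T4.Lnk

/-! Links of the vertices 15 to 19 are 3-spheres (kernel computation, generated). -/

set_option maxRecDepth 100000

namespace Pool.T4

theorem red_15 : Reduces (fam 45 (linkM (2 ^ 15) FM)) :=
  reduces_of_data (L0 := L0_15) (S := S_15) (F := F_15) (by decide +kernel) (by decide +kernel)
    (by decide +kernel) (by decide +kernel)

theorem red_16 : Reduces (fam 45 (linkM (2 ^ 16) FM)) :=
  reduces_of_data (L0 := L0_16) (S := S_16) (F := F_16) (by decide +kernel) (by decide +kernel)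
    (by decide +kernel) (by decide +kernel)

theorem red_17 : Reduces (fam 45 (linkM (2 ^ 17) FM)) :=
  reduces_of_data (L0 := L0_17) (S := S_17) (F := F_17) (by decide +kernel) (by decide +kernel)
    (by decide +kernel) (by decide +kernel)

theorem red_18 : Reduces (fam 45 (linkM (2 ^ 18) FM)) :=
  reduces_of_data (L0 := L0_18) (S := S_18) (F := F_18) (by decide +kernel) (by decide +kernel)
    (by decide +kernel) (by decide +kernel)

theorem red_19 : Reduces (fam 45 (linkM (2 ^ 19) FM)) :=
  reduces_of_data (L0 := L0_19) (S := S_19) (F := F_19) (by decide +kernel) (by decide +kernel)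
    (by decide +kernel) (by decide +kernel)

end Pool.T4
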