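import Pool.Agent.H11.T4.D1
import Pool.Agent.H11.T4.L4
import Pool.Agent.H11.T4.Lnk

/-! Links of the vertices 20 to 24 are 3-spheres (kernel computation, generated). -/

set_option maxRecDepth 100000

namespace Pool.T4

theorem red_20 : Reduces (fam 45 (linkM (2 ^ 20) FM)) :=
  reduces_of_data (L0 := L0_20) (S := S_20) (F := F_20) (by decide +kernel) (by decide +kernel)
    (by decide +kernel) (by decide +kernel)

theorem red_21 : Reduces (fam 45 (linkM (2 ^ 21) FM)) :=
  reduces_of_data (L0 := L0_21) (S := S_21) (F := F_21) (by decide +kernel) (by decide +kernel)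
    (by decide +kernel) (by decide +kernel)

theorem red_22 : Reduces (fam 45 (linkM (2 ^ 22) FM)) :=
  reduces_of_data (L0 := L0_22) (S := S_22) (F := F_22) (by decide +kernel) (by decide +kernel)
    (by decide +kernel) (by decide +kernel)

theorem red_23 : Reduces (fam 45 (linkM (2 ^ 23) FM)) :=
  reduces_of_data (L0 := L0_23) (S := S_23) (F := F_23) (by decide +kernel) (by decide +kernel)
    (by decide +kernel) (by decide +kernel)

theorem red_24 : Reduces (fam 45 (linkM (2 ^ 24) FM)) :=
  reduces_of_data (L0 := L0_24) (S := S_24) (F := F_24) (by decide +kernel) (by decide +kernel)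
    (by decide +kernel) (by decide +kernel)

end Pool.T4
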