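import Pool.Agent.H11.T4.D1
import Pool.Agent.H11.T4.L5
import Pool.Agent.H11.T4.Lnk

/-! Links of the vertices 25 to 29 are 3-spheres (kernel computation, generated). -/

set_option maxRecDepth 100000

namespace Pool.T4

theorem red_25 : Reduces (fam 45 (linkM (2 ^ 25) FM)) :=
  reduces_of_data (L0 := L0_25) (S := S_25) (F := F_25) (by decide +kernel) (by decide +kernel)
    (by decide +kernel) (by decide +kernel)

theorem red_26 : Reduces (fam 45 (linkM (2 ^ 26) FM)) :=
  reduces_of_data (L0 := L0_26) (S := S_26) (F := F_26) (by decide +kernel) (by decide +kernel)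
    (by decide +kernel) (by decide +kernel)

theorem red_27 : Reduces (fam 45 (linkM (2 ^ 27) FM)) :=
  reduces_of_data (L0 := L0_27) (S := S_27) (F := F_27) (by decide +kernel) (by decide +kernel)
    (by decide +kernel) (by decide +kernel)

theorem red_28 : Reduces (fam 45 (linkM (2 ^ 28) FM)) :=
  reduces_of_data (L0 := L0_28) (S := S_28) (F := F_28) (by decide +kernel) (by decide +kernel)
    (by decide +kernel) (by decide +kernel)

theorem red_29 : Reduces (fam 45 (linkM (2 ^ 29) FM)) :=
  reduces_of_data (L0 := L0_29) (S := S_29) (F := F_29) (by decide +kernel) (by decide +kernel)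
    (by decide +kernel) (by decide +kernel)

end Pool.T4
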