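import Pool.Agent.H11.T4.D1
import Pool.Agent.H11.T4.L6
import Pool.Agent.H11.T4.Lnk

/-! Links of the vertices 30 to 34 are 3-spheres (kernel computation, generated). -/

set_option maxRecDepth 100000

namespace Pool.T4

theorem red_30 : Reduces (fam 45 (linkM (2 ^ 30) FM)) :=
  reduces_of_data (L0 := L0_30) (S := S_30) (F := F_30) (by decide +kernel) (by decide +kernel)
    (by decide +kernel) (by decide +kernel)

theorem red_31 : Reduces (fam 45 (linkM (2 ^ 31) FM)) :=
  reduces_of_data (L0 := L0_31) (S := S_31) (F := F_31) (by decide +kernel) (by decide +kernel)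
    (by decide +kernel) (by decide +kernel)

theorem red_32 : Reduces (fam 45 (linkM (2 ^ 32) FM)) :=
  reduces_of_data (L0 := L0_32) (S := S_32) (F := F_32) (by decide +kernel) (by decide +kernel)
    (by decide +kernel) (by decide +kernel)

theorem red_33 : Reduces (fam 45 (linkM (2 ^ 33) FM)) :=
  reduces_of_data (L0 := L0_33) (S := S_33) (F := F_33) (by decide +kernel) (by decide +kernel)
    (by decide +kernel) (by decide +kernel)

theorem red_34 : Reduces (fam 45 (linkM (2 ^ 34) FM)) :=
  reduces_of_data (L0 := L0_34) (S := S_34) (F := F_34) (by decide +kernel) (by decide +kernel)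
    (by decide +kernel) (by decide +kernel)

end Pool.T4
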