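import Pool.Agent.H11.T4.D1
import Pool.Agent.H11.T4.L7
import Pool.Agent.H11.T4.Lnk

/-! Links of the vertices 35 to 39 are 3-spheres (kernel computation, generated). -/

set_option maxRecDepth 100000

namespace Pool.T4

theorem red_35 : Reduces (fam 45 (linkM (2 ^ 35) FM)) :=
  reduces_of_data (L0 := L0_35) (S := S_35) (F := F_35) (by decide +kernel) (by decide +kernel)
    (by decide +kernel) (by decide +kernel)

theorem red_36 : Reduces (fam 45 (linkM (2 ^ 36) FM)) :=
  reduces_of_data (L0 := L0_36) (S := S_36) (F := F_36) (by decide +kernel) (by decide +kernel)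
    (by decide +kernel) (by decide +kernel)

theorem red_37 : Reduces (fam 45 (linkM (2 ^ 37) FM)) :=
  reduces_of_data (L0 := L0_37) (S := S_37) (F := F_37) (by decide +kernel) (by decide +kernel)
    (by decide +kernel) (by decide +kernel)

theorem red_38 : Reduces (fam 45 (linkM (2 ^ 38) FM)) :=
  reduces_of_data (L0 := L0_38) (S := S_38) (F := F_38) (by decide +kernel) (by decide +kernel)
    (by decide +kernel) (by decide +kernel)

theorem red_39 : Reduces (fam 45 (linkM (2 ^ 39) FM)) :=
  reduces_of_data (L0 := L0_39) (S := S_39) (F := F_39) (by decide +kernel) (by decide +kernel)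
    (by decide +kernel) (by decide +kernel)

end Pool.T4
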