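import Pool.Agent.H11.T4.D1
import Pool.Agent.H11.T4.L8
import Pool.Agent.H11.T4.Lnk

/-! Links of the vertices 40 to 44 are 3-spheres (kernel computation, generated). -/

set_option maxRecDepth 100000

namespace Pool.T4

theorem red_40 : Reduces (fam 45 (linkM (2 ^ 40) FM)) :=
  reduces_of_data (L0 := L0_40) (S := S_40) (F := F_40) (by decide +kernel) (by decide +kernel)
    (by decide +kernel) (by decide +kernel)

theorem red_41 : Reduces (fam 45 (linkM (2 ^ 41) FM)) :=
  reduces_of_data (L0 := L0_41) (S := S_41) (F := F_41) (by decide +kernel) (by decide +kernel)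
    (by decide +kernel) (by decide +kernel)

theorem red_42 : Reduces (fam 45 (linkM (2 ^ 42) FM)) :=
  reduces_of_data (L0 := L0_42) (S := S_42) (F := F_42) (by decide +kernel) (by decide +kernel)
    (by decide +kernel) (by decide +kernel)

theorem red_43 : Reduces (fam 45 (linkM (2 ^ 43) FM)) :=
  reduces_of_data (L0 := L0_43) (S := S_43) (F := F_43) (by decide +kernel) (by decide +kernel)
    (by decide +kernel) (by decide +kernel)

theorem red_44 : Reduces (fam 45 (linkM (2 ^ 44) FM)) :=
  reduces_of_data (L0 := L0_44) (S := S_44) (F := F_44) (by decide +kernel) (by decide +kernel)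
    (by decide +kernel) (by decide +kernel)

end Pool.T4
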