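import Pool.Agent.H11.T4.Grm
import Pool.Agent.H11.T4.Chi
import Pool.Agent.H5.T4.SP2
import Pool.Agent.H19.T4.STK
import Pool.Agent.H45.T4.BPM

/-!
# The fourteen classes span the second cohomology; `b₊ = 5`, `b₋ = 9`
-/

open Finset

namespace Pool.T4

open C45

attribute [local irreducible] Tr.get FC FM T2 T3 TW FT

theorem recB {α : Type} (a b : α) (c : Bool) :
    @Bool.rec (fun _ => α) a b c = if c = true then b else a := by cases c <;> rfl

theorem FT_lt {a b c d e : ℕ} (h : FT.get (mask5 a b c d e) ≠ 0) :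
    a < 45 ∧ b < 45 ∧ c < 45 ∧ d < 45 ∧ e < 45 := by
  have h1 := FT_mem h
  rw [maskL_eq] at h1
  obtain ⟨m, hm, hme⟩ := List.mem_map.1 h1
  have h2 : ∀ i, (i = a ∨ i = b ∨ i = c ∨ i = d ∨ i = e) → i < 45 := by
    intro i hi
    have h3 : (mask5 a b c d e).testBit i = true := (testBit_mask5 _ _ _ _ _ _).2 hi
    rw [← hme] at h3
    obtain ⟨j, hj⟩ := (mask_bits i).1 h3
    rw [← hj]
    exact (v5_lt hm).2 j
  exact ⟨h2 _ (by simp), h2 _ (by simp), h2 _ (by simp), h2 _ (by simp), h2 _ (by simp)⟩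

/-- decoded triangles -/
def T3c (m : ℕ) : Fin 3 → Fin 45 := ![vt (m / 4096), vt (m / 64 % 64), vt (m % 64)]

theorem T3c_c3 {a b c : ℕ} (hb : b < 64) (hc : c < 64) : T3c (c3 a b c) = ![vt a, vt b, vt c] := by
  have h1 : c3 a b c / 4096 = a := c3_a hb hc
  have h2 : c3 a b c / 64 % 64 = b := c3_b hb hc
  have h3 : c3 a b c % 64 = c := c3_c hc
  unfold T3c
  rw [h1, h2, h3]

/-- critical triangles -/
noncomputable def TT (j : Fin 14) : Fin 3 → Fin 45 := T3c (nthL TTl j)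

theorem TT_code : ∀ j : Fin 14, c3 (nthL TTl j / 4096 % 45) (nthL TTl j / 64 % 64 % 45) (nthL TTl j % 64 % 45) =
    nthL TTl j := by decide +kernel

theorem TT_get : ∀ j : Fin 14, T3.get (nthL TTl j) / 1099511627776 = OFF14 + 64 ^ (j : ℕ) := by
  have h : ∀ m : ℕ, chkT m = true → ∀ j < m, T3.get (nthL TTl j) / 1099511627776 = OFF14 + 64 ^ j := by
    intro m
    induction m with
    | zero => intro _ j hj; exact absurd hj (Nat.not_lt_zero j)
    | succ m ih =>
      intro h j hj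
      have h' : andB (Nat.beq (Nat.div (T3.get (nthL TTl m)) 1099511627776) (Nat.add OFF14 (Nat.pow 64 m)))
        (chkT m) = true := h
      rw [andB_eq] at h'
      rcases Nat.lt_succ_iff_lt_or_eq.1 hj with hj | rfl
      · exact ih h'.2 j hj
      · exact Nat.eq_of_beq_eq_true h'.1
  intro j
  exact h 14 kT j j.2

theorem dg_delta : ∀ i j : Fin 14, (dg i (OFF14 + 64 ^ (j : ℕ)) : ℤ) - 16 = if i = j then 1 else 0 := by
  decide +kernel

theorem dg_off : ∀ i : Fin 14, (dg i OFF14 : ℤ) - 16 = 0 := by decide +kernel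

theorem yy_TT (i j : Fin 14) : yy i (TT j) = if i = j then 1 else 0 := by
  have h1 : YV (TT j 0) (TT j 1) (TT j 2) = OFF14 + 64 ^ (j : ℕ) := by
    rw [← TT_get]
    have h2 : c3 (TT j 0) (TT j 1) (TT j 2) = nthL TTl j := TT_code j
    unfold YV
    rw [h2]
    rfl
  unfold yy yz
  rw [h1, dg_delta]
  split_ifs <;> simp

/-- rank of an edge -/
noncomputable def rkE (e : Fin 2 → Fin 45) : ℕ := rk2 (e 0) (e 1)

/-- third vertex matched with an edge -/
noncomputable def thE (e : Fin 2 → Fin 45) : ℕ := thOf (T2.get (c2 (e 0) (e 1)))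

/-- triangle matched with an edge -/
noncomputable def tE (e : Fin 2 → Fin 45) : Fin 3 → Fin 45 :=
  if thE e < e 0 then ![vt (thE e), e 0, e 1] else if thE e < e 1 then ![e 0, vt (thE e), e 1]
    else ![e 0, e 1, vt (thE e)]

/-- rank of a triangle -/
noncomputable def rkT (t : Fin 3 → Fin 45) : ℕ := rk3 (t 0) (t 1) (t 2)

theorem vec3_succAbove (a b c : Fin 45) :
    (![a, b, c] : Fin 3 → Fin 45) ∘ (0 : Fin 3).succAbove = ![b, c] ∧
    (![a, b, c] : Fin 3 → Fin 45) ∘ (1 : Fin 3).succAbove = ![a, c] ∧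
    (![a, b, c] : Fin 3 → Fin 45) ∘ (2 : Fin 3).succAbove = ![a, b] :=
  ⟨f3_0 _, f3_1 _, f3_2 _⟩

theorem vec4_succAbove (a b c d : Fin 45) :
    (![a, b, c, d] : Fin 4 → Fin 45) ∘ (0 : Fin 4).succAbove = ![b, c, d] ∧
    (![a, b, c, d] : Fin 4 → Fin 45) ∘ (1 : Fin 4).succAbove = ![a, c, d] ∧
    (![a, b, c, d] : Fin 4 → Fin 45) ∘ (2 : Fin 4).succAbove = ![a, b, d] ∧
    (![a, b, c, d] : Fin 4 → Fin 45) ∘ (3 : Fin 4).succAbove = ![a, b, c] :=
  ⟨f4_0 _, f4_1 _, f4_2 _, f4_3 _⟩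

theorem rkE_vec (u v : Fin 45) : rkE ![u, v] = rk2 u v := rfl
theorem rkT_vec (a b c : Fin 45) : rkT ![a, b, c] = rk3 a b c := rfl

theorem yy_off (i : Fin 14) (a b c : Fin 45) (h : YV a b c = OFF14) : yy i ![a, b, c] = 0 := by
  unfold yy yz
  have h1 : YV ((![a, b, c] : Fin 3 → Fin 45) 0) ((![a, b, c] : Fin 3 → Fin 45) 1) ((![a, b, c] : Fin 3 → Fin 45) 2) = OFF14 := h
  rw [h1, dg_off]
  simp

/-- the conclusion for an edge and its triangle, in terms of a triple and position -/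
theorem hE_aux (e : Fin 2 → Fin 45) (a b c : Fin 45)
    (hY : YV a b c = OFF14) (j₀ : Fin 3) (hj : (![a, b, c] : Fin 3 → Fin 45) ∘ j₀.succAbove = e)
    (hr : ∀ j : Fin 3, j ≠ j₀ → rkE ((![a, b, c] : Fin 3 → Fin 45) ∘ j.succAbove) < rkE e) :
    (∀ i, yy i ![a, b, c] = 0) ∧ (∃! j : Fin 3, (![a, b, c] : Fin 3 → Fin 45) ∘ j.succAbove = e) ∧
    ∀ j : Fin 3, (![a, b, c] : Fin 3 → Fin 45) ∘ j.succAbove ≠ e →
      rkE ((![a, b, c] : Fin 3 → Fin 45) ∘ j.succAbove) < rkE e := by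
  refine ⟨fun i => yy_off i a b c hY, ⟨j₀, hj, ?_⟩, ?_⟩
  · intro j hj'
    by_contra hne
    have := hr j hne
    rw [hj'] at this
    exact lt_irrefl _ this
  · intro j hj'
    exact hr j (fun h => hj' (by rw [h]; exact hj))

theorem hE (e : Fin 2 → Fin 45) (he : rkE e ≠ 0) :
    (∀ i, yy i (tE e) = 0) ∧ (∃! j : Fin 3, tE e ∘ j.succAbove = e) ∧
    ∀ j : Fin 3, tE e ∘ j.succAbove ≠ e → rkE (tE e ∘ j.succAbove) < rkE e := by
  obtain ⟨u, v, rfl⟩ : ∃ u v, e = ![u, v] := ⟨_, _, eta2 e⟩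
  have hp : T2.get (c2 u v) ≠ 0 := by
    intro h
    apply he
    rw [rkE_vec]
    unfold rk2
    rw [h]
    rfl
  have hi := T2_info (u := u) (v := v) (by omega) hp
  simp only [chk2', andB_eq, blt_iff, recB] at hi
  obtain ⟨huv, -, -, -, -, hm⟩ := hi
  have hr0 : Nat.beq (rkOf (T2.get (c2 u v))) 0 = false := by
    cases h : Nat.beq (rkOf (T2.get (c2 u v))) 0 with
    | false => rfl
    | true => exact absurd (Nat.eq_of_beq_eq_true h) he
  rw [hr0] at hm
  simp only [Bool.false_eq_true, if_false] at hm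
  have hthe : thE ![u, v] = thOf (T2.get (c2 u v)) := rfl
  have hw64 : thOf (T2.get (c2 u v)) < 64 := Nat.mod_lt _ (by norm_num)
  have hrk : rkE ![u, v] = rkOf (T2.get (c2 u v)) := rfl
  have htE : tE ![u, v] = if thE ![u, v] < (u : ℕ) then ![vt (thE ![u, v]), u, v] else
    if thE ![u, v] < (v : ℕ) then ![u, vt (thE ![u, v]), v] else ![u, v, vt (thE ![u, v])] := rfl
  rw [← hthe, ← hrk] at hm
  rw [← hthe] at hw64
  simp only [mat2, recB, blt_iff] at hm
  rw [htE]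
  clear htE hthe
  generalize thE ![u, v] = w at hm hw64 ⊢
  by_cases h1 : w < (u : ℕ)
  · -- w < u
    rw [if_pos h1] at hm ⊢
    simp only [andB_eq, blt_iff] at hm
    have hwv : (vt w).val = w := val_vt (by omega)
    refine hE_aux ![u, v] (vt w) u v (by rw [hwv]; exact Nat.eq_of_beq_eq_true hm.1) 0
      (vec3_succAbove _ _ _).1 ?_
    intro j hj
    fin_cases j
    · exact absurd rfl hj
    · show rkE ((![vt w, u, v] : Fin 3 → Fin 45) ∘ (1 : Fin 3).succAbove) < _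
      rw [(vec3_succAbove _ _ _).2.1, rkE_vec, hwv]
      exact hm.2.1
    · show rkE ((![vt w, u, v] : Fin 3 → Fin 45) ∘ (2 : Fin 3).succAbove) < _
      rw [(vec3_succAbove _ _ _).2.2, rkE_vec, hwv]
      exact hm.2.2
  rw [if_neg h1] at hm ⊢
  by_cases h2 : w < (v : ℕ)
  · -- u < w < v
    rw [if_pos h2] at hm ⊢
    simp only [andB_eq, blt_iff] at hm
    have hwv : (vt w).val = w := val_vt (by omega)
    refine hE_aux ![u, v] u (vt w) v (by rw [hwv]; exact Nat.eq_of_beq_eq_true hm.2.1) 1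
      (vec3_succAbove _ _ _).2.1 ?_
    intro j hj
    fin_cases j
    · show rkE ((![u, vt w, v] : Fin 3 → Fin 45) ∘ (0 : Fin 3).succAbove) < _
      rw [(vec3_succAbove _ _ _).1, rkE_vec, hwv]
      exact hm.2.2.1
    · exact absurd rfl hj
    · show rkE ((![u, vt w, v] : Fin 3 → Fin 45) ∘ (2 : Fin 3).succAbove) < _
      rw [(vec3_succAbove _ _ _).2.2, rkE_vec, hwv]
      exact hm.2.2.2
  · -- v < w
    rw [if_neg h2] at hm ⊢
    simp only [andB_eq, blt_iff] at hm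
    have hYw : YV u v w = OFF14 := Nat.eq_of_beq_eq_true hm.2.1
    have hne : T3.get (c3 u v w) ≠ 0 := by
      intro h
      unfold YV at hYw
      rw [h] at hYw
      exact absurd hYw (by decide)
    have hw45 : w < 45 := by
      have := T3_info (by omega) hw64 hne
      simp only [chk3', andB_eq, blt_iff] at this
      exact this.2.2.1
    have hwv : (vt w).val = w := val_vt hw45
    refine hE_aux ![u, v] u v (vt w) (by rw [hwv]; exact hYw) 2 (vec3_succAbove _ _ _).2.2 ?_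
    intro j hj
    fin_cases j
    · show rkE ((![u, v, vt w] : Fin 3 → Fin 45) ∘ (0 : Fin 3).succAbove) < _
      rw [(vec3_succAbove _ _ _).1, rkE_vec, hwv]
      exact hm.2.2.1
    · show rkE ((![u, v, vt w] : Fin 3 → Fin 45) ∘ (1 : Fin 3).succAbove) < _
      rw [(vec3_succAbove _ _ _).2.1, rkE_vec, hwv]
      exact hm.2.2.2
    · exact absurd rfl hj

theorem rho_mem {x y z w : Fin 45} (h1 : x < y) (h2 : y < z) (h3 : z < w)
    {e1 e2 e3 e4 e5 : ℕ} (hF : FT.get (mask5 e1 e2 e3 e4 e5) ≠ 0)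
    (hx : ∀ q : Fin 45, q = x ∨ q = y ∨ q = z ∨ q = w → q.val = e1 ∨ q.val = e2 ∨ q.val = e3 ∨ q.val = e4 ∨ q.val = e5) :
    ![x, y, z, w] ∈ simp KK 3 := by
  rw [mem_simp, img4]
  refine ⟨vec4_mono h1 h2 h3, face_of_FT (Finset.insert_nonempty _ _) hF ?_⟩
  intro q hq
  rw [Finset.mem_insert, Finset.mem_insert, Finset.mem_insert, Finset.mem_singleton] at hq
  exact hx q hq

theorem hT (t : Fin 3 → Fin 45) (ht : t ∈ simp KK 2) :
    (∃ i, TT i = t) ∨ (∃ e, rkE e ≠ 0 ∧ tE e = t) ∨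
    (∃ ρ ∈ simp KK 3, ∃ j₀ : Fin 4, ρ ∘ j₀.succAbove = t ∧
      ∀ j : Fin 4, j ≠ j₀ → rkT (ρ ∘ j.succAbove) < rkT t) := by
  obtain ⟨a, b, c, rfl⟩ : ∃ a b c, t = ![a, b, c] := ⟨_, _, _, eta3 t⟩
  have hp := nz3_of ht
  have hi := T3_info (a := a) (b := b) (c := c) (by omega) (by omega) hp
  simp only [chk3', andB_eq, blt_iff] at hi
  obtain ⟨hab, hbc, hc45, hFT, -, hk⟩ := hi
  have hab : (a : ℕ) < b := hab
  have hbc : (b : ℕ) < c := hbc
  simp only [kind3, recB] at hk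
  split_ifs at hk with k0 k1 i0 i1
  · -- kind 0
    left
    simp only [andB_eq, blt_iff] at hk
    obtain ⟨h14, hcode⟩ := hk
    refine ⟨⟨_, h14⟩, ?_⟩
    show T3c (nthL TTl (ixOf (T3.get (c3 a b c)))) = _
    rw [Nat.eq_of_beq_eq_true hcode, T3c_c3 (by omega) (by omega), vt_val, vt_val, vt_val]
  · -- kind 1, idx 0 : edge (b, c), third a
    right; left
    simp only [par2, andB_eq, blt_iff] at hk
    obtain ⟨h1, h2⟩ := hk
    have h2 := Nat.eq_of_beq_eq_true h2
    refine ⟨![b, c], h1.ne', ?_⟩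
    have ht' : thE ![b, c] = a := h2
    unfold tE
    rw [ht', if_pos (show (a : ℕ) < ((![b, c] : Fin 2 → Fin 45) 0 : Fin 45) from hab), vt_val]
    rfl
  · -- idx 1 : edge (a, c), third b
    right; left
    simp only [par2, andB_eq, blt_iff] at hk
    obtain ⟨h1, h2⟩ := hk
    have h2 := Nat.eq_of_beq_eq_true h2
    refine ⟨![a, c], h1.ne', ?_⟩
    have ht' : thE ![a, c] = b := h2
    unfold tE
    rw [ht', if_neg (show ¬ (b : ℕ) < ((![a, c] : Fin 2 → Fin 45) 0 : Fin 45) from by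
        show ¬ (b : ℕ) < a; omega),
      if_pos (show (b : ℕ) < ((![a, c] : Fin 2 → Fin 45) 1 : Fin 45) from hbc), vt_val]
    rfl
  · -- idx 2 : edge (a, b), third c
    right; left
    simp only [par2, andB_eq, blt_iff] at hk
    obtain ⟨-, h1, h2⟩ := hk
    have h2 := Nat.eq_of_beq_eq_true h2
    refine ⟨![a, b], h1.ne', ?_⟩
    have ht' : thE ![a, b] = c := h2
    unfold tE
    rw [ht', if_neg (show ¬ (c : ℕ) < ((![a, b] : Fin 2 → Fin 45) 0 : Fin 45) from by
        show ¬ (c : ℕ) < a; omega),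
      if_neg (show ¬ (c : ℕ) < ((![a, b] : Fin 2 → Fin 45) 1 : Fin 45) from by
        show ¬ (c : ℕ) < b; omega), vt_val]
    rfl
  · -- kind 2
    right; right
    rw [andB_eq] at hk
    obtain ⟨-, hl⟩ := hk
    obtain ⟨w, hw⟩ : ∃ w, w = wOf (T3.get (c3 a b c)) := ⟨_, rfl⟩
    have hw45 : w < 45 := by rw [hw]; exact (FT_lt hFT.ne').2.2.2.1
    have hwv : (vt w).val = w := val_vt hw45
    have hrT : rkT ![a, b, c] = rtOf (T3.get (c3 a b c)) := rfl
    rw [← hw] at hl hFT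
    rw [← hrT] at hl
    have hF' : ∀ q : Fin 45, q = a ∨ q = b ∨ q = c ∨ q = vt w →
        q.val = a ∨ q.val = b ∨ q.val = c ∨ q.val = w ∨ q.val = uOf (T3.get (c3 a b c)) := by
      rintro q (rfl | rfl | rfl | rfl)
      · exact Or.inl rfl
      · exact Or.inr (Or.inl rfl)
      · exact Or.inr (Or.inr (Or.inl rfl))
      · exact Or.inr (Or.inr (Or.inr (Or.inl hwv)))
    simp only [low3, recB, blt_iff] at hl
    split_ifs at hl with h1 h2 h3
    · -- w < a
      simp only [andB_eq, blt_iff] at hl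
      refine ⟨![vt w, a, b, c], rho_mem (by rw [Fin.lt_def, hwv]; exact h1) hab hbc hFT.ne'
        (fun q hq => hF' q (by tauto)), 0, (vec4_succAbove _ _ _ _).1, ?_⟩
      intro j hj
      fin_cases j
      · exact absurd rfl hj
      · show rkT ((![vt w, a, b, c] : Fin 4 → Fin 45) ∘ (1 : Fin 4).succAbove) < _
        rw [(vec4_succAbove _ _ _ _).2.1, rkT_vec, hwv]
        exact hl.1
      · show rkT ((![vt w, a, b, c] : Fin 4 → Fin 45) ∘ (2 : Fin 4).succAbove) < _
        rw [(vec4_succAbove _ _ _ _).2.2.1, rkT_vec, hwv]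
        exact hl.2.1
      · show rkT ((![vt w, a, b, c] : Fin 4 → Fin 45) ∘ (3 : Fin 4).succAbove) < _
        rw [(vec4_succAbove _ _ _ _).2.2.2, rkT_vec, hwv]
        exact hl.2.2
    · -- a < w < b
      simp only [andB_eq, blt_iff] at hl
      refine ⟨![a, vt w, b, c], rho_mem (by rw [Fin.lt_def, hwv]; exact hl.1) (by rw [Fin.lt_def, hwv]; exact h2) hbc hFT.ne'
        (fun q hq => hF' q (by tauto)), 1, (vec4_succAbove _ _ _ _).2.1, ?_⟩
      intro j hj
      fin_cases j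
      · show rkT ((![a, vt w, b, c] : Fin 4 → Fin 45) ∘ (0 : Fin 4).succAbove) < _
        rw [(vec4_succAbove _ _ _ _).1, rkT_vec, hwv]
        exact hl.2.1
      · exact absurd rfl hj
      · show rkT ((![a, vt w, b, c] : Fin 4 → Fin 45) ∘ (2 : Fin 4).succAbove) < _
        rw [(vec4_succAbove _ _ _ _).2.2.1, rkT_vec, hwv]
        exact hl.2.2.1
      · show rkT ((![a, vt w, b, c] : Fin 4 → Fin 45) ∘ (3 : Fin 4).succAbove) < _
        rw [(vec4_succAbove _ _ _ _).2.2.2, rkT_vec, hwv]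
        exact hl.2.2.2
    · -- b < w < c
      simp only [andB_eq, blt_iff] at hl
      refine ⟨![a, b, vt w, c], rho_mem hab (by rw [Fin.lt_def, hwv]; exact hl.1) (by rw [Fin.lt_def, hwv]; exact h3) hFT.ne'
        (fun q hq => hF' q (by tauto)), 2, (vec4_succAbove _ _ _ _).2.2.1, ?_⟩
      intro j hj
      fin_cases j
      · show rkT ((![a, b, vt w, c] : Fin 4 → Fin 45) ∘ (0 : Fin 4).succAbove) < _
        rw [(vec4_succAbove _ _ _ _).1, rkT_vec, hwv]
        exact hl.2.1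
      · show rkT ((![a, b, vt w, c] : Fin 4 → Fin 45) ∘ (1 : Fin 4).succAbove) < _
        rw [(vec4_succAbove _ _ _ _).2.1, rkT_vec, hwv]
        exact hl.2.2.1
      · exact absurd rfl hj
      · show rkT ((![a, b, vt w, c] : Fin 4 → Fin 45) ∘ (3 : Fin 4).succAbove) < _
        rw [(vec4_succAbove _ _ _ _).2.2.2, rkT_vec, hwv]
        exact hl.2.2.2
    · -- c < w
      simp only [andB_eq, blt_iff] at hl
      refine ⟨![a, b, c, vt w], rho_mem hab hbc (by rw [Fin.lt_def, hwv]; exact hl.1) hFT.ne'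
        (fun q hq => hF' q (by tauto)), 3, (vec4_succAbove _ _ _ _).2.2.2, ?_⟩
      intro j hj
      fin_cases j
      · show rkT ((![a, b, c, vt w] : Fin 4 → Fin 45) ∘ (0 : Fin 4).succAbove) < _
        rw [(vec4_succAbove _ _ _ _).1, rkT_vec, hwv]
        exact hl.2.1
      · show rkT ((![a, b, c, vt w] : Fin 4 → Fin 45) ∘ (1 : Fin 4).succAbove) < _
        rw [(vec4_succAbove _ _ _ _).2.1, rkT_vec, hwv]
        exact hl.2.2.1
      · show rkT ((![a, b, c, vt w] : Fin 4 → Fin 45) ∘ (2 : Fin 4).succAbove) < _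
        rw [(vec4_succAbove _ _ _ _).2.2.1, rkT_vec, hwv]
        exact hl.2.2.2
      · exact absurd rfl hj

theorem spans (z : (Fin 3 → Fin 45) → ℝ) (hz : IsCocycle (k := 2) KK z) :
    ∃ (c : Fin 14 → ℝ) (b : (Fin 2 → Fin 45) → ℝ),
      ∀ t ∈ simp KK 2, z t = ∑ i, c i * yy i t + cobd (k := 1) b t :=
  sp2 45 KK 14 yy TT rkE tE rkT yy_cocycle yy_TT hE hT z hz

theorem b_plus_minus : IsBplus KK oo 5 ∧ IsBminus KK oo 9 := by
  refine bpm stk 45 KK oo fundCycle 5 9 (fun a => comb (pvec a)) (fun a => comb (mvec a))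
    (fun a => comb_cocycle _) (fun a => comb_cocycle _) ?_ ?_ ?_ ?_ ⟨yy, spans⟩
  · intro a b hab
    rw [eval_comb, pp_orth a b hab]
    simp
  · intro a b hab
    rw [eval_comb, mm_orth a b hab]
    simp
  · intro a
    rw [eval_comb]
    exact_mod_cast pp_pos a
  · intro a
    rw [eval_comb]
    exact_mod_cast mm_neg a


end Pool.T4
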