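import Pool.Agent.H11.T4.Wrd2
import Pool.Agent.H11.T4.Spa
import Pool.Agent.H11.T4.LK0
import Pool.Agent.H11.T4.LK1
import Pool.Agent.H11.T4.LK2
import Pool.Agent.H11.T4.LK3
import Pool.Agent.H11.T4.LK4
import Pool.Agent.H11.T4.LK5
import Pool.Agent.H11.T4.LK6
import Pool.Agent.H11.T4.LK7
import Pool.Agent.H11.T4.LK8
import Pool.Agent.H29.T4.MAN
import Pool.Agent.H29.T4.SIM
import Pool.Agent.H29.T4.WIN
import Pool.Agent.H58.T4.STA
import Pool.Agent.H67.T4.FLP
import Pool.Agent.H50.T4.TOP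
import Pool.Agent.H19.T4.FMP
import Pool.Agent.H5.T4.ALT
import Pool.Agent.H5.T4.CVX
import Pool.Agent.H66.T4.CLS
import Pool.Agent.H2.T4.PIA

/-!
# Assembly
-/

open Finset

namespace Pool.T4

open C45

attribute [local irreducible] Tr.get FC FM T2 T3 TW FT

theorem xx_edge {c : ℕ} (hc : c ∈ FC) (i : Fin 4) (s : Fin 2 → Fin 45) (a b : Fin 5)
    (h0 : s 0 = T5 c a) (h1 : s 1 = T5 c b) : xx i s = dgI i (XV (v5 c a) (v5 c b)) := by
  unfold xx
  rw [h0, h1, val_T5 hc, val_T5 hc]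
  rfl

/-- the degree -/
theorem degree_eq : degreeOf KK oo xx = 2 := by
  rw [← kdeg, sumZ_eq]
  unfold degreeOf evalOn
  rw [sum_simp4]
  congr 1
  apply List.map_congr_left
  intro c hc
  show ((oo (T5 c) : ℤ) : ℤ) * (xx 0 _ * xx 1 _ * xx 2 _ * xx 3 _) = degT c
  rw [sgF_T5 hc, xx_edge hc 0 _ 0 1 rfl rfl, xx_edge hc 1 _ 1 2 rfl rfl, xx_edge hc 2 _ 2 3 rfl rfl,
    xx_edge hc 3 _ 3 4 rfl rfl]
  rfl

/-- all links are reducible to the boundary of a 4-simplex -/
theorem links (v : Fin 45) : Reduces (link KK v) := by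
  have h : link KK v = fam 45 (linkM (2 ^ (v : ℕ)) FM) := link_ofMasks kCov v
  rw [h]
  fin_cases v
  exacts [red_0, red_1, red_2, red_3, red_4, red_5, red_6, red_7, red_8, red_9, red_10, red_11, red_12,
    red_13, red_14, red_15, red_16, red_17, red_18, red_19, red_20, red_21, red_22, red_23, red_24,
    red_25, red_26, red_27, red_28, red_29, red_30, red_31, red_32, red_33, red_34, red_35, red_36,
    red_37, red_38, red_39, red_40, red_41, red_42, red_43, red_44]

theorem manifold : Nonempty (ChartedSpace (EuclideanSpace ℝ (Fin 4)) (Geom KK)) :=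
  man flp sim sta 45 KK links

theorem topology : CompactSpace (Geom KK) ∧ T2Space (Geom KK) ∧ ConnectedSpace (Geom KK) := by
  obtain ⟨h1, h2, h3⟩ := top 45 KK
  have := h3 (vt root) conn
  exact ⟨h1, h2, inferInstance⟩

theorem map_exists : ∃ f : C(Geom KK, Torus4), IsMapOf KK xx f ∧
    ∀ p : Geom KK, Function.Bijective (FundamentalGroup.map f p) := by
  obtain ⟨f, hf⟩ := fmp alt_stmt 45 KK xx xx_cocycle
  exact ⟨f, hf, pia (edg cvx cls) win 45 KK xx f (vt root) conn hf (abelianPi _) loops⟩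

end Pool.T4
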