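import Pool.Agent.H11.T4.Coc

/-!
# The Gram matrix of the intersection form
-/

open Finset

namespace Pool.T4

open C45

/-- signed digit -/
def dI (i Y : ℕ) : ℤ := (dg i Y : ℤ) - 16

theorem dI_bound (i Y : ℕ) : |dI i Y| ≤ 48 := by
  unfold dI dg
  have := Nat.mod_lt (Y / 64 ^ i) (by norm_num : 0 < 64)
  rw [abs_le]
  omega

theorem repk_eq (B : ℕ) : ∀ (m Y : ℕ), repk m B Y = ∑ i ∈ range m, dg i Y * B ^ i := by
  intro m
  induction m with
  | zero => intro Y; rfl
  | succ m ih =>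
    intro Y
    show (Y % 64) + B * (repk m B (Y / 64)) = _
    rw [ih, Finset.sum_range_succ', Finset.mul_sum, dg_zero, pow_zero, mul_one, add_comm]
    congr 1
    apply Finset.sum_congr rfl
    intro i _
    rw [dg_succ, pow_succ]
    ring

theorem dg_OFF14 : ∀ i ∈ range 14, dg i OFF14 = 16 := by decide

theorem repk_sub (B Y : ℕ) :
    ((repk 14 B Y : ℕ) : ℤ) - ((repk 14 B OFF14 : ℕ) : ℤ) = ∑ i ∈ range 14, dI i Y * (B : ℤ) ^ i := by
  rw [repk_eq, repk_eq]
  push_cast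
  rw [← Finset.sum_sub_distrib]
  apply Finset.sum_congr rfl
  intro i hi
  rw [dg_OFF14 i hi, dI]
  push_cast
  ring

/-- values of the packed cocycles on front and back face of a facet -/
noncomputable def YF (c : ℕ) : ℕ := YV (fa c) (fb c) (fc c)
noncomputable def YB (c : ℕ) : ℕ := YV (fc c) (fd c) (fe c)

/-- entries of the Gram matrix (sum over a list of facets) -/
noncomputable def EE (l : List ℕ) (i j : ℕ) : ℤ :=
  (l.map (fun c => sgI c * (dI i (YF c) * dI j (YB c)))).sum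

theorem grT_eq (c : ℕ) : grT c = sgI c * ((∑ i ∈ range 14, dI i (YF c) * (C1 : ℤ) ^ i) *
    (∑ j ∈ range 14, dI j (YB c) * (C2 : ℤ) ^ j)) := by
  rw [← repk_sub, ← repk_sub]
  rfl

theorem sumZ_cons (f : ℕ → ℤ) (c : ℕ) (l : List ℕ) : sumZ f (c :: l) = f c + sumZ f l := rfl
theorem sumZ_nil (f : ℕ → ℤ) : sumZ f [] = 0 := rfl

theorem sumZ_eq (f : ℕ → ℤ) (l : List ℕ) : sumZ f l = (l.map f).sum := by
  induction l with
  | nil => rfl
  | cons c l ih => rw [sumZ_cons, ih, List.map_cons, List.sum_cons]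

theorem EE_cons (c : ℕ) (l : List ℕ) (i j : ℕ) :
    EE (c :: l) i j = sgI c * (dI i (YF c) * dI j (YB c)) + EE l i j := rfl

theorem sumgr (l : List ℕ) : sumZ grT l =
    ∑ j ∈ range 14, (∑ i ∈ range 14, EE l i j * (C1 : ℤ) ^ i) * (C2 : ℤ) ^ j := by
  induction l with
  | nil =>
    rw [sumZ_nil]
    symm
    apply Finset.sum_eq_zero
    intro j _
    rw [Finset.sum_eq_zero, zero_mul]
    intro i _
    show (0 : ℤ) * _ = 0
    rw [zero_mul]
  | cons c l ih =>
    rw [sumZ_cons, ih, grT_eq]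
    have h1 : ∀ j, (∑ i ∈ range 14, EE (c :: l) i j * (C1 : ℤ) ^ i) * (C2 : ℤ) ^ j =
        sgI c * ((∑ i ∈ range 14, dI i (YF c) * (C1 : ℤ) ^ i) * (dI j (YB c) * (C2 : ℤ) ^ j)) +
        (∑ i ∈ range 14, EE l i j * (C1 : ℤ) ^ i) * (C2 : ℤ) ^ j := by
      intro j
      have : ∑ i ∈ range 14, EE (c :: l) i j * (C1 : ℤ) ^ i =
          sgI c * (∑ i ∈ range 14, dI i (YF c) * (C1 : ℤ) ^ i) * dI j (YB c) +
          ∑ i ∈ range 14, EE l i j * (C1 : ℤ) ^ i := by
        rw [Finset.mul_sum, Finset.sum_mul, ← Finset.sum_add_distrib]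
        apply Finset.sum_congr rfl
        intro i _
        rw [EE_cons]
        ring
      rw [this]
      ring
    rw [Finset.sum_congr rfl (fun j _ => h1 j), Finset.sum_add_distrib, ← Finset.mul_sum, ← Finset.mul_sum]

theorem uniq_digits (B M : ℤ) (hB : 2 * M < B) : ∀ (n : ℕ) (a b : ℕ → ℤ),
    (∀ i < n, |a i| ≤ M) → (∀ i < n, |b i| ≤ M) →
    ∑ i ∈ range n, a i * B ^ i = ∑ i ∈ range n, b i * B ^ i → ∀ i < n, a i = b i := by
  intro n
  induction n with
  | zero => intro a b _ _ _ i hi; exact absurd hi (Nat.not_lt_zero i)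
  | succ n ih =>
    intro a b ha hb h
    rw [Finset.sum_range_succ', Finset.sum_range_succ', pow_zero, mul_one, mul_one] at h
    have e1 : ∀ c : ℕ → ℤ, ∑ i ∈ range n, c (i + 1) * B ^ (i + 1) = B * ∑ i ∈ range n, c (i + 1) * B ^ i := by
      intro c
      rw [Finset.mul_sum]
      exact Finset.sum_congr rfl fun i _ => by ring
    rw [e1, e1] at h
    have h0 : a 0 - b 0 = B * (∑ i ∈ range n, b (i + 1) * B ^ i - ∑ i ∈ range n, a (i + 1) * B ^ i) := by
      linarith
    have ha0 := abs_le.1 (ha 0 (Nat.succ_pos n))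
    have hb0 := abs_le.1 (hb 0 (Nat.succ_pos n))
    have hM : 0 ≤ M := (abs_nonneg _).trans (ha 0 (Nat.succ_pos n))
    have hd : ∑ i ∈ range n, b (i + 1) * B ^ i - ∑ i ∈ range n, a (i + 1) * B ^ i = 0 := by
      by_contra hne
      rcases lt_or_gt_of_ne hne with hlt | hgt
      · nlinarith
      · nlinarith
    rw [hd, mul_zero] at h0
    have h1 : ∑ i ∈ range n, a (i + 1) * B ^ i = ∑ i ∈ range n, b (i + 1) * B ^ i := by linarith
    have h2 := ih (fun i => a (i + 1)) (fun i => b (i + 1)) (fun i hi => ha _ (by omega))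
      (fun i hi => hb _ (by omega)) h1
    intro i hi
    cases i with
    | zero => linarith
    | succ i => exact h2 i (by omega)

theorem sgI_pm (c : ℕ) : sgI c = 1 ∨ sgI c = -1 := by
  show @Bool.rec (fun _ => ℤ) (-1) 1 (Nat.beq (sgF c) 1) = 1 ∨ @Bool.rec (fun _ => ℤ) (-1) 1 (Nat.beq (sgF c) 1) = -1
  cases Nat.beq (sgF c) 1
  · exact Or.inr rfl
  · exact Or.inl rfl

theorem EE_bound (l : List ℕ) (i j : ℕ) : |EE l i j| ≤ 2304 * l.length := by
  induction l with
  | nil => simp [EE]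
  | cons c l ih =>
    rw [EE_cons, List.length_cons]
    have h1 : |sgI c * (dI i (YF c) * dI j (YB c))| ≤ 2304 := by
      have h2 : |dI i (YF c) * dI j (YB c)| ≤ 48 * 48 := by
        rw [abs_mul]
        exact mul_le_mul (dI_bound _ _) (dI_bound _ _) (abs_nonneg _) (by norm_num)
      rcases sgI_pm c with h | h
      · rw [h, one_mul]; linarith
      · rw [h, neg_one_mul, abs_neg]; linarith
    have h2 := abs_add_le (sgI c * (dI i (YF c) * dI j (YB c))) (EE l i j)
    push_cast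
    linarith

/-- entries of the matrix of the data -/
def gg (j i : ℕ) : ℤ := (GG.getD j []).getD i 0

theorem hornZ_eq (B : ℤ) (l : List ℤ) : hornZ B l = ∑ i ∈ range l.length, l.getD i 0 * B ^ i := by
  induction l with
  | nil => rfl
  | cons a l ih =>
    show a + B * hornZ B l = _
    rw [ih, List.length_cons, Finset.sum_range_succ', Finset.mul_sum, pow_zero, mul_one, add_comm]
    congr 1
    apply Finset.sum_congr rfl
    intro i _
    rw [List.getD_cons_succ]
    ring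

theorem hornG_eq (l : List (List ℤ)) : hornG l =
    ∑ j ∈ range l.length, hornZ (C1 : ℤ) (l.getD j []) * (C2 : ℤ) ^ j := by
  induction l with
  | nil => rfl
  | cons a l ih =>
    show hornZ (C1 : ℤ) a + (C2 : ℤ) * hornG l = _
    rw [ih, List.length_cons, Finset.sum_range_succ', Finset.mul_sum, pow_zero, mul_one, add_comm]
    congr 1
    apply Finset.sum_congr rfl
    intro i _
    rw [List.getD_cons_succ]
    ring

theorem GG_len : GG.length = 14 := by decide +kernel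
theorem GG_len' : ∀ j ∈ range 14, (GG.getD j []).length = 14 := by decide +kernel
theorem GG_bound : ∀ j ∈ range 14, ∀ i ∈ range 14, |gg j i| ≤ 3267072 := by decide +kernel

attribute [local irreducible] Tr.get FC FM T2 T3 TW FT

theorem EE_eq (i j : ℕ) (hi : i < 14) (hj : j < 14) : EE FC i j = gg j i := by
  have h0 := kgr
  rw [sumgr, hornG_eq, GG_len] at h0
  have h1 : ∀ j ∈ range 14, hornZ (C1 : ℤ) (GG.getD j []) * (C2 : ℤ) ^ j =
      (∑ i ∈ range 14, gg j i * (C1 : ℤ) ^ i) * (C2 : ℤ) ^ j := by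
    intro j hj
    rw [hornZ_eq, GG_len' j hj]
    rfl
  rw [Finset.sum_congr rfl h1] at h0
  have hE : ∀ i j, |EE FC i j| ≤ 3267072 := by
    intro i j
    have := EE_bound FC i j
    rw [kLen] at this
    norm_num at this
    exact this
  have hin : ∀ a : ℕ → ℤ, (∀ i < 14, |a i| ≤ 3267072) →
      |∑ i ∈ range 14, a i * (C1 : ℤ) ^ i| ≤ 3267072 * ∑ i ∈ range 14, (C1 : ℤ) ^ i := by
    intro a ha
    refine (Finset.abs_sum_le_sum_abs _ _).trans ?_
    rw [Finset.mul_sum]
    apply Finset.sum_le_sum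
    intro i hi
    rw [abs_mul, abs_of_nonneg (pow_nonneg (Int.natCast_nonneg _) i : (0 : ℤ) ≤ (C1 : ℤ) ^ i)]
    exact mul_le_mul_of_nonneg_right (ha i (Finset.mem_range.1 hi)) (pow_nonneg (Int.natCast_nonneg _) i)
  have hbig : 2 * (3267072 * ∑ i ∈ range 14, (C1 : ℤ) ^ i) < (C2 : ℤ) := by decide +kernel
  have h2 := uniq_digits (C2 : ℤ) _ hbig 14 (fun j => ∑ i ∈ range 14, EE FC i j * (C1 : ℤ) ^ i)
    (fun j => ∑ i ∈ range 14, gg j i * (C1 : ℤ) ^ i)
    (fun j _ => hin _ (fun i _ => hE i j))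
    (fun j hj => hin _ (fun i hi => GG_bound j (Finset.mem_range.2 hj) i (Finset.mem_range.2 hi))) h0 j hj
  have hsm : 2 * (3267072 : ℤ) < (C1 : ℤ) := by decide +kernel
  exact uniq_digits (C1 : ℤ) _ hsm 14 (fun i => EE FC i j) (fun i => gg j i) (fun i _ => hE i j)
    (fun i hi => GG_bound j (Finset.mem_range.2 hj) i (Finset.mem_range.2 hi)) h2 i hi

theorem yz_front {c : ℕ} (hc : c ∈ FC) (i : Fin 14) (s : Fin 3 → Fin 45)
    (h0 : s 0 = T5 c 0) (h1 : s 1 = T5 c 1) (h2 : s 2 = T5 c 2) : yz i s = dI i (YF c) := by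
  unfold yz dI YF
  rw [h0, h1, h2, val_T5 hc, val_T5 hc, val_T5 hc]
  rfl

theorem yz_back {c : ℕ} (hc : c ∈ FC) (i : Fin 14) (s : Fin 3 → Fin 45)
    (h0 : s 0 = T5 c 2) (h1 : s 1 = T5 c 3) (h2 : s 2 = T5 c 4) : yz i s = dI i (YB c) := by
  unfold yz dI YB
  rw [h0, h1, h2, val_T5 hc, val_T5 hc, val_T5 hc]
  rfl

theorem cast_list_sum (l : List ℤ) : ((l.sum : ℤ) : ℝ) = (l.map (fun z : ℤ => (z : ℝ))).sum := by
  induction l with
  | nil => simp
  | cons a l ih => rw [List.sum_cons, List.map_cons, List.sum_cons, ← ih]; push_cast; rfl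

theorem gram_eq (i j : Fin 14) :
    evalOn KK oo (cup (k := 2) (l := 2) (yy i) (yy j)) = (gg j i : ℝ) := by
  rw [← EE_eq i j i.2 j.2]
  unfold evalOn EE
  rw [sum_simp4, cast_list_sum, List.map_map]
  congr 1
  apply List.map_congr_left
  intro c hc
  show (oo (T5 c) : ℝ) * (yy i _ * yy j _) = ((sgI c * (dI i (YF c) * dI j (YB c)) : ℤ) : ℝ)
  rw [sgF_T5 hc]
  unfold yy
  rw [yz_front hc i _ rfl rfl rfl, yz_back hc j _ rfl rfl rfl]
  push_cast
  ring

/-- integral combination of the fourteen cocycles -/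
noncomputable def comb (u : Fin 14 → ℤ) (s : Fin 3 → Fin 45) : ℝ := ∑ i, (u i : ℝ) * yy i s

theorem comb_cocycle (u : Fin 14 → ℤ) : IsCocycle (k := 2) KK (comb u) := by
  intro s hs
  have h : cobd (k := 2) (comb u) s = ∑ i, cobd (k := 2) (fun t => (u i : ℝ) * yy i t) s :=
    cobd_sum Finset.univ (fun i t => (u i : ℝ) * yy i t) s
  rw [h]
  apply Finset.sum_eq_zero
  intro i _
  rw [cobd_smul, yy_cocycle i s hs, mul_zero]

theorem eval_comb (u v : Fin 14 → ℤ) :
    evalOn KK oo (cup (k := 2) (l := 2) (comb u) (comb v)) = ((∑ i, ∑ j, u i * v j * gg j i : ℤ) : ℝ) := by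
  have h1 : ∀ s : Fin 5 → Fin 45, cup (k := 2) (l := 2) (comb u) (comb v) s =
      ∑ i, ∑ j, (u i : ℝ) * (v j : ℝ) * cup (k := 2) (l := 2) (yy i) (yy j) s := by
    intro s
    unfold cup comb
    rw [Finset.sum_mul_sum]
    apply Finset.sum_congr rfl
    intro i _
    apply Finset.sum_congr rfl
    intro j _
    ring
  unfold evalOn
  simp only [h1]
  have h2 : ∀ s, (oo s : ℝ) * ∑ i, ∑ j, (u i : ℝ) * (v j : ℝ) * cup (k := 2) (l := 2) (yy i) (yy j) s =
      ∑ i, ∑ j, (u i : ℝ) * (v j : ℝ) * ((oo s : ℝ) * cup (k := 2) (l := 2) (yy i) (yy j) s) := by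
    intro s
    rw [Finset.mul_sum]
    apply Finset.sum_congr rfl
    intro i _
    rw [Finset.mul_sum]
    apply Finset.sum_congr rfl
    intro j _
    ring
  rw [Finset.sum_congr rfl (fun s _ => h2 s), Finset.sum_comm]
  push_cast
  apply Finset.sum_congr rfl
  intro i _
  rw [Finset.sum_comm]
  apply Finset.sum_congr rfl
  intro j _
  rw [← Finset.mul_sum, ← gram_eq]
  rfl

/-- rows of the coefficient matrices -/
def pvec (a : Fin 5) (i : Fin 14) : ℤ := (PP.getD a []).getD i 0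
def mvec (a : Fin 9) (i : Fin 14) : ℤ := (MM.getD a []).getD i 0

theorem pp_orth : ∀ a b : Fin 5, a ≠ b → ∑ i, ∑ j, pvec a i * pvec b j * gg j i = 0 := by decide +kernel
theorem mm_orth : ∀ a b : Fin 9, a ≠ b → ∑ i, ∑ j, mvec a i * mvec b j * gg j i = 0 := by decide +kernel
theorem pp_pos : ∀ a : Fin 5, 0 < ∑ i, ∑ j, pvec a i * pvec a j * gg j i := by decide +kernel
theorem mm_neg : ∀ a : Fin 9, ∑ i, ∑ j, mvec a i * mvec a j * gg j i < 0 := by decide +kernel

end Pool.T4
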