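import Pool.Agent.H11.T4.Chk2

/-!
# Kernel evaluations of the checks
-/

set_option maxRecDepth 100000

namespace Pool.T4

theorem kA : allL chkA FC = true := by decide +kernel
theorem kB : allL (onF chkB') FC = true := by decide +kernel
theorem kC : allL (onF chkC') FC = true := by decide +kernel
theorem kD : allL (onF chkD') FC = true := by decide +kernel
theorem kE : allL (onF chkE') FC = true := by decide +kernel
theorem k2 : T2.all chk2 = true := by decide +kernel
theorem k3 : T3.all chk3 = true := by decide +kernel
theorem kM : eqL (maskL FC) FM = true := by decide +kernel
theorem kF : eqL (FT.keysA []) FM = true := by decide +kernel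
theorem kFM : incL FM 0 = true := by decide +kernel
theorem kT2 : incL (T2.keysA []) 0 = true := by decide +kernel
theorem kT3 : incL (T3.keysA []) 0 = true := by decide +kernel
theorem kT : chkT 14 = true := by decide +kernel
theorem kCov : ∀ v : Fin 45, ∃ m ∈ FM, m.testBit v = true := by decide +kernel
theorem kLen : FC.length = 1418 := by decide +kernel
theorem kLen2 : (T2.keysA []).length = 820 := by decide +kernel
theorem kLen3 : (T3.keysA []).length = 2910 := by decide +kernel

end Pool.T4
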