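import Pool.Agent.H11.T4.Stmts

/-!
# Kernel certificates for `Reduces`: families of sets given by lists of bit masks, flips
-/

open Finset

namespace Pool.T4

/-- the set of bits (below `n`) of a mask -/
def bitsF (n m : ℕ) : Finset (Fin n) := univ.filter fun v => m.testBit v = true

theorem mem_bitsF {n m : ℕ} {v : Fin n} : v ∈ bitsF n m ↔ m.testBit v = true := by
  simp [bitsF]

/-- the family of all subsets of the masks of a list -/
def fam (n : ℕ) (L : List ℕ) : Set (Finset (Fin n)) := {s | ∃ m ∈ L, s ⊆ bitsF n m}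

theorem bitsF_subset_of_land {n a b : ℕ} (h : Nat.land a b = a) : bitsF n a ⊆ bitsF n b := by
  intro v hv
  rw [mem_bitsF] at *
  have h2 : (a &&& b).testBit v = a.testBit v := by
    show (Nat.land a b).testBit v = a.testBit v
    rw [h]
  rw [Nat.testBit_and, hv] at h2
  simpa using h2

theorem land_of_bitsF_subset {n a b : ℕ} (ha : a < 2 ^ n) (h : bitsF n a ⊆ bitsF n b) :
    Nat.land a b = a := by
  show a &&& b = a
  apply Nat.eq_of_testBit_eq
  intro i
  rw [Nat.testBit_and]
  by_cases hi : a.testBit i = true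
  · have hin : i < n := by
      by_contra hc
      have : a.testBit i = false := Nat.testBit_lt_two_pow (lt_of_lt_of_le ha (Nat.pow_le_pow_right (by norm_num) (not_lt.1 hc)))
      rw [this] at hi
      exact Bool.noConfusion hi
    have := h (mem_bitsF (n := n) (v := ⟨i, hin⟩) |>.2 hi)
    rw [mem_bitsF] at this
    rw [hi]
    simpa using this
  · rw [Bool.not_eq_true] at hi
    simp [hi]

theorem bitsF_lor {n a b : ℕ} : bitsF n (Nat.lor a b) = bitsF n a ∪ bitsF n b := by
  ext v
  rw [mem_bitsF, mem_union, mem_bitsF, mem_bitsF]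
  show (a ||| b).testBit v = true ↔ _
  rw [Nat.testBit_or]
  simp

/-- power of two test -/
def isPow (x : ℕ) : Bool := Nat.beq x (Nat.pow 2 (Nat.log2 x))

theorem isPow_spec {x : ℕ} (h : isPow x = true) : ∃ k, x = 2 ^ k :=
  ⟨Nat.log2 x, Nat.eq_of_beq_eq_true h⟩

/-- pass through a list of masks: no mask contains `B`; masks containing `A` are inside `U` with
one bit missing (these missing bits are collected in `cov`); the others are collected in `acc`. -/
noncomputable def goL (A B U : ℕ) (k : List ℕ → ℕ → Bool) (l : List ℕ) : List ℕ → ℕ → Bool :=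
  @List.rec ℕ (fun _ => List ℕ → ℕ → Bool) k
   (fun m _ ih acc cov => @Bool.rec (fun _ => Bool)
      (@Bool.rec (fun _ => Bool) (ih (m :: acc) cov)
        (@Bool.rec (fun _ => Bool) false
          (@Bool.rec (fun _ => Bool) false (ih acc (Nat.lor cov (Nat.xor U m)))
            (isPow (Nat.xor U m)))
          (Nat.beq (Nat.land m U) m))
        (Nat.beq (Nat.land A m) A)) false (Nat.beq (Nat.land B m) B)) l

theorem goL_nil (A B U : ℕ) (k : List ℕ → ℕ → Bool) (acc : List ℕ) (cov : ℕ) :
    goL A B U k [] acc cov = k acc cov := rfl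

theorem goL_cons (A B U : ℕ) (k : List ℕ → ℕ → Bool) (m : ℕ) (l acc : List ℕ) (cov : ℕ) :
    goL A B U k (m :: l) acc cov =
      if Nat.beq (Nat.land B m) B then false else
      if Nat.beq (Nat.land A m) A then
        (if Nat.beq (Nat.land m U) m then
          (if isPow (Nat.xor U m) then goL A B U k l acc (Nat.lor cov (Nat.xor U m)) else false)
          else false)
      else goL A B U k l (m :: acc) cov := by
  show @Bool.rec (fun _ => Bool) (@Bool.rec (fun _ => Bool) (goL A B U k l (m :: acc) cov)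
        (@Bool.rec (fun _ => Bool) false
          (@Bool.rec (fun _ => Bool) false (goL A B U k l acc (Nat.lor cov (Nat.xor U m)))
            (isPow (Nat.xor U m)))
          (Nat.beq (Nat.land m U) m))
        (Nat.beq (Nat.land A m) A)) false (Nat.beq (Nat.land B m) B) = _
  cases Nat.beq (Nat.land B m) B <;> cases Nat.beq (Nat.land A m) A <;>
    cases Nat.beq (Nat.land m U) m <;> cases isPow (Nat.xor U m) <;> rfl

theorem goL_spec (A B U : ℕ) (k : List ℕ → ℕ → Bool) : ∀ (l acc : List ℕ) (cov : ℕ),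
    goL A B U k l acc cov = true →
    (∀ m ∈ l, Nat.land B m ≠ B ∧ (Nat.land A m = A → Nat.land m U = m ∧ isPow (Nat.xor U m) = true)) ∧
    ∃ (acc' : List ℕ) (cov' : ℕ), k acc' cov' = true ∧
      (∀ m, m ∈ acc' ↔ (m ∈ acc ∨ (m ∈ l ∧ Nat.land A m ≠ A))) ∧
      (∀ i, cov'.testBit i = true → cov.testBit i = true ∨
        ∃ m ∈ l, Nat.land A m = A ∧ (Nat.xor U m).testBit i = true) := by
  intro l
  induction l with
  | nil =>
    intro acc cov h
    refine ⟨by simp, acc, cov, h, by simp, fun i hi => Or.inl hi⟩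
  | cons m l ih =>
    intro acc cov h
    rw [goL_cons] at h
    by_cases hB : Nat.beq (Nat.land B m) B = true
    · rw [if_pos hB] at h; exact absurd h (by simp)
    rw [if_neg hB] at h
    have hB' : Nat.land B m ≠ B := fun h' => hB (by rw [h']; exact Nat.beq_refl B)
    by_cases hA : Nat.beq (Nat.land A m) A = true
    · rw [if_pos hA] at h
      have hA' : Nat.land A m = A := Nat.eq_of_beq_eq_true hA
      by_cases hU : Nat.beq (Nat.land m U) m = true
      · rw [if_pos hU] at h
        by_cases hp : isPow (Nat.xor U m) = true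
        · rw [if_pos hp] at h
          obtain ⟨h1, acc', cov', hk, hacc, hcov⟩ := ih acc _ h
          refine ⟨?_, acc', cov', hk, ?_, ?_⟩
          · intro m' hm'
            rcases List.mem_cons.1 hm' with rfl | hm'
            · exact ⟨hB', fun _ => ⟨Nat.eq_of_beq_eq_true hU, hp⟩⟩
            · exact h1 m' hm'
          · intro m'
            rw [hacc]
            constructor
            · rintro (h | ⟨h, h'⟩)
              · exact Or.inl h
              · exact Or.inr ⟨List.mem_cons_of_mem _ h, h'⟩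
            · rintro (h | ⟨h, h'⟩)
              · exact Or.inl h
              · rcases List.mem_cons.1 h with rfl | h
                · exact absurd hA' h'
                · exact Or.inr ⟨h, h'⟩
          · intro i hi
            rcases hcov i hi with h | ⟨m', hm', h1', h2'⟩
            · have h3 : (cov ||| Nat.xor U m).testBit i = true := h
              rw [Nat.testBit_or, Bool.or_eq_true] at h3
              rcases h3 with h3 | h3
              · exact Or.inl h3
              · exact Or.inr ⟨m, List.mem_cons_self, hA', h3⟩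
            · exact Or.inr ⟨m', List.mem_cons_of_mem _ hm', h1', h2'⟩
        · rw [if_neg hp] at h; exact absurd h (by simp)
      · rw [if_neg hU] at h; exact absurd h (by simp)
    · rw [if_neg hA] at h
      have hA' : Nat.land A m ≠ A := fun h' => hA (by rw [h']; exact Nat.beq_refl A)
      obtain ⟨h1, acc', cov', hk, hacc, hcov⟩ := ih _ _ h
      refine ⟨?_, acc', cov', hk, ?_, ?_⟩
      · intro m' hm'
        rcases List.mem_cons.1 hm' with rfl | hm'
        · exact ⟨hB', fun h' => absurd h' hA'⟩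
        · exact h1 m' hm'
      · intro m'
        rw [hacc]
        constructor
        · rintro (h | ⟨h, h'⟩)
          · rcases List.mem_cons.1 h with rfl | h
            · exact Or.inr ⟨List.mem_cons_self, hA'⟩
            · exact Or.inl h
          · exact Or.inr ⟨List.mem_cons_of_mem _ h, h'⟩
        · rintro (h | ⟨h, h'⟩)
          · exact Or.inl (List.mem_cons_of_mem _ h)
          · rcases List.mem_cons.1 h with rfl | h
            · exact Or.inl List.mem_cons_self
            · exact Or.inr ⟨h, h'⟩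
      · intro i hi
        rcases hcov i hi with h | ⟨m', hm', h1', h2'⟩
        · exact Or.inl h
        · exact Or.inr ⟨m', List.mem_cons_of_mem _ hm', h1', h2'⟩

/-- check of the new masks: each is `U` minus one bit of `A`, and all bits of `A` occur -/
def newOK (A U : ℕ) : List ℕ → ℕ → Bool
  | [], cov => Nat.beq cov A
  | m :: l, cov => isPow (Nat.xor U m) && Nat.beq (Nat.land (Nat.xor U m) A) (Nat.xor U m) &&
      newOK A U l (Nat.lor cov (Nat.xor U m))

theorem newOK_spec (A U : ℕ) : ∀ (l : List ℕ) (cov : ℕ), newOK A U l cov = true →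
    (∀ m ∈ l, isPow (Nat.xor U m) = true ∧ Nat.land (Nat.xor U m) A = Nat.xor U m) ∧
    (∀ i, A.testBit i = true → cov.testBit i = true ∨ ∃ m ∈ l, (Nat.xor U m).testBit i = true) := by
  intro l
  induction l with
  | nil =>
    intro cov h
    have : cov = A := Nat.eq_of_beq_eq_true h
    subst this
    exact ⟨by simp, fun i hi => Or.inl hi⟩
  | cons m l ih =>
    intro cov h
    simp only [newOK, Bool.and_eq_true] at h
    obtain ⟨⟨h1, h2⟩, h3⟩ := h
    obtain ⟨h4, h5⟩ := ih _ h3
    refine ⟨?_, ?_⟩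
    · intro m' hm'
      rcases List.mem_cons.1 hm' with rfl | hm'
      · exact ⟨h1, Nat.eq_of_beq_eq_true h2⟩
      · exact h4 m' hm'
    · intro i hi
      rcases h5 i hi with h | ⟨m', hm', h⟩
      · have h3 : (cov ||| Nat.xor U m).testBit i = true := h
        rw [Nat.testBit_or, Bool.or_eq_true] at h3
        rcases h3 with h3 | h3
        · exact Or.inl h3
        · exact Or.inr ⟨m, List.mem_cons_self, h3⟩
      · exact Or.inr ⟨m', List.mem_cons_of_mem _ hm', h⟩

/-- the final check: the list consists of the five 4-subsets of the 5-set `S` -/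
def baseOK (n S : ℕ) (L : List ℕ) : Bool :=
  newOK S S L 0 && Nat.blt S (2 ^ n) && Nat.beq (bitsF n S).card 5

/-- run a list of flips `(A, B, new masks)` -/
noncomputable def run (n S : ℕ) (fl : List (ℕ × ℕ × List ℕ)) : List ℕ → Bool :=
  @List.rec (ℕ × ℕ × List ℕ) (fun _ => List ℕ → Bool) (fun L => newOK S S L 0)
   (fun f _ ih L =>
     @Bool.rec (fun _ => Bool) false
      (goL f.1 f.2.1 (Nat.lor f.1 f.2.1)
        (fun acc cov => @Bool.rec (fun _ => Bool) false (ih acc) (Nat.beq (Nat.land f.2.1 cov) f.2.1))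
        L f.2.2 0)
      (Nat.blt (Nat.lor f.1 f.2.1) (2 ^ n) && Nat.blt 0 f.1 && Nat.blt 0 f.2.1 &&
        Nat.beq (Nat.land f.1 f.2.1) 0 && newOK f.1 (Nat.lor f.1 f.2.1) f.2.2 0)) fl

theorem run_nil (n S : ℕ) (L : List ℕ) : run n S [] L = newOK S S L 0 := rfl

theorem run_cons (n S : ℕ) (f : ℕ × ℕ × List ℕ) (fl : List (ℕ × ℕ × List ℕ)) (L : List ℕ) :
    run n S (f :: fl) L =
    if (Nat.blt (Nat.lor f.1 f.2.1) (2 ^ n) && Nat.blt 0 f.1 && Nat.blt 0 f.2.1 &&
        Nat.beq (Nat.land f.1 f.2.1) 0 && newOK f.1 (Nat.lor f.1 f.2.1) f.2.2 0) then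
      goL f.1 f.2.1 (Nat.lor f.1 f.2.1)
        (fun acc cov => if Nat.beq (Nat.land f.2.1 cov) f.2.1 then run n S fl acc else false)
        L f.2.2 0 else false := by
  have h : (fun (acc : List ℕ) (cov : ℕ) => @Bool.rec (fun _ => Bool) false (run n S fl acc)
      (Nat.beq (Nat.land f.2.1 cov) f.2.1)) =
      (fun acc cov => if Nat.beq (Nat.land f.2.1 cov) f.2.1 then run n S fl acc else false) := by
    funext acc cov
    cases Nat.beq (Nat.land f.2.1 cov) f.2.1 <;> rfl
  rw [← h]
  show @Bool.rec (fun _ => Bool) false (goL f.1 f.2.1 (Nat.lor f.1 f.2.1)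
        (fun acc cov => @Bool.rec (fun _ => Bool) false (run n S fl acc)
          (Nat.beq (Nat.land f.2.1 cov) f.2.1)) L f.2.2 0) _ = _
  cases (Nat.blt (Nat.lor f.1 f.2.1) (2 ^ n) && Nat.blt 0 f.1 && Nat.blt 0 f.2.1 &&
        Nat.beq (Nat.land f.1 f.2.1) 0 && newOK f.1 (Nat.lor f.1 f.2.1) f.2.2 0) <;> rfl

/-- `m = U` minus the bit `i` -/
theorem eq_of_isPow {U m i : ℕ} (hp : isPow (Nat.xor U m) = true)
    (hi : (Nat.xor U m).testBit i = true) (j : ℕ) :
    m.testBit j = (if j = i then !(U.testBit i) else U.testBit j) := by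
  obtain ⟨k, hk⟩ := isPow_spec hp
  rw [hk, Nat.testBit_two_pow, decide_eq_true_eq] at hi
  subst hi
  have h1 : (Nat.xor U m).testBit j = (2 ^ k).testBit j := by rw [hk]
  rw [show (Nat.xor U m).testBit j = ((U ^^^ m) : ℕ).testBit j from rfl, Nat.testBit_xor,
    Nat.testBit_two_pow] at h1
  by_cases hj : j = k
  · subst hj
    rw [if_pos rfl]
    revert h1
    cases U.testBit j <;> cases m.testBit j <;> simp
  · rw [if_neg hj]
    rw [decide_eq_false (fun h => hj h.symm)] at h1
    revert h1
    cases U.testBit j <;> cases m.testBit j <;> simp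

theorem exists_bit_lt {n a : ℕ} (h0 : 0 < a) (hn : a < 2 ^ n) : (bitsF n a).Nonempty := by
  obtain ⟨i, hi⟩ := Nat.exists_testBit_of_ne_zero h0.ne'
  have hin : i < n := by
    by_contra hc
    have : a.testBit i = false := Nat.testBit_lt_two_pow (lt_of_lt_of_le hn (Nat.pow_le_pow_right (by norm_num) (not_lt.1 hc)))
    rw [this] at hi
    exact Bool.noConfusion hi
  exact ⟨⟨i, hin⟩, mem_bitsF.2 hi⟩

theorem land_ne_imp {n A m : ℕ} (hA : A < 2 ^ n) (h : Nat.land A m ≠ A) : ¬ bitsF n A ⊆ bitsF n m :=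
  fun h' => h (land_of_bitsF_subset hA h')

theorem isFlip_of_check {n A B : ℕ} {L new acc' : List ℕ} {cov' : ℕ}
    (hU : Nat.lor A B < 2 ^ n) (hA0 : 0 < A) (hB0 : 0 < B) (hAB : Nat.land A B = 0)
    (hnew : newOK A (Nat.lor A B) new 0 = true)
    (h1 : ∀ m ∈ L, Nat.land B m ≠ B ∧
      (Nat.land A m = A → Nat.land m (Nat.lor A B) = m ∧ isPow (Nat.xor (Nat.lor A B) m) = true))
    (hcovB : Nat.land B cov' = B)
    (hacc : ∀ m, m ∈ acc' ↔ (m ∈ new ∨ (m ∈ L ∧ Nat.land A m ≠ A)))
    (hcov : ∀ i, cov'.testBit i = true → (0 : ℕ).testBit i = true ∨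
        ∃ m ∈ L, Nat.land A m = A ∧ (Nat.xor (Nat.lor A B) m).testBit i = true) :
    IsFlip (fam n L) (fam n acc') (bitsF n A) (bitsF n B) := by
  have hA : A < 2 ^ n := lt_of_le_of_lt Nat.left_le_or hU
  have hB : B < 2 ^ n := lt_of_le_of_lt Nat.right_le_or hU
  obtain ⟨hn1, hn2⟩ := newOK_spec _ _ _ _ hnew
  have hUbit : ∀ j, (Nat.lor A B).testBit j = (A.testBit j || B.testBit j) := fun j => by
    show (A ||| B).testBit j = _
    rw [Nat.testBit_or]
  -- facets of the star give all `U \ b`
  have hfull : ∀ s : Finset (Fin n), s ⊆ bitsF n A ∪ bitsF n B → ¬ bitsF n B ⊆ s → s ∈ fam n L := by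
    intro s hs hBs
    obtain ⟨b, hb, hbs⟩ := Finset.not_subset.1 hBs
    rw [mem_bitsF] at hb
    have hcb : cov'.testBit b = true := by
      have : (B &&& cov').testBit b = B.testBit b := by
        show (Nat.land B cov').testBit b = _
        rw [hcovB]
      rw [Nat.testBit_and, hb] at this
      simpa using this
    rcases hcov b hcb with h | ⟨m, hm, hAm, hmb⟩
    · simp at h
    · obtain ⟨-, h2⟩ := h1 m hm
      obtain ⟨-, hp⟩ := h2 hAm
      refine ⟨m, hm, fun v hv => ?_⟩
      rw [mem_bitsF, eq_of_isPow hp hmb]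
      have hvb : (v : ℕ) ≠ b := fun h => hbs (by rw [← Fin.ext h]; exact hv)
      rw [if_neg hvb, hUbit]
      have := hs hv
      rw [mem_union, mem_bitsF, mem_bitsF] at this
      simpa using this
  have hnewmem : ∀ s : Finset (Fin n), s ⊆ bitsF n A ∪ bitsF n B → ¬ bitsF n A ⊆ s →
      ∃ m ∈ new, s ⊆ bitsF n m := by
    intro s hs hAs
    obtain ⟨a, ha, has⟩ := Finset.not_subset.1 hAs
    rw [mem_bitsF] at ha
    rcases hn2 a ha with h | ⟨m, hm, hma⟩
    · simp at h
    · refine ⟨m, hm, fun v hv => ?_⟩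
      rw [mem_bitsF, eq_of_isPow (hn1 m hm).1 hma]
      have hvb : (v : ℕ) ≠ a := fun h => has (by rw [← Fin.ext h]; exact hv)
      rw [if_neg hvb, hUbit]
      have := hs hv
      rw [mem_union, mem_bitsF, mem_bitsF] at this
      simpa using this
  have hnewsub : ∀ m ∈ new, bitsF n m ⊆ bitsF n A ∪ bitsF n B ∧ ¬ bitsF n A ⊆ bitsF n m := by
    intro m hm
    obtain ⟨hp, hpa⟩ := hn1 m hm
    obtain ⟨k, hk⟩ := isPow_spec hp
    have hkk : (Nat.xor (Nat.lor A B) m).testBit k = true := by
      rw [hk, Nat.testBit_two_pow]; simp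
    have hAk : A.testBit k = true := by
      have : (Nat.xor (Nat.lor A B) m &&& A).testBit k = (Nat.xor (Nat.lor A B) m).testBit k := by
        show (Nat.land (Nat.xor (Nat.lor A B) m) A).testBit k = _
        rw [hpa]
      rw [Nat.testBit_and, hkk] at this
      simpa using this
    have hkn : k < n := by
      by_contra hc
      have : A.testBit k = false := Nat.testBit_lt_two_pow (lt_of_lt_of_le hA (Nat.pow_le_pow_right (by norm_num) (not_lt.1 hc)))
      rw [this] at hAk
      exact Bool.noConfusion hAk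
    have hmk : m.testBit k = false := by
      rw [eq_of_isPow hp hkk, if_pos rfl, hUbit, hAk]
      rfl
    constructor
    · intro v hv
      rw [mem_bitsF, eq_of_isPow hp hkk] at hv
      by_cases hvk : (v : ℕ) = k
      · rw [if_pos hvk, hUbit, hAk] at hv
        simp at hv
      · rw [if_neg hvk, hUbit] at hv
        rw [mem_union, mem_bitsF, mem_bitsF]
        simpa using hv
    · intro h
      have := h (mem_bitsF (n := n) (v := ⟨k, hkn⟩) |>.2 hAk)
      rw [mem_bitsF] at this
      simp only at this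
      rw [hmk] at this
      exact Bool.noConfusion this
  refine ⟨exists_bit_lt hA0 hA, exists_bit_lt hB0 hB, ?_, ?_, ?_, hfull, ?_⟩
  · rw [Finset.disjoint_left]
    intro v hv1 hv2
    rw [mem_bitsF] at hv1 hv2
    have : (A &&& B).testBit v = (0 : ℕ).testBit v := by
      show (Nat.land A B).testBit v = _
      rw [hAB]
    rw [Nat.testBit_and, hv1, hv2] at this
    simp at this
  · rintro s ⟨m, hm, hsm⟩ hAs
    have hAm : Nat.land A m = A := land_of_bitsF_subset hA (hAs.trans hsm)
    have := (h1 m hm).2 hAm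
    have h3 : bitsF n m ⊆ bitsF n (Nat.lor A B) := bitsF_subset_of_land this.1
    rw [bitsF_lor] at h3
    exact hsm.trans h3
  · rintro s ⟨m, hm, hsm⟩ hBs
    exact land_ne_imp hB (h1 m hm).1 (hBs.trans hsm)
  · intro s
    constructor
    · rintro ⟨m, hm, hsm⟩
      rcases (hacc m).1 hm with hm | ⟨hm, hAm⟩
      · obtain ⟨h2, h3⟩ := hnewsub m hm
        have hAs : ¬ bitsF n A ⊆ s := fun h => h3 (h.trans hsm)
        by_cases hBs : bitsF n B ⊆ s
        · exact Or.inr ⟨hBs, hsm.trans h2, hAs⟩
        · exact Or.inl ⟨hfull s (hsm.trans h2) hBs, hAs⟩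
      · exact Or.inl ⟨⟨m, hm, hsm⟩, fun h => land_ne_imp hA hAm (h.trans hsm)⟩
    · rintro (⟨⟨m, hm, hsm⟩, hAs⟩ | ⟨-, hs, hAs⟩)
      · by_cases hAm : Nat.land A m = A
        · have h3 : bitsF n m ⊆ bitsF n (Nat.lor A B) := bitsF_subset_of_land ((h1 m hm).2 hAm).1
          rw [bitsF_lor] at h3
          obtain ⟨m', hm', hs'⟩ := hnewmem s (hsm.trans h3) hAs
          exact ⟨m', (hacc m').2 (Or.inl hm'), hs'⟩
        · exact ⟨m, (hacc m).2 (Or.inr ⟨hm, hAm⟩), hsm⟩
      · obtain ⟨m', hm', hs'⟩ := hnewmem s hs hAs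
        exact ⟨m', (hacc m').2 (Or.inl hm'), hs'⟩

theorem fam_base {n S : ℕ} (hS : S < 2 ^ n) {L : List ℕ} (h : newOK S S L 0 = true) :
    fam n L = {s | s ⊂ bitsF n S} := by
  obtain ⟨h1, h2⟩ := newOK_spec _ _ _ _ h
  ext s
  constructor
  · rintro ⟨m, hm, hsm⟩
    obtain ⟨hp, hpa⟩ := h1 m hm
    obtain ⟨k, hk⟩ := isPow_spec hp
    have hkk : (Nat.xor S m).testBit k = true := by
      rw [hk, Nat.testBit_two_pow]; simp
    have hSk : S.testBit k = true := by
      have : (Nat.xor S m &&& S).testBit k = (Nat.xor S m).testBit k := by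
        show (Nat.land (Nat.xor S m) S).testBit k = _
        rw [hpa]
      rw [Nat.testBit_and, hkk] at this
      simpa using this
    have hkn : k < n := by
      by_contra hc
      have : S.testBit k = false := Nat.testBit_lt_two_pow (lt_of_lt_of_le hS (Nat.pow_le_pow_right (by norm_num) (not_lt.1 hc)))
      rw [this] at hSk
      exact Bool.noConfusion hSk
    have hmk : m.testBit k = false := by
      rw [eq_of_isPow hp hkk, if_pos rfl, hSk]
      rfl
    refine (Finset.ssubset_iff_of_subset ?_).2 ⟨⟨k, hkn⟩, mem_bitsF.2 hSk, fun hks => ?_⟩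
    · intro v hv
      have hv := hsm hv
      rw [mem_bitsF, eq_of_isPow hp hkk] at hv
      by_cases hvk : (v : ℕ) = k
      · rw [if_pos hvk, hSk] at hv
        simp at hv
      · rw [if_neg hvk] at hv
        exact mem_bitsF.2 hv
    · have := hsm hks
      rw [mem_bitsF] at this
      simp only at this
      rw [hmk] at this
      exact Bool.noConfusion this
  · intro hs
    obtain ⟨hss, hne⟩ := (hs : s ⊂ bitsF n S)
    obtain ⟨a, ha, has⟩ := Finset.not_subset.1 hne
    rw [mem_bitsF] at ha
    rcases h2 a ha with h | ⟨m, hm, hma⟩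
    · simp at h
    · refine ⟨m, hm, fun v hv => ?_⟩
      rw [mem_bitsF, eq_of_isPow (h1 m hm).1 hma]
      have hvb : (v : ℕ) ≠ a := fun h => has (by rw [← Fin.ext h]; exact hv)
      rw [if_neg hvb]
      exact mem_bitsF.1 (hss hv)

theorem reduces_of_run {n S : ℕ} (hS : S < 2 ^ n) (hc : (bitsF n S).card = 5) :
    ∀ (fl : List (ℕ × ℕ × List ℕ)) (L : List ℕ), run n S fl L = true → Reduces (fam n L) := by
  intro fl
  induction fl with
  | nil =>
    intro L h
    rw [run_nil] at h
    rw [fam_base hS h]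
    exact Reduces.base _ hc
  | cons f fl ih =>
    intro L h
    rw [run_cons] at h
    split_ifs at h with h0
    simp only [Bool.and_eq_true] at h0
    obtain ⟨⟨⟨⟨hU, hA0⟩, hB0⟩, hAB⟩, hnew⟩ := h0
    obtain ⟨h1, acc', cov', hk, hacc, hcov⟩ := goL_spec _ _ _ _ _ _ _ h
    have hk' : Nat.beq (Nat.land f.2.1 cov') f.2.1 = true ∧ run n S fl acc' = true := by
      split_ifs at hk with h'
      exact ⟨h', hk⟩
    exact Reduces.step _ _ _ _ (isFlip_of_check (by simpa using hU) (by simpa using hA0)
      (by simpa using hB0) (Nat.eq_of_beq_eq_true hAB) hnew h1 (Nat.eq_of_beq_eq_true hk'.1) hacc hcov)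
      (ih acc' hk'.2)

end Pool.T4
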