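import Pool.Agent.H11.T4.Defs

/-!
# Module statements for the project T4 (MP_a3e91b_gt)
-/

open Finset

namespace Pool.T4

/-- finite abstract simplicial complexes with vertices `0, …, n-1` -/
abbrev Cx (n : ℕ) := AbstractSimplicialComplex (Fin n)

/-! ## Part M : the realisation is a manifold -/

/-- the cone over a family of sets: nonnegative vectors whose support is in `L` -/
def Cone {n : ℕ} (L : Set (Finset (Fin n))) : Set (Fin n → ℝ) :=
  {p | (∀ i, 0 ≤ p i) ∧ (univ.filter fun i => p i ≠ 0) ∈ L}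

/-- `L'` arises from `L` by the bistellar flip `A * ∂B → ∂A * B` -/
structure IsFlip {n : ℕ} (L L' : Set (Finset (Fin n))) (A B : Finset (Fin n)) : Prop where
  hA : A.Nonempty
  hB : B.Nonempty
  disj : Disjoint A B
  star : ∀ s ∈ L, A ⊆ s → s ⊆ A ∪ B
  noB : ∀ s ∈ L, ¬ B ⊆ s
  full : ∀ s, s ⊆ A ∪ B → ¬ B ⊆ s → s ∈ L
  new : ∀ s, s ∈ L' ↔ (s ∈ L ∧ ¬ A ⊆ s) ∨ (B ⊆ s ∧ s ⊆ A ∪ B ∧ ¬ A ⊆ s)

/-- families that can be reduced by flips to the boundary of a 4-simplex -/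
inductive Reduces {n : ℕ} : Set (Finset (Fin n)) → Prop
  | base (S : Finset (Fin n)) (h : S.card = 5) : Reduces {s | s ⊂ S}
  | step (L L' : Set (Finset (Fin n))) (A B : Finset (Fin n)) (h : IsFlip L L' A B)
      (hL : Reduces L') : Reduces L

/-- link of a vertex (contains `∅`) -/
def link {n : ℕ} (K : Cx n) (v : Fin n) : Set (Finset (Fin n)) :=
  {s | v ∉ s ∧ insert v s ∈ K.faces}

/-- open star of a vertex in the realisation -/
def openStar {n : ℕ} (K : Cx n) (v : Fin n) : Set (Geom K) := {p | p.1 v ≠ 0}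

/-- FLP: a flip induces a homeomorphism of cones:
`x ↦ x - t 1_A + t 1_B` with `t = min_A x`; the inverse is `y ↦ y - t' 1_B + t' 1_A`, `t' = min_B y`. -/
def FLPStmt : Prop := ∀ (n : ℕ) (L L' : Set (Finset (Fin n))) (A B : Finset (Fin n)),
  IsFlip L L' A B → Nonempty (Cone L ≃ₜ Cone L')

/-- SIM: the cone over the boundary of a 4-simplex is `ℝ⁴`:
`x ↦ (x (s i) - x (s 0))_{i = 1..4}`, inverse `y ↦ z - min z` with `z = (0, y)`. -/
def SIMStmt : Prop := ∀ (n : ℕ) (S : Finset (Fin n)), S.card = 5 →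
  Nonempty (Cone {s : Finset (Fin n) | s ⊂ S} ≃ₜ EuclideanSpace ℝ (Fin 4))

/-- STA: the open star of `v` is open and homeomorphic to the cone over the link of `v`:
`x ↦ (w ↦ if w = v then 0 else x w / x v)`,
inverse `y ↦ (w ↦ if w = v then 1 / (1 + ∑ y) else y w / (1 + ∑ y))`. -/
def STAStmt : Prop := ∀ (n : ℕ) (K : Cx n) (v : Fin n),
  IsOpen (openStar K v) ∧ Nonempty (openStar K v ≃ₜ Cone (link K v))

/-- MAN (assembly of FLP, SIM, STA) -/
def MANStmt : Prop := ∀ (n : ℕ) (K : Cx n), (∀ v, Reduces (link K v)) →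
  Nonempty (ChartedSpace (EuclideanSpace ℝ (Fin 4)) (Geom K))

/-! ## Part P : topology of the realisation, the map `f`, the fundamental group -/

/-- edge paths of `K` -/
inductive EPath {n : ℕ} (K : Cx n) : Fin n → Fin n → Type
  | nil (u : Fin n) : EPath K u u
  | cons {u v w : Fin n} (h : ({u, v} : Finset (Fin n)) ∈ K.faces) (p : EPath K v w) : EPath K u w

/-- value of a function on ordered pairs with values in a monoid along an edge path -/
def EPath.val {n : ℕ} {K : Cx n} {G : Type} [Monoid G] (g : Fin n → Fin n → G) :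
    {u v : Fin n} → EPath K u v → G
  | _, _, .nil _ => 1
  | _, _, @EPath.cons _ _ u v _ _ p => g u v * EPath.val g p

/-- sum of a 1-cochain along an edge path -/
def EPath.sum {n : ℕ} {K : Cx n} (x : (Fin 2 → Fin n) → ℤ) :
    {u v : Fin n} → EPath K u v → ℤ
  | _, _, .nil _ => 0
  | _, _, @EPath.cons _ _ u v _ _ p => alt x u v + EPath.sum x p

/-- TOP: compact, Hausdorff, and path connected if the edge graph is connected -/
def TOPStmt : Prop := ∀ (n : ℕ) (K : Cx n), CompactSpace (Geom K) ∧ T2Space (Geom K) ∧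
  ∀ v₀ : Fin n, (∀ v, Nonempty (EPath K v₀ v)) → PathConnectedSpace (Geom K)

/-- ALT: the alternating extension of a 1-cocycle is additive on triangles (also degenerate ones) -/
def ALTStmt : Prop := ∀ (n : ℕ) (K : Cx n) (x : (Fin 2 → Fin n) → ℤ), IsCocycle (k := 1) K x →
  ∀ u v w : Fin n, ({u, v, w} : Finset (Fin n)) ∈ K.faces → alt x u v + alt x v w = alt x u w

/-- FMP: the map to the torus given by four integral 1-cocycles exists. (On the open star of `v` it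
is `p ↦ ∑ w, p w * alt (x i) v w`; on overlaps the formulas differ by the integer `alt (x i) v v'`.) -/
def FMPStmt : Prop := ∀ (n : ℕ) (K : Cx n) (x : Fin 4 → (Fin 2 → Fin n) → ℤ),
  (∀ i, IsCocycle (k := 1) K (x i)) → ∃ f : C(Geom K, Torus4), IsMapOf K x f

/-- the vertex `v` as a point of the realisation -/
def IsVtx {n : ℕ} {K : Cx n} (v : Fin n) (p : Geom K) : Prop := ∀ i, p.1 i = if i = v then 1 else 0

/-- `γ` is the straight path along the edge from `u` to `v` -/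
def IsSeg {n : ℕ} {K : Cx n} (u v : Fin n) {p q : Geom K} (γ : Path p q) : Prop :=
  ∀ t i, (γ t).1 i = (1 - t.1) * (if i = u then 1 else 0) + t.1 * (if i = v then 1 else 0)

/-- CVX: two paths with the same endpoints that stay in the open star of one vertex `v` are
homotopic (the open star is star-shaped with respect to `v`, hence contractible). -/
def CVXStmt : Prop := ∀ (n : ℕ) (K : Cx n) (v : Fin n) (p q : Geom K) (γ γ' : Path p q),
  (∀ t, (γ t).1 v ≠ 0) → (∀ t, (γ' t).1 v ≠ 0) → γ.Homotopic γ'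

/-- CLS: two paths with the same endpoints that stay in one closed simplex `s` are homotopic
(straight line homotopy). -/
def CLSStmt : Prop := ∀ (n : ℕ) (K : Cx n) (s : Finset (Fin n)), s ∈ K.faces →
  ∀ (p q : Geom K) (γ γ' : Path p q),
  (∀ t, ∀ i ∉ s, (γ t).1 i = 0) → (∀ t, ∀ i ∉ s, (γ' t).1 i = 0) → γ.Homotopic γ'

/-- EDG (uses CVX, CLS): there is a functor from edge paths to homotopy classes of paths in the realisation: vertices
`P v`, a class `E u v` for every pair (the class of the straight path if `{u, v}` is a face), the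
triangle relations hold, and every class of paths between vertices comes from an edge path
(subdivide a path so that the pieces are in open stars). -/
def EDGStmt : Prop := ∀ (n : ℕ) (K : Cx n), ∃ (P : Fin n → Geom K)
  (ev : ∀ {u v : Fin n}, EPath K u v → Path.Homotopic.Quotient (P u) (P v)),
  (∀ v, IsVtx v (P v)) ∧
  (∀ u, ev (.nil u) = .refl (P u)) ∧
  (∀ (u v w : Fin n) (h : ({u, v} : Finset (Fin n)) ∈ K.faces) (e : EPath K v w),
    ev (.cons h e) = (ev (.cons h (.nil v))).trans (ev e)) ∧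
  (∀ (u v : Fin n) (h : ({u, v} : Finset (Fin n)) ∈ K.faces),
    ∃ γ : Path (P u) (P v), IsSeg u v γ ∧ ev (.cons h (.nil v)) = .mk γ) ∧
  (∀ (u v w : Fin n) (_ : ({u, v, w} : Finset (Fin n)) ∈ K.faces)
    (huv : ({u, v} : Finset (Fin n)) ∈ K.faces) (hvw : ({v, w} : Finset (Fin n)) ∈ K.faces)
    (huw : ({u, w} : Finset (Fin n)) ∈ K.faces),
    (ev (.cons huv (.cons hvw (.nil w)))) = ev (.cons huw (.nil w))) ∧
  (∀ (u v : Fin n) (γ : Path.Homotopic.Quotient (P u) (P v)), ∃ e : EPath K u v, ev e = γ)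

/-- WIN: winding numbers of loops in `ℝ/ℤ` at `0`. -/
def WINStmt : Prop := ∃ W : Path.Homotopic.Quotient (0 : AddCircle (1 : ℝ)) 0 → ℤ,
  (∀ p q, W (p.trans q) = W p + W q) ∧ Function.Injective W ∧
  ∀ (m : ℤ) (γ : Path (0 : AddCircle (1 : ℝ)) 0),
    (∀ t : unitInterval, γ t = ((t.1 * m : ℝ) : AddCircle (1 : ℝ))) → W (.mk γ) = m

/-- the edge path group of `K` is detected by the four cocycles `x i` -/
def AbelianPi {n : ℕ} (K : Cx n) (x : Fin 4 → (Fin 2 → Fin n) → ℤ) (v₀ : Fin n) : Prop :=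
  ∀ (G : Type) [Group G] (g : Fin n → Fin n → G),
    (∀ u v w : Fin n, ({u, v, w} : Finset (Fin n)) ∈ K.faces → g u v * g v w = g u w) →
    ∀ e : EPath K v₀ v₀, (∀ i, e.sum (x i) = 0) → e.val g = 1

/-- PIA (assembly of ALT, EDG, WIN): the map induces an isomorphism of fundamental groups. -/
def PIAStmt : Prop := ∀ (n : ℕ) (K : Cx n) (x : Fin 4 → (Fin 2 → Fin n) → ℤ)
  (f : C(Geom K, Torus4)) (v₀ : Fin n), (∀ v, Nonempty (EPath K v₀ v)) → IsMapOf K x f →
  AbelianPi K x v₀ → (∀ i, ∃ e : EPath K v₀ v₀, ∀ j, e.sum (x j) = if i = j then 1 else 0) →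
  ∀ p : Geom K, Function.Bijective (FundamentalGroup.map f p)

/-! ## Part B : the intersection form -/

/-- STK: Stokes for the cup product. -/
def STKStmt : Prop := ∀ (n : ℕ) (K : Cx n) (o : (Fin 5 → Fin n) → ℤ), IsFundCycle K o →
  ∀ (z : (Fin 3 → Fin n) → ℝ) (b : (Fin 2 → Fin n) → ℝ), IsCocycle (k := 2) K z →
    evalOn K o (cup (k := 2) (l := 2) (cobd (k := 1) b) z) = 0 ∧
    evalOn K o (cup (k := 2) (l := 2) z (cobd (k := 1) b)) = 0

/-- BPM (uses STK): `b₊ = r`, `b₋ = s` if there are `r + s` orthogonal cocycles with positive resp.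
negative squares and `H²` is spanned by `r + s` classes. -/
def BPMStmt : Prop := ∀ (n : ℕ) (K : Cx n) (o : (Fin 5 → Fin n) → ℤ), IsFundCycle K o →
  ∀ (r s : ℕ) (p : Fin r → (Fin 3 → Fin n) → ℝ) (m : Fin s → (Fin 3 → Fin n) → ℝ),
  (∀ i, IsCocycle (k := 2) K (p i)) → (∀ i, IsCocycle (k := 2) K (m i)) →
  (∀ i j, i ≠ j → evalOn K o (cup (k := 2) (l := 2) (p i) (p j)) = 0) →
  (∀ i j, i ≠ j → evalOn K o (cup (k := 2) (l := 2) (m i) (m j)) = 0) →
  (∀ i, 0 < evalOn K o (cup (k := 2) (l := 2) (p i) (p i))) →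
  (∀ i, evalOn K o (cup (k := 2) (l := 2) (m i) (m i)) < 0) →
  (∃ y : Fin (r + s) → (Fin 3 → Fin n) → ℝ, ∀ z : (Fin 3 → Fin n) → ℝ, IsCocycle (k := 2) K z →
    ∃ (c : Fin (r + s) → ℝ) (b : (Fin 2 → Fin n) → ℝ),
      ∀ t ∈ simp K 2, z t = ∑ i, c i * y i t + cobd (k := 1) b t) →
  IsBplus K o r ∧ IsBminus K o s

/-- SPN: `H²` is spanned by `y 0, …, y (N-1)` if there are triangular certificates: a list `P₁` of
pairs (edge, triangle), a list `P₂` of pairs (triangle, tetrahedron) and `N` critical triangles `T`. -/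
def SPNStmt : Prop := ∀ (n : ℕ) (K : Cx n) (N : ℕ)
  (y : Fin N → (Fin 3 → Fin n) → ℝ) (T : Fin N → (Fin 3 → Fin n))
  (P₁ : List ((Fin 2 → Fin n) × (Fin 3 → Fin n)))
  (P₂ : List ((Fin 3 → Fin n) × (Fin 4 → Fin n))),
  (∀ i, IsCocycle (k := 2) K (y i)) →
  (∀ i j, y i (T j) = if i = j then 1 else 0) →
  (∀ i, ∀ a ∈ P₁, y i a.2 = 0) →
  (∀ a ∈ P₁, a.2 ∈ simp K 2 ∧ ∃! j : Fin 3, a.2 ∘ j.succAbove = a.1) →
  P₁.Pairwise (fun a b => ∀ j : Fin 3, a.2 ∘ j.succAbove ≠ b.1) →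
  (∀ a ∈ P₂, a.2 ∈ simp K 3 ∧ ∃ j : Fin 4, a.2 ∘ j.succAbove = a.1) →
  (∀ k (hk : k < P₂.length), ∀ j : Fin 4, (P₂[k]).2 ∘ j.succAbove ≠ (P₂[k]).1 →
    (∃ i, T i = (P₂[k]).2 ∘ j.succAbove) ∨ (∃ a ∈ P₁, a.2 = (P₂[k]).2 ∘ j.succAbove) ∨
    ∃ l, ∃ hl : l < k, (P₂[l]'(hl.trans hk)).1 = (P₂[k]).2 ∘ j.succAbove) →
  (∀ t ∈ simp K 2, (∃ i, T i = t) ∨ (∃ a ∈ P₁, a.2 = t) ∨ ∃ a ∈ P₂, a.1 = t) →
  ∀ z : (Fin 3 → Fin n) → ℝ, IsCocycle (k := 2) K z →
    ∃ (c : Fin N → ℝ) (b : (Fin 2 → Fin n) → ℝ),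
      ∀ t ∈ simp K 2, z t = ∑ i, c i * y i t + cobd (k := 1) b t

end Pool.T4
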