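import Pool.Agent.H11.T4.Stmts

/-!
# Module statements for the project T4, second part
-/

open Finset

namespace Pool.T4

/-- SP2: rank version of SPN. `tE e` is the triangle matched with the edge `e` (if `rkE e ≠ 0`). -/
def SP2Stmt : Prop := ∀ (n : ℕ) (K : Cx n) (N : ℕ)
  (y : Fin N → (Fin 3 → Fin n) → ℝ) (T : Fin N → (Fin 3 → Fin n))
  (rkE : (Fin 2 → Fin n) → ℕ) (tE : (Fin 2 → Fin n) → (Fin 3 → Fin n)) (rkT : (Fin 3 → Fin n) → ℕ),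
  (∀ i, IsCocycle (k := 2) K (y i)) →
  (∀ i j, y i (T j) = if i = j then 1 else 0) →
  (∀ e, rkE e ≠ 0 → (∀ i, y i (tE e) = 0) ∧ (∃! j : Fin 3, tE e ∘ j.succAbove = e) ∧
    ∀ j : Fin 3, tE e ∘ j.succAbove ≠ e → rkE (tE e ∘ j.succAbove) < rkE e) →
  (∀ t ∈ simp K 2, (∃ i, T i = t) ∨ (∃ e, rkE e ≠ 0 ∧ tE e = t) ∨
    (∃ ρ ∈ simp K 3, ∃ j₀ : Fin 4, ρ ∘ j₀.succAbove = t ∧
      ∀ j : Fin 4, j ≠ j₀ → rkT (ρ ∘ j.succAbove) < rkT t)) →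
  ∀ z : (Fin 3 → Fin n) → ℝ, IsCocycle (k := 2) K z →
    ∃ (c : Fin N → ℝ) (b : (Fin 2 → Fin n) → ℝ),
      ∀ t ∈ simp K 2, z t = ∑ i, c i * y i t + cobd (k := 1) b t

end Pool.T4
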