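import Pool.Agent.H11.T4.Chi
import Pool.Agent.H2.T4.PIA

/-!
# The edge path group is `ℤ⁴`, detected by the cocycles
-/

open Finset

namespace Pool.T4

open C45

attribute [local irreducible] Tr.get FC FM T2 T3 TW FT

theorem recB' {α : Type} (a b : α) (c : Bool) :
    @Bool.rec (fun _ => α) a b c = if c = true then b else a := by cases c <;> rfl

/-! ### evaluation of words in a group -/

section Words

variable {G : Type} [Group G] (a : ℕ → G)

/-- value of a letter -/
def gl (l : ℕ) : G := if l ≤ 4 then a l else (a (l - 4))⁻¹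

/-- value of a word -/
def ev (w : List ℕ) : G := (w.map (gl a)).prod

theorem ev_nil : ev a [] = 1 := rfl
theorem ev_cons (l : ℕ) (w : List ℕ) : ev a (l :: w) = gl a l * ev a w := by
  unfold ev; rw [List.map_cons, List.prod_cons]

theorem invl_eq (l : ℕ) : invl l = if l ≤ 4 then l + 4 else l - 4 := by
  show @Bool.rec (fun _ => ℕ) (l - 4) (l + 4) (Nat.ble l 4) = _
  rw [recB']
  simp [Nat.ble_eq]

variable {a} (h0 : a 0 = (a 4)⁻¹)

include h0 in
theorem gl_invl {l : ℕ} (hl : l ≤ 8) : gl a (invl l) = (gl a l)⁻¹ := by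
  rw [invl_eq]
  by_cases h : l ≤ 4
  · rw [if_pos h]
    rcases Nat.eq_zero_or_pos l with rfl | hpos
    · unfold gl
      rw [if_pos (by norm_num), if_pos (by norm_num), h0, inv_inv]
    · unfold gl
      rw [if_neg (by omega), if_pos h, Nat.add_sub_cancel]
  · rw [if_neg h]
    unfold gl
    rw [if_neg h, if_pos (by omega), inv_inv]

theorem invl_le {l : ℕ} (hl : l ≤ 8) : invl l ≤ 8 := by
  rw [invl_eq]
  split_ifs <;> omega

theorem pushW_nil (l : ℕ) : pushW l [] = [l] := rfl
theorem pushW_cons (l m : ℕ) (w : List ℕ) :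
    pushW l (m :: w) = if Nat.beq (invl l) m then w else l :: m :: w := by
  show @Bool.rec (fun _ => List ℕ) (l :: m :: w) w (Nat.beq (invl l) m) = _
  rw [recB']

include h0 in
theorem ev_pushW {l : ℕ} (hl : l ≤ 8) (w : List ℕ) : ev a (pushW l w) = gl a l * ev a w := by
  cases w with
  | nil => rw [pushW_nil, ev_cons]
  | cons m w =>
    rw [pushW_cons]
    split_ifs with h
    · have := Nat.eq_of_beq_eq_true h
      rw [ev_cons, ← this, gl_invl h0 hl, mul_inv_cancel_left]
    · rw [ev_cons]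

theorem mulW_nil (v : List ℕ) : mulW [] v = v := rfl
theorem mulW_cons (l : ℕ) (w v : List ℕ) : mulW (l :: w) v = pushW l (mulW w v) := rfl

include h0 in
theorem ev_mulW : ∀ (w v : List ℕ), (∀ l ∈ w, l ≤ 8) → ev a (mulW w v) = ev a w * ev a v := by
  intro w
  induction w with
  | nil => intro v _; rw [mulW_nil, ev_nil, one_mul]
  | cons l w ih =>
    intro v hw
    rw [mulW_cons, ev_pushW h0 (hw l List.mem_cons_self), ih v (fun m hm => hw m (List.mem_cons_of_mem _ hm)),
      ev_cons, mul_assoc]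

/-- `invW` with accumulator -/
noncomputable def invA (w acc : List ℕ) : List ℕ :=
  @List.rec ℕ (fun _ => List ℕ → List ℕ) (fun acc => acc) (fun l _ ih acc => ih (invl l :: acc)) w acc

theorem invA_cons (l : ℕ) (w acc : List ℕ) : invA (l :: w) acc = invA w (invl l :: acc) := rfl
theorem invA_nil (acc : List ℕ) : invA [] acc = acc := rfl
theorem invW_eq (w : List ℕ) : invW w = invA w [] := rfl

include h0 in
theorem ev_invA : ∀ (w acc : List ℕ), (∀ l ∈ w, l ≤ 8) → ev a (invA w acc) = (ev a w)⁻¹ * ev a acc := by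
  intro w
  induction w with
  | nil => intro acc _; rw [invA_nil, ev_nil, inv_one, one_mul]
  | cons l w ih =>
    intro acc hw
    rw [invA_cons, ih _ (fun m hm => hw m (List.mem_cons_of_mem _ hm)), ev_cons, ev_cons,
      gl_invl h0 (hw l List.mem_cons_self), mul_inv_rev, mul_assoc]

include h0 in
theorem ev_invW (w : List ℕ) (hw : ∀ l ∈ w, l ≤ 8) : ev a (invW w) = (ev a w)⁻¹ := by
  rw [invW_eq, ev_invA h0 w [] hw, ev_nil, mul_one]

theorem invA_le : ∀ (w acc : List ℕ), (∀ l ∈ w, l ≤ 8) → (∀ l ∈ acc, l ≤ 8) → ∀ l ∈ invA w acc, l ≤ 8 := by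
  intro w
  induction w with
  | nil => intro acc _ h; exact h
  | cons l w ih =>
    intro acc hw hacc
    rw [invA_cons]
    apply ih _ (fun m hm => hw m (List.mem_cons_of_mem _ hm))
    intro m hm
    rcases List.mem_cons.1 hm with rfl | hm
    · exact invl_le (hw l List.mem_cons_self)
    · exact hacc m hm

theorem decW_succ (m c : ℕ) : decW (m + 1) c = if Nat.beq c 0 then [] else c % 9 :: decW m (c / 9) := by
  show @Bool.rec (fun _ => List ℕ) (Nat.mod c 9 :: decW m (Nat.div c 9)) [] (Nat.beq c 0) = _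
  rw [recB']
  rfl

theorem decW_le : ∀ (m c : ℕ), ∀ l ∈ decW m c, l ≤ 8 := by
  intro m
  induction m with
  | zero => intro c l hl; exact absurd hl (by show ¬ l ∈ ([] : List ℕ); simp)
  | succ m ih =>
    intro c l hl
    rw [decW_succ] at hl
    split_ifs at hl
    · exact absurd hl (by simp)
    · rcases List.mem_cons.1 hl with rfl | hl
      · omega
      · exact ih _ l hl

theorem decW_zero (m : ℕ) : decW m 0 = [] := by
  cases m with
  | zero => rfl
  | succ m => rw [decW_succ]; rfl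

theorem wd_lt {u v : ℕ} (h : u < v) : wd u v = decW 8 (cwOf (TW.get (c2 u v))) := by
  unfold wd
  rw [recB', if_pos (blt_iff.2 h)]

theorem wd_gt {u v : ℕ} (h : u < v) : wd v u = invW (decW 8 (cwOf (TW.get (c2 u v)))) := by
  unfold wd
  rw [recB', if_neg (fun h' => absurd (blt_iff.1 h') (by omega))]

theorem wd_le (u v : ℕ) : ∀ l ∈ wd u v, l ≤ 8 := by
  unfold wd
  rw [recB']
  split_ifs
  · exact decW_le _ _
  · rw [invW_eq]
    exact invA_le _ _ (decW_le _ _) (by simp)

include h0 in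
theorem ev_wd_swap {u v : ℕ} (h : u ≠ v) : ev a (wd v u) = (ev a (wd u v))⁻¹ := by
  rcases Nat.lt_or_gt_of_ne h with h | h
  · rw [wd_lt h, wd_gt h, ev_invW h0 _ (decW_le _ _)]
  · rw [wd_lt h, wd_gt h, ev_invW h0 _ (decW_le _ _), inv_inv]

theorem rkw_swap {u v : ℕ} (h : u ≠ v) : rkw v u = rkw u v := by
  unfold rkw
  rw [recB', recB']
  rcases Nat.lt_or_gt_of_ne h with h | h
  · rw [if_neg (fun h' => absurd (blt_iff.1 h') (by omega)), if_pos (blt_iff.2 h)]
  · rw [if_pos (blt_iff.2 h), if_neg (fun h' => absurd (blt_iff.1 h') (by omega))]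

theorem rkw_lt {u v : ℕ} (h : u < v) : rkw u v = rwOf (TW.get (c2 u v)) := by
  unfold rkw
  rw [recB', if_pos (blt_iff.2 h)]

/-! counting letters -/

theorem cntL_nil (l : ℕ) : cntL l [] = 0 := rfl
theorem cntL_cons (l m : ℕ) (w : List ℕ) : cntL l (m :: w) = (if l = m then 1 else 0) + cntL l w := by
  show @Bool.rec (fun _ => ℕ) (cntL l w) (Nat.succ (cntL l w)) (Nat.beq l m) = _
  rw [recB']
  by_cases h : l = m
  · subst h
    rw [if_pos (Nat.beq_refl l), if_pos rfl]
    omega
  · rw [if_neg (fun h' => h (Nat.eq_of_beq_eq_true h')), if_neg h]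
    omega

/-- value of a word in commuting letters -/
theorem ev_comm (hc : ∀ i j : Fin 4, a (i + 1) * a (j + 1) = a (j + 1) * a (i + 1)) :
    ∀ w : List ℕ, (∀ l ∈ w, 1 ≤ l ∧ l ≤ 8) → ev a w =
      a 1 ^ ((cntL 1 w : ℤ) - cntL 5 w) * a 2 ^ ((cntL 2 w : ℤ) - cntL 6 w) *
      a 3 ^ ((cntL 3 w : ℤ) - cntL 7 w) * a 4 ^ ((cntL 4 w : ℤ) - cntL 8 w) := by
  have c12 : Commute (a 1) (a 2) := hc 0 1
  have c13 : Commute (a 1) (a 3) := hc 0 2
  have c14 : Commute (a 1) (a 4) := hc 0 3
  have c23 : Commute (a 2) (a 3) := hc 1 2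
  have c24 : Commute (a 2) (a 4) := hc 1 3
  have c34 : Commute (a 3) (a 4) := hc 2 3
  intro w
  induction w with
  | nil => intro _; simp [ev_nil, cntL_nil]
  | cons l w ih =>
    intro hw
    rw [ev_cons, ih (fun m hm => hw m (List.mem_cons_of_mem _ hm))]
    simp only [cntL_cons]
    obtain ⟨h1, h8⟩ := hw l List.mem_cons_self
    have move : ∀ (x : G) (p q r s : ℤ), x = x → True := fun _ _ _ _ _ _ => trivial
    interval_cases l
    · -- 1
      have : gl a 1 = a 1 := rfl
      rw [this]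
      norm_num
      rw [← mul_assoc, ← mul_assoc, ← mul_assoc, ← zpow_one_add, ← add_sub_assoc]
    · have : gl a 2 = a 2 := rfl
      rw [this]
      norm_num
      rw [← mul_assoc, ← mul_assoc, ← mul_assoc, ((c12.symm.zpow_right _).eq), mul_assoc (a 1 ^ _) (a 2),
        ← zpow_one_add, ← add_sub_assoc]
    · have : gl a 3 = a 3 := rfl
      rw [this]
      norm_num
      rw [← mul_assoc, ← mul_assoc, ← mul_assoc, ((c13.symm.zpow_right _).eq), mul_assoc (a 1 ^ _) (a 3),
        ((c23.symm.zpow_right _).eq), ← mul_assoc, mul_assoc (a 1 ^ _ * a 2 ^ _) (a 3),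
        ← zpow_one_add, ← add_sub_assoc]
    · have : gl a 4 = a 4 := rfl
      rw [this]
      norm_num
      rw [← mul_assoc, ← mul_assoc, ← mul_assoc, ((c14.symm.zpow_right _).eq), mul_assoc (a 1 ^ _) (a 4),
        ((c24.symm.zpow_right _).eq), ← mul_assoc, mul_assoc (a 1 ^ _ * a 2 ^ _) (a 4),
        ((c34.symm.zpow_right _).eq), ← mul_assoc, mul_assoc (a 1 ^ _ * a 2 ^ _ * a 3 ^ _) (a 4),
        ← zpow_one_add, ← add_sub_assoc]
    · have : gl a 5 = (a 1)⁻¹ := rfl
      rw [this]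
      norm_num
      rw [← mul_assoc, ← mul_assoc, ← mul_assoc, ← zpow_neg_one, ← zpow_add]
      congr 4
      ring
    · have : gl a 6 = (a 2)⁻¹ := rfl
      rw [this]
      norm_num
      rw [← mul_assoc, ← mul_assoc, ← mul_assoc, ((c12.symm.inv_left.zpow_right _).eq),
        mul_assoc (a 1 ^ _) (a 2)⁻¹, ← zpow_neg_one, ← zpow_add]
      congr 4
      ring
    · have : gl a 7 = (a 3)⁻¹ := rfl
      rw [this]
      norm_num
      rw [← mul_assoc, ← mul_assoc, ← mul_assoc, ((c13.symm.inv_left.zpow_right _).eq),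
        mul_assoc (a 1 ^ _) (a 3)⁻¹, ((c23.symm.inv_left.zpow_right _).eq), ← mul_assoc,
        mul_assoc (a 1 ^ _ * a 2 ^ _) (a 3)⁻¹, ← zpow_neg_one, ← zpow_add]
      congr 3
      ring
    · have : gl a 8 = (a 4)⁻¹ := rfl
      rw [this]
      norm_num
      rw [← mul_assoc, ← mul_assoc, ← mul_assoc, ((c14.symm.inv_left.zpow_right _).eq),
        mul_assoc (a 1 ^ _) (a 4)⁻¹, ((c24.symm.inv_left.zpow_right _).eq), ← mul_assoc,
        mul_assoc (a 1 ^ _ * a 2 ^ _) (a 4)⁻¹, ((c34.symm.inv_left.zpow_right _).eq), ← mul_assoc,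
        mul_assoc (a 1 ^ _ * a 2 ^ _ * a 3 ^ _) (a 4)⁻¹, ← zpow_neg_one, ← zpow_add]
      congr 2
      ring

end Words

end Pool.T4
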