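import Pool.Agent.H11.T4.Wrd
import Pool.Agent.H11.T4.Grm

/-!
# The edge path group, second part
-/

open Finset

namespace Pool.T4

open C45

attribute [local irreducible] Tr.get FC FM T2 T3 TW FT

theorem FT_lt' {a b c d e : ℕ} (h : FT.get (mask5 a b c d e) ≠ 0) :
    a < 45 ∧ b < 45 ∧ c < 45 := by
  have h1 := FT_mem h
  rw [maskL_eq] at h1
  obtain ⟨m, hm, hme⟩ := List.mem_map.1 h1
  have h2 : ∀ i, (i = a ∨ i = b ∨ i = c ∨ i = d ∨ i = e) → i < 45 := by
    intro i hi
    have h3 : (mask5 a b c d e).testBit i = true := (testBit_mask5 _ _ _ _ _ _).2 hi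
    rw [← hme] at h3
    obtain ⟨j, hj⟩ := (mask_bits i).1 h3
    rw [← hj]
    exact (v5_lt hm).2 j
  exact ⟨h2 _ (by simp), h2 _ (by simp), h2 _ (by simp)⟩

theorem KK_down {s t : Finset (Fin 45)} (h : s ∈ KK.faces) (hts : t ⊆ s) (ht : t.Nonempty) : t ∈ KK.faces := by
  obtain ⟨-, c, hc, h⟩ := mem_KK.1 h
  exact mem_KK.2 ⟨ht, c, hc, fun v hv => h v (hts hv)⟩

theorem T2_of_face {u v : Fin 45} (huv : u < v) (h : ({u, v} : Finset (Fin 45)) ∈ KK.faces) :
    T2.get (c2 u v) ≠ 0 := by
  rw [← mem_simp1_iff, mem_simp, img2]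
  exact ⟨vec2_mono huv, h⟩

theorem TW_info {u v : ℕ} (hv : v < 64) (h : T2.get (c2 u v) ≠ 0) :
    chkW' u v (TW.get (c2 u v)) = true ∧ chkPos (c2 u v) (TW.get (c2 u v)) = true := by
  have h1 := T2_info hv h
  simp only [chk2', andB_eq, blt_iff] at h1
  have h2 : TW.get (c2 u v) ≠ 0 := h1.2.2.2.2.1.ne'
  have := TW.get_all kW h2
  unfold chkW at this
  rw [c2_div hv, c2_mod hv] at this
  exact ⟨this, TW.get_all kPos h2⟩

theorem TW_diag (u : ℕ) (hu : u < 64) : TW.get (c2 u u) = 0 := by
  by_contra h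
  have := TW.get_all kW h
  unfold chkW at this
  rw [c2_div hu, c2_mod hu] at this
  simp only [chkW', andB_eq, blt_iff] at this
  exact absurd this.1 (lt_irrefl _)

theorem wd_diag (u : ℕ) (hu : u < 64) : wd u u = [] := by
  unfold wd
  rw [TW_diag u hu, recB']
  split_ifs
  · rfl
  · rfl

section Main

variable {G : Type} [Group G] (g : Fin 45 → Fin 45 → G)

/-- value of a list of vertices starting at `x` -/
noncomputable def valA : List ℕ → ℕ → G
  | [], _ => 1
  | w :: l, x => g (vt x) (vt w) * valA l w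

/-- gauge function -/
noncomputable def HH (v : ℕ) : G := valA g (tailL (pth v)) root

/-- conjugated value -/
noncomputable def gg' (u v : ℕ) : G := HH g u * g (vt u) (vt v) * (HH g v)⁻¹

/-- generators -/
noncomputable def AA (i : ℕ) : G := gg' g (nthL GN (i - 1) / 64) (nthL GN (i - 1) % 64)

/-- generators with the convention for the letter `0` -/
noncomputable def aa (i : ℕ) : G := if i = 0 then (AA g 4)⁻¹ else AA g i

theorem aa0 : aa g 0 = (aa g 4)⁻¹ := by
  unfold aa
  rw [if_pos rfl, if_neg (by norm_num)]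

theorem chain_snoc (u v : ℕ) : ∀ (l : List ℕ) (x : ℕ), chainB u l x = true →
    valA g (snocL l v) x = valA g l x * g (vt u) (vt v) := by
  intro l
  induction l with
  | nil =>
    intro x h
    have : x = u := Nat.eq_of_beq_eq_true h
    subst this
    show g (vt x) (vt v) * 1 = 1 * g (vt x) (vt v)
    rw [mul_one, one_mul]
  | cons w l ih =>
    intro x h
    have h' : andB (edgeB x w) (chainB u l w) = true := h
    rw [andB_eq] at h'
    show g (vt x) (vt w) * valA g (snocL l v) w = g (vt x) (vt w) * valA g l w * g (vt u) (vt v)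
    rw [ih w h'.2, mul_assoc]

theorem path_form (v : ℕ) (hv : v < 45) : ∃ l, pth v = root :: l ∧ chainB v l root = true := by
  have h := kPath ⟨v, hv⟩
  simp only [pathOK] at h
  cases hp : pth v with
  | nil => rw [hp] at h; exact absurd h (by show ¬ (false = true); simp)
  | cons r l =>
    rw [hp] at h
    have h' : andB (Nat.beq r root) (chainB v l r) = true := h
    rw [andB_eq] at h'
    have : r = root := Nat.eq_of_beq_eq_true h'.1
    subst this
    exact ⟨l, rfl, h'.2⟩

theorem HH_snoc {u v : ℕ} (hu : u < 45) (h : pth v = snocL (pth u) v) :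
    HH g v = HH g u * g (vt u) (vt v) := by
  obtain ⟨l, hl, hc⟩ := path_form u hu
  unfold HH
  rw [h, hl]
  show valA g (snocL l v) root = valA g l root * _
  exact chain_snoc g u v l root hc

variable (hg : ∀ u v w : Fin 45, ({u, v, w} : Finset (Fin 45)) ∈ KK.faces → g u v * g v w = g u w)

include hg in
theorem g_self (u : Fin 45) : g u u = 1 := by
  have h : ({u, u, u} : Finset (Fin 45)) ∈ KK.faces := by
    have := KK.singleton_mem u
    simpa using this
  have := hg u u u h
  exact mul_eq_left.1 this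

include hg in
theorem g_swap {u v : Fin 45} (h : ({u, v} : Finset (Fin 45)) ∈ KK.faces) : g u v * g v u = 1 := by
  rw [hg u v u (by
    have : ({u, v, u} : Finset (Fin 45)) = {u, v} := by ext w; simp; tauto
    rw [this]; exact h), g_self g hg]

include hg in
/-- the claim for all ordered pairs follows from the claim for increasing pairs -/
theorem claim_pair {r : ℕ}
    (ih : ∀ u v : Fin 45, u < v → ({u, v} : Finset (Fin 45)) ∈ KK.faces → rkw u v < r →
      gg' g u v = ev (aa g) (wd u v))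
    (u v : Fin 45) (h : ({u, v} : Finset (Fin 45)) ∈ KK.faces) (hr : rkw u v < r) :
    gg' g u v = ev (aa g) (wd u v) := by
  rcases lt_trichotomy u v with huv | rfl | huv
  · exact ih u v huv h hr
  · rw [wd_diag _ (by omega), ev_nil]
    unfold gg'
    rw [vt_val, g_self g hg, mul_one, mul_inv_cancel]
  · have hne : (v : ℕ) ≠ u := fun h' => absurd huv (by rw [Fin.lt_def]; omega)
    have h' : ({v, u} : Finset (Fin 45)) ∈ KK.faces := by rw [Finset.pair_comm]; exact h
    have h1 := ih v u huv h' (by rw [← rkw_swap hne]; exact hr)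
    rw [ev_wd_swap (aa0 g) hne, ← h1]
    unfold gg'
    rw [vt_val, vt_val, mul_inv_rev, mul_inv_rev, inv_inv]
    have h2 : (g v u)⁻¹ = g u v := by
      rw [inv_eq_iff_mul_eq_one]
      exact g_swap g hg h'
    rw [h2, mul_assoc]

theorem dec_small : ∀ c : Fin 5, 0 < (c : ℕ) → decW 8 c = [(c : ℕ)] := by decide +kernel

include hg in
theorem claimE : ∀ (r : ℕ) (u v : Fin 45), u < v → ({u, v} : Finset (Fin 45)) ∈ KK.faces → rkw u v = r →
    gg' g u v = ev (aa g) (wd u v) := by
  intro r
  induction r using Nat.strong_induction_on with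
  | _ r ih =>
    intro u v huv hf hr
    have ih' : ∀ u v : Fin 45, ({u, v} : Finset (Fin 45)) ∈ KK.faces → rkw u v < r →
        gg' g u v = ev (aa g) (wd u v) :=
      claim_pair g hg (fun u v huv hf hr => ih _ hr u v huv hf rfl)
    have hn := T2_of_face huv hf
    have hi := (TW_info (u := u) (v := v) (by omega) hn).1
    have huv' : (u : ℕ) < v := huv
    simp only [chkW', andB_eq] at hi
    obtain ⟨-, -, hk, -⟩ := hi
    have hwd := wd_lt huv'
    rw [rkw_lt huv'] at hr
    generalize hp : TW.get (c2 u v) = p at hk hwd hr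
    unfold kindW at hk
    rw [recB'] at hk
    by_cases k0 : Nat.beq (kwOf p) 0 = true
    · -- tree edge
      rw [if_pos k0, andB_eq] at hk
      obtain ⟨hc0, hk⟩ := hk
      have hc0 := Nat.eq_of_beq_eq_true hc0
      rw [recB'] at hk
      rw [hwd, hc0, decW_zero, ev_nil]
      unfold gg'
      rw [vt_val, vt_val]
      split_ifs at hk with hpv
      · rw [HH_snoc g u.2 (eqL_spec _ _ hpv), vt_val, vt_val, mul_inv_cancel]
      · rw [HH_snoc g v.2 (eqL_spec _ _ hk), vt_val, vt_val, mul_assoc (HH g v) (g v u)]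
        have h' : ({v, u} : Finset (Fin 45)) ∈ KK.faces := by rw [Finset.pair_comm]; exact hf
        rw [g_swap g hg h', mul_one, mul_inv_cancel]
    rw [if_neg k0, recB'] at hk
    by_cases k1 : Nat.beq (kwOf p) 1 = true
    · -- generator
      rw [if_pos k1, andB_eq, andB_eq, blt_iff, blt_iff] at hk
      obtain ⟨hG, hc0, hc5⟩ := hk
      have hG : nthL GN (cwOf p - 1) = c2 u v := Nat.eq_of_beq_eq_true hG
      have hd := dec_small ⟨cwOf p, hc5⟩ hc0
      rw [hwd]
      show _ = ev (aa g) (decW 8 (cwOf p))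
      have hd' : decW 8 (cwOf p) = [cwOf p] := hd
      rw [hd', ev_cons, ev_nil, mul_one]
      unfold gl
      rw [if_pos (by omega)]
      unfold aa
      rw [if_neg (by omega)]
      unfold AA
      rw [hG]
      have e1 : c2 u v / 64 = u := c2_div (by omega)
      have e2 : c2 u v % 64 = v := c2_mod (by omega)
      rw [e1, e2]
    · -- derived
      rw [if_neg k1, andB_eq, andB_eq, andB_eq, blt_iff, blt_iff, blt_iff] at hk
      obtain ⟨hF, h1, h2, h3⟩ := hk
      obtain ⟨t, ht⟩ : ∃ t, t = twOf p := ⟨_, rfl⟩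
      rw [← ht] at hF h1 h2 h3
      have ht45 : t < 45 := (FT_lt' hF.ne').2.2
      have htv : (vt t).val = t := val_vt ht45
      have hface : ({u, v, vt t} : Finset (Fin 45)) ∈ KK.faces := by
        refine face_of_FT (Finset.insert_nonempty _ _) hF.ne' ?_
        intro w hw
        rw [Finset.mem_insert, Finset.mem_insert, Finset.mem_singleton] at hw
        rcases hw with rfl | rfl | rfl
        · exact Or.inl rfl
        · exact Or.inr (Or.inl rfl)
        · exact Or.inr (Or.inr (Or.inl htv))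
      have f1 : ({u, vt t} : Finset (Fin 45)) ∈ KK.faces := KK_down hface
        (by intro w; simp only [Finset.mem_insert, Finset.mem_singleton]; tauto) (Finset.insert_nonempty _ _)
      have f2 : ({vt t, v} : Finset (Fin 45)) ∈ KK.faces := KK_down hface
        (by intro w; simp only [Finset.mem_insert, Finset.mem_singleton]; tauto) (Finset.insert_nonempty _ _)
      have f3 : ({u, vt t, v} : Finset (Fin 45)) ∈ KK.faces := by
        have : ({u, vt t, v} : Finset (Fin 45)) = {u, v, vt t} := by ext w; simp; tauto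
        rw [this]; exact hface
      have e1 := ih' u (vt t) f1 (by rw [htv, ← hr]; exact h1)
      have e2 := ih' (vt t) v f2 (by rw [htv, ← hr]; exact h2)
      rw [htv] at e1 e2
      rw [eqL_spec _ _ h3, ev_mulW (aa0 g) _ _ (wd_le _ _), ← e1, ← e2]
      unfold gg'
      rw [vt_val, vt_val, ← hg u (vt t) v f3]
      group

include hg in
theorem claimA (u v : Fin 45) (h : ({u, v} : Finset (Fin 45)) ∈ KK.faces) :
    gg' g u v = ev (aa g) (wd u v) :=
  claim_pair (r := rkw u v + 1) g hg (fun u v huv hf _ => claimE g hg _ u v huv hf rfl) u v h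
    (Nat.lt_succ_self _)

include hg in
theorem claimC {u v w e f a b c d : ℕ} (h : chkCM [u, v, w, e, f, a, b, c, d] = true)
    (ha : a ≤ 8) (hb : b ≤ 8) : Commute (gl (aa g) a) (gl (aa g) b) := by
  simp only [chkCM, andB_eq, blt_iff] at h
  obtain ⟨hF, h1, h2, h3⟩ := h
  obtain ⟨hu, hv, hw⟩ := FT_lt' hF.ne'
  have hface : ({vt u, vt v, vt w} : Finset (Fin 45)) ∈ KK.faces := by
    refine face_of_FT (Finset.insert_nonempty _ _) hF.ne' ?_
    intro q hq
    rw [Finset.mem_insert, Finset.mem_insert, Finset.mem_singleton] at hq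
    rcases hq with rfl | rfl | rfl
    · exact Or.inl (val_vt hu)
    · exact Or.inr (Or.inl (val_vt hv))
    · exact Or.inr (Or.inr (Or.inl (val_vt hw)))
  have f1 : ({vt u, vt v} : Finset (Fin 45)) ∈ KK.faces := KK_down hface
    (by intro w; simp only [Finset.mem_insert, Finset.mem_singleton]; tauto) (Finset.insert_nonempty _ _)
  have f2 : ({vt v, vt w} : Finset (Fin 45)) ∈ KK.faces := KK_down hface
    (by intro w; simp only [Finset.mem_insert, Finset.mem_singleton]; tauto) (Finset.insert_nonempty _ _)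
  have f3 : ({vt w, vt u} : Finset (Fin 45)) ∈ KK.faces := KK_down hface
    (by intro w; simp only [Finset.mem_insert, Finset.mem_singleton]; tauto) (Finset.insert_nonempty _ _)
  have e1 := claimA g hg _ _ f1
  have e2 := claimA g hg _ _ f2
  have e3 := claimA g hg _ _ f3
  rw [val_vt hu, val_vt hv] at e1
  rw [val_vt hv, val_vt hw] at e2
  rw [val_vt hw, val_vt hu] at e3
  have h4 : ev (aa g) (mulW (wd u v) (mulW (wd v w) (wd w u))) = 1 := by
    rw [ev_mulW (aa0 g) _ _ (wd_le _ _), ev_mulW (aa0 g) _ _ (wd_le _ _), ← e1, ← e2, ← e3]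
    unfold gg'
    have h5 : g (vt u) (vt v) * g (vt v) (vt w) * g (vt w) (vt u) = 1 := by
      rw [hg _ _ _ hface]
      have h' : ({vt u, vt w} : Finset (Fin 45)) ∈ KK.faces := by rw [Finset.pair_comm]; exact f3
      exact g_swap g hg h'
    have : HH g u * g (vt u) (vt v) * (HH g v)⁻¹ * (HH g v * g (vt v) (vt w) * (HH g w)⁻¹ *
        (HH g w * g (vt w) (vt u) * (HH g u)⁻¹)) =
        HH g u * (g (vt u) (vt v) * g (vt v) (vt w) * g (vt w) (vt u)) * (HH g u)⁻¹ := by group
    rw [this, h5, mul_one, mul_inv_cancel]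
  rw [eqL_spec _ _ h1, ← Nat.eq_of_beq_eq_true h2, ← Nat.eq_of_beq_eq_true h3, ev_cons, ev_cons, ev_cons,
    ev_cons, ev_nil, mul_one, gl_invl (aa0 g) ha, gl_invl (aa0 g) hb] at h4
  show gl (aa g) a * gl (aa g) b = gl (aa g) b * gl (aa g) a
  have h6 : gl (aa g) a * gl (aa g) b * (gl (aa g) b * gl (aa g) a)⁻¹ = 1 := by
    rw [mul_inv_rev, ← h4]
    group
  exact mul_inv_eq_one.1 h6

include hg in
theorem claimComm : ∀ i j : Fin 4, aa g (i + 1) * aa g (j + 1) = aa g (j + 1) * aa g (i + 1) := by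
  have c21 : Commute (aa g 2) (aa g 1) := claimC g hg kC1 (by norm_num) (by norm_num)
  have c31 : Commute (aa g 3) (aa g 1) := claimC g hg kC2 (by norm_num) (by norm_num)
  have c41' : Commute (aa g 4)⁻¹ (aa g 1) := claimC g hg kC3 (by norm_num) (by norm_num)
  have c41 : Commute (aa g 4) (aa g 1) := Commute.inv_left_iff.1 c41'
  have c23' : Commute (aa g 2) (aa g 3)⁻¹ := claimC g hg kC4 (by norm_num) (by norm_num)
  have c23 : Commute (aa g 2) (aa g 3) := Commute.inv_right_iff.1 c23'
  have c24 : Commute (aa g 2) (aa g 4) := claimC g hg kC5 (by norm_num) (by norm_num)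
  have c34 : Commute (aa g 3) (aa g 4) := claimC g hg kC6 (by norm_num) (by norm_num)
  intro i j
  fin_cases i <;> fin_cases j
  · rfl
  · exact c21.symm
  · exact c31.symm
  · exact c41.symm
  · exact c21
  · rfl
  · exact c23
  · exact c24
  · exact c31
  · exact c23.symm
  · rfl
  · exact c34
  · exact c41
  · exact c24.symm
  · exact c34.symm
  · rfl

/-- the abelian word of exponents `n` -/
noncomputable def Phi (n : Fin 4 → ℤ) : G := aa g 1 ^ n 0 * aa g 2 ^ n 1 * aa g 3 ^ n 2 * aa g 4 ^ n 3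

include hg in
theorem Phi_add (m n : Fin 4 → ℤ) : Phi g (m + n) = Phi g m * Phi g n := by
  have hc := claimComm g hg
  have c12 : Commute (aa g 1) (aa g 2) := hc 0 1
  have c13 : Commute (aa g 1) (aa g 3) := hc 0 2
  have c14 : Commute (aa g 1) (aa g 4) := hc 0 3
  have c23 : Commute (aa g 2) (aa g 3) := hc 1 2
  have c24 : Commute (aa g 2) (aa g 4) := hc 1 3
  have c34 : Commute (aa g 3) (aa g 4) := hc 2 3
  unfold Phi
  simp only [Pi.add_apply, zpow_add]
  have k1 : Commute (aa g 4 ^ m 3) (aa g 1 ^ n 0 * aa g 2 ^ n 1 * aa g 3 ^ n 2) :=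
    ((c14.symm.zpow_zpow _ _).mul_right (c24.symm.zpow_zpow _ _)).mul_right (c34.symm.zpow_zpow _ _)
  have k2 : Commute (aa g 3 ^ m 2) (aa g 1 ^ n 0 * aa g 2 ^ n 1) :=
    (c13.symm.zpow_zpow _ _).mul_right (c23.symm.zpow_zpow _ _)
  have k3 : Commute (aa g 2 ^ m 1) (aa g 1 ^ n 0) := c12.symm.zpow_zpow _ _
  rw [k1.mul_mul_mul_comm, k2.mul_mul_mul_comm, k3.mul_mul_mul_comm]

theorem Phi_zero : Phi g 0 = 1 := by simp [Phi]

include hg in
theorem Phi_neg (n : Fin 4 → ℤ) : Phi g (-n) = (Phi g n)⁻¹ := by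
  rw [eq_inv_iff_mul_eq_one, ← Phi_add g hg, neg_add_cancel, Phi_zero]

theorem word_counts {u v : Fin 45} (huv : u < v) (hf : ({u, v} : Finset (Fin 45)) ∈ KK.faces) (i : Fin 4) :
    ((cntL (i + 1) (wd u v) : ℤ) - cntL (i + 5) (wd u v)) = xx i ![u, v] := by
  have hi := (TW_info (u := u) (v := v) (by omega) (T2_of_face huv hf)).1
  simp only [chkW', andB_eq] at hi
  obtain ⟨-, -, -, x0, x1, x2, x3⟩ := hi
  have key : ∀ j : ℕ, xw u v j = true →
      ((cntL (j + 1) (wd u v) : ℤ) - cntL (j + 5) (wd u v)) = (dg j (XV u v) : ℤ) - 16 := by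
    intro j hj
    have h : dg j (XV u v) + cntL (j + 5) (wd u v) = 16 + cntL (j + 1) (wd u v) := Nat.eq_of_beq_eq_true hj
    omega
  fin_cases i
  · exact key 0 x0
  · exact key 1 x1
  · exact key 2 x2
  · exact key 3 x3

theorem wd_pos {u v : Fin 45} (huv : u < v) (hf : ({u, v} : Finset (Fin 45)) ∈ KK.faces) :
    ∀ l ∈ wd u v, 1 ≤ l ∧ l ≤ 8 := by
  have hi := (TW_info (u := u) (v := v) (by omega) (T2_of_face huv hf)).2
  have huv' : (u : ℕ) < v := huv
  intro l hl
  refine ⟨?_, wd_le _ _ l hl⟩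
  rw [wd_lt huv'] at hl
  exact blt_iff.1 (allL_spec hi l hl)

include hg in
theorem claimPhi (u v : Fin 45) (h : ({u, v} : Finset (Fin 45)) ∈ KK.faces) :
    HH g u * g u v * (HH g v)⁻¹ = Phi g (fun i => alt (xx i) u v) := by
  have h1 : ∀ u v : Fin 45, u < v → ({u, v} : Finset (Fin 45)) ∈ KK.faces →
      HH g u * g u v * (HH g v)⁻¹ = Phi g (fun i => alt (xx i) u v) := by
    intro u v huv h
    have h2 := claimA g hg u v h
    unfold gg' at h2
    rw [vt_val, vt_val, ev_comm (claimComm g hg) _ (wd_pos huv h)] at h2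
    rw [h2]
    unfold Phi
    show _ = aa g 1 ^ (alt (xx 0) u v) * aa g 2 ^ (alt (xx 1) u v) * aa g 3 ^ (alt (xx 2) u v) *
      aa g 4 ^ (alt (xx 3) u v)
    have e : ∀ i : Fin 4, alt (xx i) u v = (cntL (i + 1) (wd u v) : ℤ) - cntL (i + 5) (wd u v) := by
      intro i
      rw [word_counts huv h i]
      unfold alt
      rw [if_pos huv]
    rw [e 0, e 1, e 2, e 3]
    rfl
  rcases lt_trichotomy u v with huv | rfl | huv
  · exact h1 u v huv h
  · have : (fun i => alt (xx i) u u) = 0 := by
      funext i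
      unfold alt
      simp
    rw [this, Phi_zero, g_self g hg, mul_one, mul_inv_cancel]
  · have h' : ({v, u} : Finset (Fin 45)) ∈ KK.faces := by rw [Finset.pair_comm]; exact h
    have h3 := h1 v u huv h'
    have h4 : (fun i => alt (xx i) u v) = -(fun i => alt (xx i) v u) := by
      funext i
      unfold alt
      rw [if_neg (not_lt.2 huv.le), if_pos huv, Pi.neg_apply, if_pos huv]
    rw [h4, Phi_neg g hg, ← h3]
    have h2 : (g v u)⁻¹ = g u v := by
      rw [inv_eq_iff_mul_eq_one]
      exact g_swap g hg h'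
    rw [← h2]
    group

include hg in
theorem claimPath {u v : Fin 45} (e : EPath KK u v) :
    HH g u * e.val g * (HH g v)⁻¹ = Phi g (fun i => e.sum (xx i)) := by
  induction e with
  | nil u =>
    show HH g u * 1 * (HH g u)⁻¹ = Phi g 0
    rw [mul_one, mul_inv_cancel, Phi_zero]
  | @cons u v w h p ih =>
    show HH g u * (g u v * p.val g) * (HH g w)⁻¹ =
      Phi g ((fun i => alt (xx i) u v) + fun i => p.sum (xx i))
    rw [Phi_add g hg, ← claimPhi g hg u v h, ← ih]
    group

end Main

theorem abelianPi (v₀ : Fin 45) : AbelianPi KK xx v₀ := by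
  intro G _ g hg e he
  have h := claimPath g hg e
  have h0 : (fun i => e.sum (xx i)) = 0 := funext he
  rw [h0, Phi_zero] at h
  have h2 : HH g v₀ * e.val g = HH g v₀ := by
    rw [mul_inv_eq_one] at h
    exact h
  exact mul_eq_left.1 h2

/-! ### edge paths from lists -/

theorem edgeB_face {u v : ℕ} (h : edgeB u v = true) :
    ({vt u, vt v} : Finset (Fin 45)) ∈ KK.faces ∧ ∀ i : Fin 4, alt (xx i) (vt u) (vt v) = xeI i u v := by
  simp only [edgeB, andB_eq, blt_iff, recB'] at h
  obtain ⟨hu, hv, h⟩ := h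
  have hu : u < 45 := hu
  have hv : v < 45 := hv
  split_ifs at h with h1 h2
  · have h3 := ne_of_nz2 h
    rw [← val_vt hu, ← val_vt hv] at h3
    obtain ⟨h4, h5⟩ := edge_of_T2 h3
    refine ⟨h5, fun i => ?_⟩
    unfold alt xeI
    rw [if_pos h4, recB', if_pos (blt_iff.2 h1)]
    show (dg i (XV (vt u).val (vt v).val) : ℤ) - 16 = (dg i (XV u v) : ℤ) - 16
    rw [val_vt hu, val_vt hv]
  · have h3 := ne_of_nz2 h
    rw [← val_vt hu, ← val_vt hv] at h3
    obtain ⟨h4, h5⟩ := edge_of_T2 h3
    refine ⟨by rw [Finset.pair_comm]; exact h5, fun i => ?_⟩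
    unfold alt xeI
    rw [if_neg (not_lt.2 h4.le), if_pos h4, recB', if_neg (fun h' => h1 (blt_iff.1 h'))]
    show -((dg i (XV (vt v).val (vt u).val) : ℤ) - 16) = -((dg i (XV v u) : ℤ) - 16)
    rw [val_vt hu, val_vt hv]

theorem path_of_chain (v : ℕ) : ∀ (l : List ℕ) (u : ℕ), chainB v l u = true →
    ∃ e : EPath KK (vt u) (vt v), ∀ i : Fin 4, e.sum (xx i) = sumE i l u := by
  intro l
  induction l with
  | nil =>
    intro u h
    have : u = v := Nat.eq_of_beq_eq_true h
    subst this
    exact ⟨.nil _, fun i => rfl⟩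
  | cons w l ih =>
    intro u h
    have h' : andB (edgeB u w) (chainB v l w) = true := h
    rw [andB_eq] at h'
    obtain ⟨h1, h2⟩ := h'
    obtain ⟨h3, h4⟩ := edgeB_face h1
    obtain ⟨e, he⟩ := ih w h2
    refine ⟨.cons h3 e, fun i => ?_⟩
    show alt (xx i) (vt u) (vt w) + e.sum (xx i) = xeI i u w + sumE i l w
    rw [h4, he]

theorem conn (v : Fin 45) : Nonempty (EPath KK (vt root) v) := by
  obtain ⟨l, -, hc⟩ := path_form v v.2
  obtain ⟨e, -⟩ := path_of_chain v l root hc
  rw [vt_val] at e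
  exact ⟨e⟩

theorem loops (i : Fin 4) : ∃ e : EPath KK (vt root) (vt root), ∀ j, e.sum (xx j) = if i = j then 1 else 0 := by
  obtain ⟨e, he⟩ := path_of_chain root _ root (kLoop i)
  exact ⟨e, fun j => by rw [he, kLoopSum]⟩

end Pool.T4
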